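import Pool.Agent.NH85.SD.Min2

/-!
# Small models
-/

namespace Pool.Agent.NH85.SD

set_option linter.unusedSectionVars false

open Relation

variable {V : Type} [DecidableEq V]

section

variable {c : Prop} {L : V → Prop} {ι : Type} {A : ι → Finset V}
  {K : ι → V × Gr V → Prop} {m : ι → ℕ} {E : Gr V} {ρ : V}

/-- Inner vertices of a network without thin vertices have degree three. -/
theorem deg_three (h : PreNet L E ρ) (ht : ∀ a v b, v ≠ ρ → ¬ Thin E a v b) {v : V}
    (hL : ¬ L v) (hv : v ≠ ρ) (hvt : Vt E v) :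
    (indeg E v = 1 ∧ outdeg E v = 2) ∨ (indeg E v = 2 ∧ outdeg E v = 1) := by
  have h1 : ∃ w, (w, v) ∈ E := by
    obtain ⟨y, hy | hy⟩ := hvt
    · exact h.innerin v y hy hv
    · exact ⟨y, hy⟩
  obtain ⟨w, hw⟩ := h1
  obtain ⟨z, hz⟩ := h.innerout w v hw hL
  have h2 := indeg_pos hw
  have h3 := outdeg_pos hz
  have h4 := h.deg v hL hv
  by_cases h5 : indeg E v = 1 ∧ outdeg E v = 1
  · exfalso
    refine ht w v z hv ⟨fun x => ⟨fun hx => eq_of_indeg_le_one h5.1.le hx hw, ?_⟩,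
      fun y => ⟨fun hy => eq_of_outdeg_le_one h5.2.le hy hz, ?_⟩⟩
    · rintro rfl; exact hw
    · rintro rfl; exact hz
  · omega

/-- The number of vertices with two in-arcs is at most the size of `TT E`. -/
theorem card_ret (h : PreNet L E ρ) (hρ : outdeg E ρ = 2)
    (ht : ∀ a v b, v ≠ ρ → ¬ Thin E a v b) :
    ((E.filter (fun e => indeg E e.2 = 2)).image Prod.snd).card ≤ (TT E).card := by
  classical
  set E2 := E.filter (fun e => indeg E e.2 = 2) with hE2
  set R := E2.image Prod.snd with hR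
  have h1 : E2.card = R.card * 2 := by
    rw [Finset.card_eq_sum_card_image Prod.snd E2]
    rw [Finset.sum_const_nat]
    intro v hv
    obtain ⟨e, he, rfl⟩ := Finset.mem_image.1 hv
    have h2 := (Finset.mem_filter.1 he).2
    rw [← h2]
    unfold indeg
    congr 1
    ext f
    simp only [hE2, Finset.mem_filter]
    constructor
    · rintro ⟨⟨h3, _⟩, h4⟩
      exact ⟨h3, h4⟩
    · rintro ⟨h3, h4⟩
      exact ⟨⟨h3, by rw [h4]; exact h2⟩, h4⟩
  have hdeg : ∀ {u v : V}, (u, v) ∈ E2 → outdeg E u ≠ 2 → indeg E u = 2 ∧ outdeg E u = 1 := by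
    intro u v huv hu
    have h3 := (Finset.mem_filter.1 huv).1
    have h4 : u ≠ ρ := by rintro rfl; exact hu hρ
    rcases deg_three h ht (h.leafout _ _ h3) h4 ⟨v, Or.inl h3⟩ with h5 | h5
    · exact absurd h5.2 hu
    · exact h5
  have h2 : (E2.filter (fun e => outdeg E e.1 ≠ 2)).card ≤ R.card := by
    refine Finset.card_le_card_of_injOn Prod.fst ?_ ?_
    · rintro ⟨u, v⟩ he
      obtain ⟨h3, h4⟩ := Finset.mem_filter.1 he
      obtain ⟨h5, _⟩ := hdeg h3 h4
      have h6 := (Finset.mem_filter.1 h3).1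
      have h7 : u ≠ ρ := by rintro rfl; exact h4 hρ
      obtain ⟨w, hw⟩ := h.innerin _ _ h6 h7
      exact Finset.mem_coe.2 (Finset.mem_image.2 ⟨(w, u), Finset.mem_filter.2 ⟨hw, h5⟩, rfl⟩)
    · rintro ⟨u, v⟩ he ⟨u', v'⟩ he' heq
      obtain ⟨h3, h4⟩ := Finset.mem_filter.1 he
      obtain ⟨h3', _⟩ := Finset.mem_filter.1 he'
      simp only at heq
      subst heq
      obtain ⟨_, h5⟩ := hdeg h3 h4
      rw [eq_of_outdeg_le_one h5.le (Finset.mem_filter.1 h3).1 (Finset.mem_filter.1 h3').1]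
  have h3 : E2.card = (E2.filter (fun e => outdeg E e.1 = 2)).card +
      (E2.filter (fun e => outdeg E e.1 ≠ 2)).card :=
    (Finset.card_filter_add_card_filter_not (s := E2) (fun e => outdeg E e.1 = 2)).symm
  have h4 : E2.filter (fun e => outdeg E e.1 = 2) ⊆ TT E := by
    intro e he
    obtain ⟨h5, h6⟩ := Finset.mem_filter.1 he
    obtain ⟨h7, h8⟩ := Finset.mem_filter.1 h5
    exact Finset.mem_filter.2 ⟨h7, h6, h8⟩
  have h5 := Finset.card_le_card h4
  omega

open Classical in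
/-- Handshake. -/
theorem card_arcs (h : PreNet L E ρ) (ht : ∀ a v b, v ≠ ρ → ¬ Thin E a v b) :
    E.card ≤ 2 * ((E.image Prod.snd).filter L).card +
      3 * ((E.filter (fun e => indeg E e.2 = 2)).image Prod.snd).card := by
  set R := (E.filter (fun e => indeg E e.2 = 2)).image Prod.snd with hR
  set LS := (E.image Prod.snd).filter L with hLS
  set Vs := E.image Prod.fst ∪ E.image Prod.snd with hVs
  have h1 : E.card = ∑ v ∈ Vs, outdeg E v :=
    Finset.card_eq_sum_card_fiberwise fun e he =>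
      Finset.mem_coe.2 (Finset.mem_union_left _ (Finset.mem_image_of_mem _ he))
  have h2 : E.card = ∑ v ∈ Vs, indeg E v :=
    Finset.card_eq_sum_card_fiberwise fun e he =>
      Finset.mem_coe.2 (Finset.mem_union_right _ (Finset.mem_image_of_mem _ he))
  have h3 : ∑ v ∈ Vs, 2 * indeg E v ≤ ∑ v ∈ Vs, (outdeg E v + ((if v ∈ LS then 2 else 0) +
      (if v ∈ R then 3 else 0))) := by
    refine Finset.sum_le_sum fun v hv => ?_
    have hvt : Vt E v := by
      rcases Finset.mem_union.1 hv with hv | hv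
      · obtain ⟨⟨x, y⟩, he, rfl⟩ := Finset.mem_image.1 hv
        exact ⟨y, Or.inl he⟩
      · obtain ⟨⟨x, y⟩, he, rfl⟩ := Finset.mem_image.1 hv
        exact ⟨x, Or.inr he⟩
    by_cases hvρ : v = ρ
    · subst hvρ
      have : indeg E v = 0 := by
        unfold indeg
        rw [Finset.card_eq_zero, Finset.filter_eq_empty_iff]
        rintro ⟨x, y⟩ hxy rfl
        exact h.rootin x hxy
      omega
    by_cases hL : L v
    · have h4 := h.leafin v hL
      have h5 : v ∈ LS := by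
        refine Finset.mem_filter.2 ⟨?_, hL⟩
        obtain ⟨y, hy | hy⟩ := hvt
        · exact absurd hL (h.leafout _ _ hy)
        · exact Finset.mem_image.2 ⟨_, hy, rfl⟩
      rw [if_pos h5]
      omega
    · rcases deg_three h ht hL hvρ hvt with h5 | h5
      · omega
      · have h6 : v ∈ R := by
          have h7 : ∃ w, (w, v) ∈ E := by
            obtain ⟨y, hy | hy⟩ := hvt
            · exact h.innerin v y hy hvρ
            · exact ⟨y, hy⟩
          obtain ⟨w, hw⟩ := h7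
          exact Finset.mem_image.2 ⟨(w, v), Finset.mem_filter.2 ⟨hw, h5.1⟩, rfl⟩
        rw [if_pos h6]
        omega
  rw [← Finset.mul_sum, ← h2, Finset.sum_add_distrib, ← h1, Finset.sum_add_distrib] at h3
  have h4 : ∑ v ∈ Vs, (if v ∈ LS then 2 else 0) ≤ 2 * LS.card := by
    rw [← Finset.sum_filter, Finset.sum_const, smul_eq_mul, mul_comm]
    refine Nat.mul_le_mul_left _ (Finset.card_le_card fun v hv => (Finset.mem_filter.1 hv).2)
  have h5 : ∑ v ∈ Vs, (if v ∈ R then 3 else 0) ≤ 3 * R.card := by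
    rw [← Finset.sum_filter, Finset.sum_const, smul_eq_mul, mul_comm]
    refine Nat.mul_le_mul_left _ (Finset.card_le_card fun v hv => (Finset.mem_filter.1 hv).2)
  omega

/-- The leaves of a minimal network are in the sets `A i`. -/
theorem min_leaf [Fintype ι] [Nonempty ι] (F : Fam c L A K m) (h : PreNet L E ρ)
    (hs : Sat c A K E ρ)
    (hmin : ∀ E' ρ', PreNet L E' ρ' → Sat c A K E' ρ' → E.card ≤ E'.card)
    {v : V} (hL : L v) (hv : Vt E v) : ∃ i, v ∈ A i := by
  classical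
  obtain ⟨s, q, P, w⟩ := exists_wit F h hs
  have hcov := cover F h hs hmin w
  obtain ⟨u, huv⟩ : ∃ u, (u, v) ∈ E := by
    obtain ⟨y, hy | hy⟩ := hv
    · exact absurd hL (h.leafout _ _ hy)
    · exact ⟨y, hy⟩
  rw [← hcov] at huv
  obtain ⟨⟨i, o⟩, ho, he⟩ := Finset.mem_biUnion.1 huv
  have hleaf : ∀ x ∈ A i, ∀ y, (x, y) ∉ E := fun x hx y hxy =>
    h.leafout x y hxy (F.AL i x hx)
  have hX : CR (PU E (s i) (A i)) (s i) (A i) := cr_PU h.acyc (w.lsa i) (F.ne i) (hs i).1 hleaf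
  have hq : CR (q i).2 (q i).1 (A i) := hX.steps (w.rs i)
  have hqA : (q i).1 ∉ A i := fam_root_notMem F (w.k i)
  have hstart : ∀ e ∈ (q i).2, ¬ L (st (q i) (s i) e) := by
    intro e he
    have h1 := w.p2 i e he
    rcases h1.cases with h2 | ⟨v, hv, _⟩
    · exact h.leafout _ _ (PU_subset _ _ _ ((w.p1 i e he).sub h2))
    · exact h.leafout _ _ (PU_subset _ _ _ ((w.p1 i e he).sub hv))
  refine ⟨i, ?_⟩
  cases o with
  | none =>
    exfalso
    rcases (w.p0 i).outt u v he with h1 | ⟨z, hz⟩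
    · obtain ⟨b, _, hb⟩ := hq.root_out hqA (q i).1
      have h2 := hstart _ hb
      simp only [st, if_pos] at h2
      rw [← h1] at h2
      exact h2 hL
    · exact h.leafout _ _ ((w.p0 i).sub hz) hL
  | some e =>
    have hab := mem_Jx.1 ho e rfl
    rcases (w.p1 i e hab).outt u v he with h1 | ⟨z, hz⟩
    · by_contra hvA
      subst h1
      obtain ⟨z, hz⟩ := hq.has_out (x := e.2) ⟨e.1, Or.inr hab⟩ hvA
      have h2 := hstart _ hz
      have h3 : e.2 ≠ (q i).1 := fun h' => hq.rootin e.1 (h' ▸ hab)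
      simp only [st, if_neg h3] at h2
      exact h2 hL
    · exact absurd hL (h.leafout _ _ (PU_subset _ _ _ ((w.p1 i e hab).sub hz)))

theorem card_A (F : Fam c L A K m) (hs : Sat c A K E ρ) (h : PreNet L E ρ) (i : ι) :
    (A i).card ≤ m i := by
  classical
  obtain ⟨hr, s, q, h1, h2, h3⟩ := hs i
  have hleaf : ∀ x ∈ A i, ∀ y, (x, y) ∉ E := fun x hx y hxy =>
    h.leafout x y hxy (F.AL i x hx)
  have hX : CR (PU E s (A i)) s (A i) := cr_PU h.acyc h1 (F.ne i) hr hleaf
  have hq : CR q.2 q.1 (A i) := hX.steps h2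
  have hqA : q.1 ∉ A i := fam_root_notMem F h3
  have h4 : A i ⊆ q.2.image Prod.snd := by
    intro a ha
    have hne : a ≠ q.1 := by rintro rfl; exact hqA ha
    obtain ⟨y, hy⟩ := hq.has_in (hq.vtA hqA ha) hne
    exact Finset.mem_image.2 ⟨_, hy, rfl⟩
  exact ((Finset.card_le_card h4).trans Finset.card_image_le).trans (F.card i q h3)

/-- **Small models.** -/
theorem small_model [Fintype ι] [Nonempty ι] (F : Fam c L A K m) (h0 : PreNet L E ρ)
    (hs0 : Sat c A K E ρ) : ∃ E' ρ', PreNet L E' ρ' ∧ Sat c A K E' ρ' ∧ outdeg E' ρ' = 2 ∧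
      (∀ v, ¬ L v → v ≠ ρ' → Vt E' v →
        (indeg E' v = 1 ∧ outdeg E' v = 2) ∨ (indeg E' v = 2 ∧ outdeg E' v = 1)) ∧
      (∀ v, L v → Vt E' v → ∃ i, v ∈ A i) ∧
      (c → ∀ x y, (ρ', x) ∈ E' → (ρ', y) ∈ E' → (x, y) ∉ E') ∧
      E'.card ≤ 11 * ∑ i, m i + 6 * (Fintype.card ι * (∑ i, m i + Fintype.card ι)) := by
  classical
  have hex : ∃ n, ∃ E' ρ', PreNet L E' ρ' ∧ Sat c A K E' ρ' ∧ E'.card = n :=
    ⟨_, E, ρ, h0, hs0, rfl⟩
  obtain ⟨E', ρ', h, hs, hcard⟩ := Nat.find_spec hex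
  have hmin : ∀ E'' ρ'', PreNet L E'' ρ'' → Sat c A K E'' ρ'' → E'.card ≤ E''.card := by
    intro E'' ρ'' h1 h2
    rw [hcard]
    exact Nat.find_min' hex ⟨E'', ρ'', h1, h2, rfl⟩
  have hρ := min_root F h hs hmin
  have ht : ∀ a v b, v ≠ ρ' → ¬ Thin E' a v b := fun a v b hv => min_thin F h hs hmin hv
  refine ⟨E', ρ', h, hs, hρ, fun v hL hv hvt => deg_three h ht hL hv hvt,
    fun v hL hv => min_leaf F h hs hmin hL hv,
    fun hc x y hx hy => min_tri F hc h hs hmin hρ hx hy, ?_⟩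
  have h1 := card_TT F h hs hmin
  have h2 := card_ret h hρ ht
  have h3 := card_arcs h ht
  have h4 : ((E'.image Prod.snd).filter L).card ≤ ∑ i, m i := by
    have h5 : (E'.image Prod.snd).filter L ⊆ Finset.univ.biUnion A := by
      intro v hv
      obtain ⟨h6, h7⟩ := Finset.mem_filter.1 hv
      obtain ⟨⟨x, y⟩, he, rfl⟩ := Finset.mem_image.1 h6
      obtain ⟨i, hi⟩ := min_leaf F h hs hmin h7 ⟨x, Or.inr he⟩
      exact Finset.mem_biUnion.2 ⟨i, Finset.mem_univ _, hi⟩
    refine (Finset.card_le_card h5).trans (Finset.card_biUnion_le.trans ?_)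
    exact Finset.sum_le_sum fun i _ => card_A F hs h i
  omega

end

end Pool.Agent.NH85.SD
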