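import Pool.Agent.NH85.SD.Stmt
import Pool.Agent.NH85.SD.Small

/-!
# From compatibility to the general framework
-/

namespace Pool.Agent.NH85.SDN

open Relation SD

/-- `x` is a leaf name. -/
def Lf (x : Vx) : Prop := ∃ i, x = Sum.inl i

/-- The set of leaf names. -/
def im (A : Finset ℕ) : Finset Vx := A.image Sum.inl

theorem mem_im {A : Finset ℕ} {x : Vx} : x ∈ im A ↔ ∃ i ∈ A, x = Sum.inl i := by
  unfold im
  rw [Finset.mem_image]
  exact ⟨fun ⟨i, h1, h2⟩ => ⟨i, h1, h2.symm⟩, fun ⟨i, h1, h2⟩ => ⟨i, h1, h2.symm⟩⟩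

theorem inl_mem_im {A : Finset ℕ} {i : ℕ} : (Sum.inl i : Vx) ∈ im A ↔ i ∈ A := by
  rw [mem_im]
  constructor
  · rintro ⟨j, hj, h⟩
    rw [Sum.inl.inj h]
    exact hj
  · exact fun h => ⟨i, h, rfl⟩

theorem mem_leaves {N : MG} {i : ℕ} : i ∈ leaves N ↔
    ∃ e ∈ N.1 ++ N.2, e.1 = Sum.inl i ∨ e.2 = Sum.inl i := by
  unfold leaves
  simp only [List.mem_toFinset, List.mem_filterMap, List.mem_flatMap]
  constructor
  · rintro ⟨v, ⟨e, he, hv⟩, h⟩
    refine ⟨e, he, ?_⟩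
    cases v with
    | inl j =>
      simp only [Sum.getLeft?_inl, Option.some.injEq] at h
      subst h
      simp only [List.mem_cons, List.not_mem_nil, or_false] at hv
      rcases hv with hv | hv
      · exact Or.inl hv.symm
      · exact Or.inr hv.symm
    | inr j => simp at h
  · rintro ⟨e, he, h⟩
    refine ⟨Sum.inl i, ⟨e, he, ?_⟩, by simp⟩
    rcases h with h | h <;> simp [h]

theorem onAll_iff {E : Dg} {ρ : Vx} {A : Finset ℕ} {v : Vx} :
    OnAll E ρ A v ↔ Dom E ρ (im A) v := by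
  unfold OnAll Dom
  constructor
  · intro h a ha
    obtain ⟨i, hi, rfl⟩ := mem_im.1 ha
    exact h i hi
  · intro h a ha
    exact h _ (inl_mem_im.2 ha)

theorem step_iff {c : Prop} {p q : Vx × Dg} : Step c p q ↔ RS c p q := by
  constructor
  · intro h
    cases h with
    | suppress hv h1 h2 ha hb =>
      exact RS.sup hv ⟨fun x => ⟨fun hx => eq_of_indeg_le_one (le_of_eq h1) hx ha,
        fun hx => hx ▸ ha⟩, fun x => ⟨fun hx => eq_of_outdeg_le_one (le_of_eq h2) hx hb,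
        fun hx => hx ▸ hb⟩⟩
    | root hc h1 h2 hxy hyz => exact RS.root hc ⟨h1, h2, hxy, hyz⟩
  · intro h
    cases h with
    | sup hv h =>
      rename_i ρ E a v b
      refine Step.suppress hv ?_ ?_ h.av h.vb
      · unfold indeg
        rw [Finset.card_eq_one]
        refine ⟨(a, v), ?_⟩
        ext ⟨x, y⟩
        simp only [Finset.mem_filter, Finset.mem_singleton, Prod.mk.injEq]
        constructor
        · rintro ⟨h1, rfl⟩
          exact ⟨(h.hin x).1 h1, rfl⟩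
        · rintro ⟨rfl, rfl⟩
          exact ⟨h.av, rfl⟩
      · unfold outdeg
        rw [Finset.card_eq_one]
        refine ⟨(v, b), ?_⟩
        ext ⟨x, y⟩
        simp only [Finset.mem_filter, Finset.mem_singleton, Prod.mk.injEq]
        constructor
        · rintro ⟨h1, rfl⟩
          exact ⟨rfl, (h.hout y).1 h1⟩
        · rintro ⟨rfl, rfl⟩
          exact ⟨h.vb, rfl⟩
    | root hc h => exact Step.root hc h.hr h.hx h.xy h.yz

theorem steps_iff {c : Prop} {p q : Vx × Dg} : ReflTransGen (Step c) p q ↔ RSs c p q := by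
  have : Step c = RS c := by
    funext p q
    exact propext step_iff
  rw [this]

theorem trimmed_iff {E : Dg} {ρ : Vx} {A : Finset ℕ} {s : Vx} {E₀ : Dg} (hE : Acyc E)
    (hA : A.Nonempty) (hr : ∀ a ∈ im A, Reach E ρ a) :
    Trimmed E ρ A s E₀ ↔ LSA E ρ (im A) s ∧ E₀ = PU E s (im A) := by
  have key : LSA E ρ (im A) s → ∀ x y, (((x, y) ∈ E ∧ Path E ρ x ∧ ∃ a ∈ A, Path E y (Sum.inl a)) ∧
      ∀ v, OnAll E ρ A v → ¬ (x ≠ v ∧ Path E x v)) ↔ (x, y) ∈ PU E s (im A) := by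
    intro hs x y
    obtain ⟨a0, ha0⟩ := hA
    have hρs := (hs.reach_s (inl_mem_im.2 ha0) (hr _ (inl_mem_im.2 ha0))).1
    rw [mem_PU]
    constructor
    · rintro ⟨⟨h1, h2, a, ha, h3⟩, h4⟩
      refine ⟨h1, ?_, _, inl_mem_im.2 ha, h3⟩
      rcases Reach.through s h2 with h5 | h5
      · exact h5.2
      · exfalso
        have h6 : Reach E x (Sum.inl a) := ReflTransGen.head h1 h3
        rcases Reach.through s h6 with h7 | h7
        · exact h4 s (onAll_iff.2 hs.1) ⟨h5.ne_right, h7.1⟩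
        · exact hs.1 _ (inl_mem_im.2 ha) (h5.trans h7)
    · rintro ⟨h1, h2, a, ha, h3⟩
      obtain ⟨i, hi, rfl⟩ := mem_im.1 ha
      refine ⟨⟨h1, ReflTransGen.trans hρs h2, i, hi, h3⟩, ?_⟩
      rintro v hv ⟨h4, h5⟩
      have h6 := hs.2 v (onAll_iff.1 hv)
      have h7 : x = s := hE.antisymm (ReflTransGen.trans h5 h6) h2
      exact h4 (hE.antisymm h5 (ReflTransGen.trans h6 (h7 ▸ ReflTransGen.refl)))
  constructor
  · rintro ⟨h1, h2, h3⟩
    have hs : LSA E ρ (im A) s := ⟨onAll_iff.1 h1, fun v hv => h2 v (onAll_iff.2 hv)⟩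
    refine ⟨hs, ?_⟩
    ext ⟨x, y⟩
    rw [h3, key hs]
  · rintro ⟨hs, rfl⟩
    exact ⟨onAll_iff.2 hs.1, fun v hv => hs.2 v (onAll_iff.1 hv), fun x y => (key hs x y).symm⟩

theorem network_prenet {X : Finset ℕ} {E : Dg} {ρ : Vx} (h : IsNetwork X E ρ) :
    PreNet Lf E ρ := by
  obtain ⟨j, hj⟩ := h.root_name
  have hrin : ∀ x, (x, ρ) ∉ E := by
    intro x hx
    have h1 : 1 ≤ SD.indeg E ρ := indeg_pos hx
    have h2 : SD.indeg E ρ = 0 := h.root_deg.1
    omega
  have hlf : ∀ i, IsVertex E (Sum.inl i) → indeg E (Sum.inl i) = 1 ∧ outdeg E (Sum.inl i) = 0 :=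
    fun i hi => h.leaf_deg i ((h.leaves i).1 hi)
  have hlo : ∀ x y, (x, y) ∈ E → ¬ Lf x := by
    rintro x y hxy ⟨i, rfl⟩
    have h1 : 1 ≤ SD.outdeg E (Sum.inl i) := outdeg_pos hxy
    have h2 : SD.outdeg E (Sum.inl i) = 0 := (hlf i ⟨y, Or.inl hxy⟩).2
    omega
  have hin : ∀ v, IsVertex E v → v ≠ ρ → ¬ Lf v →
      (SD.indeg E v = 1 ∧ SD.outdeg E v = 2) ∨ (SD.indeg E v = 2 ∧ SD.outdeg E v = 1) := by
    intro v hv hvρ hL
    cases v with
    | inl i => exact absurd ⟨i, rfl⟩ hL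
    | inr i => exact h.inner_deg i hv hvρ
  have exin : ∀ v, 1 ≤ SD.indeg E v → ∃ w, (w, v) ∈ E := by
    intro v hv
    obtain ⟨⟨x, y⟩, he⟩ := Finset.card_pos.1 (show 0 < (E.filter (fun e => e.2 = v)).card from hv)
    obtain ⟨h1, rfl⟩ := Finset.mem_filter.1 he
    exact ⟨x, h1⟩
  have exout : ∀ v, 1 ≤ SD.outdeg E v → ∃ w, (v, w) ∈ E := by
    intro v hv
    obtain ⟨⟨x, y⟩, he⟩ := Finset.card_pos.1 (show 0 < (E.filter (fun e => e.1 = v)).card from hv)
    obtain ⟨h1, rfl⟩ := Finset.mem_filter.1 he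
    exact ⟨y, h1⟩
  refine ⟨h.acyclic, hrin, ?_, ?_, h.root_deg.2.le, hlo, ?_, ?_, ?_, ?_⟩
  · rintro ⟨i, hi⟩
    rw [hj] at hi
    simp at hi
  · exact exout ρ (by have : SD.outdeg E ρ = 2 := h.root_deg.2; omega)
  · rintro v ⟨i, rfl⟩
    by_cases hv : IsVertex E (Sum.inl i)
    · exact (hlf i hv).1.le
    · have : SD.indeg E (Sum.inl i) = 0 := by
        unfold SD.indeg
        rw [Finset.card_eq_zero, Finset.filter_eq_empty_iff]
        rintro ⟨x, y⟩ hxy rfl
        exact hv ⟨x, Or.inr hxy⟩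
      omega
  · intro x y hxy hx
    refine exin x ?_
    rcases hin x ⟨y, Or.inl hxy⟩ hx (hlo x y hxy) with h1 | h1 <;> omega
  · intro x y hxy hy
    have hyρ : y ≠ ρ := by rintro rfl; exact hrin _ hxy
    refine exout y ?_
    rcases hin y ⟨x, Or.inr hxy⟩ hyρ hy with h1 | h1 <;> omega
  · intro v hL hvρ
    by_cases hv : IsVertex E v
    · rcases hin v hv hvρ hL with h1 | h1 <;> omega
    · have h1 : SD.indeg E v = 0 := by
        unfold SD.indeg
        rw [Finset.card_eq_zero, Finset.filter_eq_empty_iff]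
        rintro ⟨x, y⟩ hxy rfl
        exact hv ⟨x, Or.inr hxy⟩
      have h2 : SD.outdeg E v = 0 := by
        unfold SD.outdeg
        rw [Finset.card_eq_zero, Finset.filter_eq_empty_iff]
        rintro ⟨x, y⟩ hxy rfl
        exact hv ⟨y, Or.inl hxy⟩
      omega

end Pool.Agent.NH85.SDN
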