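import Pool.Agent.NH85.SD.Bridge

/-!
# The classes of allowed restrictions
-/

namespace Pool.Agent.NH85.SDN

open Relation SD

theorem sd_indeg (E : Dg) (v : Vx) : indeg E v = SD.indeg E v := rfl
theorem sd_outdeg (E : Dg) (v : Vx) : outdeg E v = SD.outdeg E v := rfl

section

variable {σ : Equiv.Perm Vx} {E : Dg} {ρ : Vx}

theorem indeg_mv (σ : Equiv.Perm Vx) (E : Dg) (v : Vx) : indeg (mvE σ E) (σ v) = indeg E v := by
  unfold indeg
  have : (mvE σ E).filter (fun e => e.2 = σ v) =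
      (E.filter (fun e => e.2 = v)).image (Prod.map σ σ) := by
    ext ⟨x, y⟩
    simp only [Finset.mem_filter, Finset.mem_image, mvE, Prod.exists, Prod.map_apply,
      Prod.mk.injEq]
    constructor
    · rintro ⟨⟨a, b, h1, rfl, rfl⟩, h2⟩
      exact ⟨a, b, ⟨h1, σ.injective h2⟩, rfl, rfl⟩
    · rintro ⟨a, b, ⟨h1, h2⟩, rfl, rfl⟩
      exact ⟨⟨a, b, h1, rfl, rfl⟩, by rw [h2]⟩
  rw [this, Finset.card_image_of_injective]
  exact Prod.map_injective.2 ⟨σ.injective, σ.injective⟩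

theorem outdeg_mv (σ : Equiv.Perm Vx) (E : Dg) (v : Vx) : outdeg (mvE σ E) (σ v) = outdeg E v := by
  unfold outdeg
  have : (mvE σ E).filter (fun e => e.1 = σ v) =
      (E.filter (fun e => e.1 = v)).image (Prod.map σ σ) := by
    ext ⟨x, y⟩
    simp only [Finset.mem_filter, Finset.mem_image, mvE, Prod.exists, Prod.map_apply,
      Prod.mk.injEq]
    constructor
    · rintro ⟨⟨a, b, h1, rfl, rfl⟩, h2⟩
      exact ⟨a, b, ⟨h1, σ.injective h2⟩, rfl, rfl⟩
    · rintro ⟨a, b, ⟨h1, h2⟩, rfl, rfl⟩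
      exact ⟨⟨a, b, h1, rfl, rfl⟩, by rw [h2]⟩
  rw [this, Finset.card_image_of_injective]
  exact Prod.map_injective.2 ⟨σ.injective, σ.injective⟩

theorem mem_mv {x y : Vx} : (σ x, σ y) ∈ mvE σ E ↔ (x, y) ∈ E := mem_mvE'

theorem vertex_mv {v : Vx} : IsVertex (mvE σ E) (σ v) ↔ IsVertex E v := by
  constructor
  · rintro ⟨w, hw⟩
    obtain ⟨w, rfl⟩ := σ.surjective w
    rw [mem_mv, mem_mv] at hw
    exact ⟨w, hw⟩
  · rintro ⟨w, hw⟩
    exact ⟨σ w, by rwa [mem_mv, mem_mv]⟩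

theorem lf_mv (hσ : ∀ x, Lf x → σ x = x) {x : Vx} : Lf (σ x) ↔ Lf x := by
  constructor
  · intro h
    have h1 := hσ _ h
    rw [σ.injective h1] at h
    exact h
  · intro h
    rwa [hσ x h]

theorem lf_iff {x : Vx} : ¬ Lf x ↔ ∃ j, x = Sum.inr j := by
  cases x with
  | inl i => simp [Lf]
  | inr j => simp [Lf]

theorem network_mv {X : Finset ℕ} (hσ : ∀ x, Lf x → σ x = x) (h : IsNetwork X E ρ) :
    IsNetwork X (mvE σ E) (σ ρ) := by
  have hfix : ∀ i, σ (Sum.inl i) = Sum.inl i := fun i => hσ _ ⟨i, rfl⟩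
  refine ⟨fun x y hxy hp => acyc_mvE (σ := σ) (E := E) h.acyclic x y hxy hp, ?_, ?_, ?_, ?_, ?_⟩
  · exact lf_iff.1 fun h' => lf_iff.2 h.root_name ((lf_mv hσ).1 h')
  · rw [indeg_mv, outdeg_mv]
    exact h.root_deg
  · intro i
    rw [← h.leaves i, ← hfix i, vertex_mv, hfix]
  · intro i hi
    rw [← hfix i, indeg_mv, outdeg_mv]
    exact h.leaf_deg i hi
  · intro j hj hne
    obtain ⟨v, hv⟩ := σ.surjective (Sum.inr j)
    have hvL : ¬ Lf v := by
      rw [← lf_mv hσ, hv]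
      exact lf_iff.2 ⟨j, rfl⟩
    rw [← hv] at hj hne ⊢
    rw [vertex_mv] at hj
    rw [indeg_mv, outdeg_mv]
    obtain ⟨k, rfl⟩ := lf_iff.1 hvL
    exact h.inner_deg k hj fun h' => hne (by rw [h'])

theorem tri_mv (h : ¬ RootTriangle E ρ) : ¬ RootTriangle (mvE σ E) (σ ρ) := by
  rintro ⟨x, y, h1, h2, h3⟩
  obtain ⟨x, rfl⟩ := σ.surjective x
  obtain ⟨y, rfl⟩ := σ.surjective y
  rw [mem_mv] at h1 h2 h3
  exact h ⟨x, y, h1, h2, h3⟩

theorem dir_mv {x y : Vx} : DirEdge (mvE σ E) (σ ρ) (σ x) (σ y) ↔ DirEdge E ρ x y := by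
  unfold DirEdge
  rw [indeg_mv, mem_mv, mem_mv, mem_mv]
  simp only [ne_eq, EmbeddingLike.apply_eq_iff_eq]

theorem und_mv {x y : Vx} : UndEdge (mvE σ E) (σ ρ) (σ x) (σ y) ↔ UndEdge E ρ x y := by
  unfold UndEdge
  rw [indeg_mv, indeg_mv, mem_mv, mem_mv, mem_mv, mem_mv]
  simp only [ne_eq, EmbeddingLike.apply_eq_iff_eq]

theorem topology_mv {N : MG} (hσ : ∀ x, Lf x → σ x = x) (h : IsTopology N E ρ) :
    IsTopology N (mvE σ E) (σ ρ) := by
  obtain ⟨f, h1, h2, h3, h4⟩ := h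
  refine ⟨fun x => f (σ.symm x), ?_, ?_, ?_, ?_⟩
  · intro i
    have : σ.symm (Sum.inl i) = Sum.inl i := by
      rw [Equiv.symm_apply_eq]
      exact (hσ _ ⟨i, rfl⟩).symm
    simp only [this]
    exact h1 i
  · intro x y hx hy hxρ hyρ hf
    obtain ⟨x, rfl⟩ := σ.surjective x
    obtain ⟨y, rfl⟩ := σ.surjective y
    rw [vertex_mv] at hx hy
    simp only [Equiv.symm_apply_apply] at hf
    rw [h2 x y hx hy (fun h => hxρ (by rw [h])) (fun h => hyρ (by rw [h])) hf]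
  · intro u v
    rw [h3]
    constructor
    · rintro ⟨x, y, hd, rfl, rfl⟩
      exact ⟨σ x, σ y, dir_mv.2 hd, by simp, by simp⟩
    · rintro ⟨x, y, hd, rfl, rfl⟩
      obtain ⟨x, rfl⟩ := σ.surjective x
      obtain ⟨y, rfl⟩ := σ.surjective y
      exact ⟨x, y, dir_mv.1 hd, by simp, by simp⟩
  · intro u v
    rw [h4]
    constructor
    · rintro ⟨x, y, hd, rfl, rfl⟩
      exact ⟨σ x, σ y, und_mv.2 hd, by simp, by simp⟩
    · rintro ⟨x, y, hd, rfl, rfl⟩
      obtain ⟨x, rfl⟩ := σ.surjective x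
      obtain ⟨y, rfl⟩ := σ.surjective y
      exact ⟨x, y, und_mv.1 hd, by simp, by simp⟩

end

/-- The allowed restrictions for the mixed graph `N`. -/
def KN (c : Prop) (N : MG) (q : Vx × Dg) : Prop :=
  IsNetwork (leaves N) q.2 q.1 ∧ (c → ¬ RootTriangle q.2 q.1) ∧ IsTopology N q.2 q.1

theorem card_le_of_topology {X : Finset ℕ} {N : MG} {E : Dg} {ρ : Vx} (h : IsNetwork X E ρ)
    (ht : IsTopology N E ρ) : E.card ≤ 2 + N.1.length + 2 * N.2.length := by
  obtain ⟨f, h1, h2, h3, h4⟩ := ht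
  have e1 : E.card = (E.filter (fun e => e.1 = ρ)).card + (E.filter (fun e => e.1 ≠ ρ)).card :=
    (Finset.card_filter_add_card_filter_not (s := E) (fun e => e.1 = ρ)).symm
  have e2 : (E.filter (fun e => e.1 = ρ)).card = 2 := h.root_deg.2
  have e3 : (E.filter (fun e => e.1 ≠ ρ)).card ≤
      (N.1.toFinset ∪ (N.2.toFinset ∪ (N.2.map Prod.swap).toFinset)).card := by
    refine Finset.card_le_card_of_injOn (Prod.map f f) ?_ ?_
    · rintro ⟨x, y⟩ he
      obtain ⟨h5, h6⟩ := Finset.mem_filter.1 he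
      simp only at h6
      simp only [Prod.map_apply, Finset.coe_union, Set.mem_union, Finset.mem_coe,
        List.mem_toFinset, List.mem_map, Prod.exists, Prod.swap_prod_mk, Prod.mk.injEq]
      by_cases h7 : indeg E y = 2
      · left
        rw [h3]
        exact ⟨x, y, ⟨h7, Or.inl ⟨h5, h6⟩⟩, rfl, rfl⟩
      · right
        rcases (h4 (f x) (f y)).2 ⟨x, y, Or.inl ⟨h5, h6, h7⟩, rfl, rfl⟩ with h8 | h8
        · exact Or.inl h8
        · exact Or.inr ⟨_, _, h8, rfl, rfl⟩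
    · rintro ⟨x, y⟩ he ⟨x', y'⟩ he' heq
      obtain ⟨h5, h6⟩ := Finset.mem_filter.1 he
      obtain ⟨h5', h6'⟩ := Finset.mem_filter.1 he'
      simp only [Prod.map_apply, Prod.mk.injEq] at heq h6 h6'
      have hne : ∀ {x y : Vx}, (x, y) ∈ E → y ≠ ρ := by
        rintro x y hxy rfl
        have h8 : 1 ≤ SD.indeg E y := indeg_pos hxy
        have h9 : SD.indeg E y = 0 := h.root_deg.1
        omega
      rw [h2 x x' ⟨y, Or.inl h5⟩ ⟨y', Or.inl h5'⟩ h6 h6' heq.1,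
        h2 y y' ⟨x, Or.inr h5⟩ ⟨x', Or.inr h5'⟩ (hne h5) (hne h5') heq.2]
  have e4 := Finset.card_union_le N.1.toFinset (N.2.toFinset ∪ (N.2.map Prod.swap).toFinset)
  have e5 := Finset.card_union_le N.2.toFinset (N.2.map Prod.swap).toFinset
  have e6 := List.toFinset_card_le N.1
  have e7 := List.toFinset_card_le N.2
  have e8 := List.toFinset_card_le (N.2.map Prod.swap)
  rw [List.length_map] at e8
  omega

theorem not_thin {X : Finset ℕ} {E : Dg} {ρ : Vx} (h : IsNetwork X E ρ) {a v b : Vx}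
    (hv : v ≠ ρ) : ¬ Thin E a v b := by
  intro ht
  have hp := network_prenet h
  have h1 : SD.indeg E v ≤ 1 := by
    unfold SD.indeg
    rw [Finset.card_le_one]
    rintro ⟨x, y⟩ he ⟨x', y'⟩ he'
    obtain ⟨h5, h6⟩ := Finset.mem_filter.1 he
    obtain ⟨h5', h6'⟩ := Finset.mem_filter.1 he'
    simp only at h6 h6'
    subst h6 h6'
    rw [(ht.hin x).1 h5, (ht.hin x').1 h5']
  have h2 : SD.outdeg E v ≤ 1 := by
    unfold SD.outdeg
    rw [Finset.card_le_one]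
    rintro ⟨x, y⟩ he ⟨x', y'⟩ he'
    obtain ⟨h5, h6⟩ := Finset.mem_filter.1 he
    obtain ⟨h5', h6'⟩ := Finset.mem_filter.1 he'
    simp only at h6 h6'
    subst h6 h6'
    rw [(ht.hout y).1 h5, (ht.hout y').1 h5']
  cases v with
  | inl i => exact hp.leafout _ _ ht.vb ⟨i, rfl⟩
  | inr j =>
    rcases h.inner_deg j ⟨b, Or.inl ht.vb⟩ hv with h3 | h3
    · rw [sd_indeg, sd_outdeg] at h3
      omega
    · rw [sd_indeg, sd_outdeg] at h3
      omega

theorem fam {c : Prop} {ι : Type} {N : ι → MG} (hne : ∀ i, (leaves (N i)).Nonempty) :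
    Fam c Lf (fun i => im (leaves (N i))) (fun i => KN c (N i))
      (fun i => 2 + (N i).1.length + 2 * (N i).2.length) := by
  refine ⟨?_, ?_, ?_, ?_, ?_, ?_, ?_⟩
  · intro i
    obtain ⟨a, ha⟩ := hne i
    exact ⟨_, inl_mem_im.2 ha⟩
  · intro i a ha
    obtain ⟨j, _, hj⟩ := mem_im.1 ha
    exact ⟨j, hj⟩
  · intro i q hq
    exact lf_iff.2 hq.1.root_name
  · intro i q hq a v b hv
    exact not_thin hq.1 hv
  · intro hc i q hq x y h1 h2 h3
    exact hq.2.1 hc ⟨x, y, h1, h2, h3⟩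
  · intro i q σ hq hσ
    exact ⟨network_mv hσ hq.1, fun hc => tri_mv (hq.2.1 hc), topology_mv hσ hq.2.2⟩
  · intro i q hq
    exact card_le_of_topology hq.1 hq.2.2

end Pool.Agent.NH85.SDN
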