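import Pool.Agent.NH85.SD.Norm

/-!
# The checker: reachability and simplification on lists of arcs
-/

namespace Pool.Agent.NH85.SDN

open Relation SD

instance : LawfulBEq Vx where
  eq_of_beq {a b} h := by
    cases a with
    | inl a => cases b with
      | inl b => exact congrArg Sum.inl (eq_of_beq (α := ℕ) h)
      | inr b => exact absurd h (by intro h; cases h)
    | inr a => cases b with
      | inl b => exact absurd h (by intro h; cases h)
      | inr b => exact congrArg Sum.inr (eq_of_beq (α := ℕ) h)
  rfl {a} := by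
    cases a with
    | inl a => exact beq_self_eq_true (α := ℕ) a
    | inr a => exact beq_self_eq_true (α := ℕ) a

/-- Lists of arcs. -/
abbrev Ar : Type := List (Vx × Vx)

/-! ### Sorted lists of arcs -/

/-- A list of arcs in which no arc enters the tail of an earlier arc (or its own tail). -/
def Srt (es : Ar) : Prop :=
  es.Nodup ∧ (∀ e ∈ es, e.1 ≠ e.2) ∧ es.Pairwise (fun e f => f.2 ≠ e.1)

theorem srt_nil : Srt [] := ⟨List.nodup_nil, by simp, List.Pairwise.nil⟩

theorem srt_snoc {es : Ar} {f : Vx × Vx} : Srt (es ++ [f]) ↔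
    Srt es ∧ f.1 ≠ f.2 ∧ f ∉ es ∧ ∀ e ∈ es, f.2 ≠ e.1 := by
  unfold Srt
  rw [List.nodup_append, List.pairwise_append]
  constructor
  · rintro ⟨⟨h1, _, h2⟩, h3, h4, _, h5⟩
    refine ⟨⟨h1, fun e he => h3 e (List.mem_append_left _ he), h4⟩, h3 f (by simp), ?_, ?_⟩
    · intro hf
      exact h2 f hf f (by simp) rfl
    · exact fun e he => h5 e he f (by simp)
  · rintro ⟨⟨h1, h2, h3⟩, h4, h5, h6⟩
    refine ⟨⟨h1, List.nodup_singleton _, ?_⟩, ?_, h3, List.pairwise_singleton _ _, ?_⟩
    · rintro e he f' hf' rfl
      simp only [List.mem_singleton] at hf'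
      exact h5 (hf' ▸ he)
    · intro e he
      rcases List.mem_append.1 he with he | he
      · exact h2 e he
      · simp only [List.mem_singleton] at he
        rw [he]
        exact h4
    · intro e he f' hf'
      simp only [List.mem_singleton] at hf'
      rw [hf']
      exact h6 e he

/-- One step of the test of sortedness. -/
def cstep (st : Ar × Bool) (f : Vx × Vx) : Ar × Bool :=
  (f :: st.1, st.2 && (!decide (f.1 = f.2) && (!decide (f ∈ st.1) &&
    st.1.all (fun e => !decide (f.2 = e.1)))))

/-- The test of sortedness. -/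
def chk (es : Ar) : Bool := (es.foldl cstep ([], true)).2

theorem chk_aux (es : Ar) : (es.foldl cstep ([], true)).1 = es.reverse ∧
    ((es.foldl cstep ([], true)).2 = true ↔ Srt es) := by
  induction es using List.reverseRecOn with
  | nil => exact ⟨rfl, by simp [srt_nil]⟩
  | append_singleton es f ih =>
    obtain ⟨h1, h2⟩ := ih
    rw [List.foldl_append]
    simp only [List.foldl_cons, List.foldl_nil, cstep]
    refine ⟨by rw [h1]; simp, ?_⟩
    rw [srt_snoc, ← h2, h1]
    simp

theorem chk_iff {es : Ar} : chk es = true ↔ Srt es := (chk_aux es).2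

theorem rp_insert {E : Dg} {P : Vx → Prop} {u v : Vx} (huv : u ≠ v) (hv : ∀ w, (v, w) ∉ E)
    {x y : Vx} : RP (insert (u, v) E) P x y ↔ RP E P x y ∨ (y = v ∧ P v ∧ RP E P x u) := by
  constructor
  · intro h
    induction h with
    | refl => exact Or.inl ReflTransGen.refl
    | tail _ hzy ih =>
      rename_i z y
      rcases Finset.mem_insert.1 hzy.1 with h1 | h1
      · simp only [Prod.mk.injEq] at h1
        obtain ⟨rfl, rfl⟩ := h1
        rcases ih with h2 | ⟨h2, _⟩
        · exact Or.inr ⟨rfl, hzy.2, h2⟩
        · exact absurd h2 huv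
      · rcases ih with h2 | ⟨h2, _⟩
        · exact Or.inl (ReflTransGen.tail h2 ⟨h1, hzy.2⟩)
        · rw [h2] at h1
          exact absurd h1 (hv _)
  · rintro (h | ⟨rfl, h1, h2⟩)
    · exact h.mono (fun _ _ h => Finset.mem_insert_of_mem h) fun _ h => h
    · exact ReflTransGen.tail (RP.mono (fun _ _ h => Finset.mem_insert_of_mem h) (fun _ h => h) h2)
        ⟨Finset.mem_insert_self _ _, h1⟩

theorem toFinset_snoc (es : Ar) (f : Vx × Vx) :
    (es ++ [f]).toFinset = insert f es.toFinset := by
  ext e
  simp

theorem srt_acyc {es : Ar} (h : Srt es) : Acyc es.toFinset := by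
  induction es using List.reverseRecOn with
  | nil => intro x y hxy; simp at hxy
  | append_singleton es f ih =>
    obtain ⟨h1, h2, _, h4⟩ := srt_snoc.1 h
    have h5 := ih h1
    obtain ⟨u, v⟩ := f
    simp only at h2 h4
    have hv : ∀ w, (v, w) ∉ es.toFinset := fun w hw => h4 _ (List.mem_toFinset.1 hw) rfl
    rw [toFinset_snoc]
    intro x y hxy hr
    have hr' := (rp_insert (P := fun _ => True) h2 hv).1 hr.toRP
    rcases Finset.mem_insert.1 hxy with h6 | h6
    · simp only [Prod.mk.injEq] at h6
      obtain ⟨rfl, rfl⟩ := h6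
      rcases hr' with h7 | ⟨h7, _⟩
      · rcases ReflTransGen.cases_head h7 with h8 | ⟨z, hz, _⟩
        · exact h2 h8.symm
        · exact hv _ hz.1
      · exact h2 h7
    · rcases hr' with h7 | ⟨h7, _⟩
      · exact h5 x y h6 h7.reach
      · rw [h7] at h6
        exact hv _ h6

/-! ### Reachability -/

/-- One step of the computation of the reachable vertices. -/
def rstep (av : Option Vx) (S : List Vx) (e : Vx × Vx) : List Vx :=
  if e.1 ∈ S ∧ ¬ av = some e.2 then e.2 :: S else S

/-- The vertices reachable from `x` (by paths avoiding `av` after `x`). -/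
def rch (es : Ar) (av : Option Vx) (x : Vx) : List Vx := es.foldl (rstep av) [x]

theorem mem_rch {es : Ar} (h : Srt es) {av : Option Vx} {x y : Vx} :
    y ∈ rch es av x ↔ RP es.toFinset (fun w => ¬ av = some w) x y := by
  induction es using List.reverseRecOn generalizing y with
  | nil =>
    simp only [rch, List.foldl_nil, List.mem_singleton, List.toFinset_nil]
    constructor
    · rintro rfl
      exact ReflTransGen.refl
    · intro h1
      rcases ReflTransGen.cases_head h1 with h2 | ⟨z, hz, _⟩
      · exact h2.symm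
      · simp at hz
  | append_singleton es f ih =>
    obtain ⟨h1, h2, _, h4⟩ := srt_snoc.1 h
    obtain ⟨u, v⟩ := f
    simp only at h2 h4
    have hv : ∀ w, (v, w) ∉ es.toFinset := fun w hw => h4 _ (List.mem_toFinset.1 hw) rfl
    rw [toFinset_snoc, rp_insert h2 hv, ← ih h1, ← ih h1]
    unfold rch
    rw [List.foldl_append]
    simp only [List.foldl_cons, List.foldl_nil, rstep]
    split_ifs with h5
    · rw [List.mem_cons]
      constructor
      · rintro (h6 | h6)
        · exact Or.inr ⟨h6, h5.2, h5.1⟩
        · exact Or.inl h6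
      · rintro (h6 | ⟨h6, _⟩)
        · exact Or.inr h6
        · exact Or.inl h6
    · constructor
      · exact Or.inl
      · rintro (h6 | ⟨h6, h7, h8⟩)
        · exact h6
        · exact absurd ⟨h8, h7⟩ h5

theorem mem_rch_none {es : Ar} (h : Srt es) {x y : Vx} :
    y ∈ rch es none x ↔ Reach es.toFinset x y := by
  rw [mem_rch h]
  constructor
  · exact fun h => h.reach
  · exact fun h => (Reach.toRP h).mono (fun _ _ h => h) fun _ _ => by simp

theorem mem_rch_some {es : Ar} (h : Srt es) {v x y : Vx} :
    (x ≠ v ∧ y ∈ rch es (some v) x) ↔ AvR es.toFinset v x y := by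
  unfold AvR
  rw [mem_rch h]
  have : (fun w => ¬ (some v = some w)) = fun w : Vx => w ≠ v := by
    funext w
    simp only [Option.some.injEq, ne_eq, eq_comm]
  rw [this]

/-! ### Simplification -/

/-- Suppression. -/
def supL (l : Ar) (a v b : Vx) : Ar :=
  if (a, b) ∈ l.filter (fun e => !decide (e.1 = v) && !decide (e.2 = v)) then
    l.filter (fun e => !decide (e.1 = v) && !decide (e.2 = v))
  else (a, b) :: l.filter (fun e => !decide (e.1 = v) && !decide (e.2 = v))

/-- The test of thinness. -/
def thinL (l : Ar) (a v b : Vx) : Bool :=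
  decide ((a, v) ∈ l) && (decide ((v, b) ∈ l) && l.all (fun e =>
    (!decide (e.2 = v) || decide (e.1 = a)) && (!decide (e.1 = v) || decide (e.2 = b))))

/-- The test for a root triangle. -/
def triL (l : Ar) (ρ x y z : Vx) : Bool :=
  !decide (x = y) && (!decide (y = z) && (decide ((ρ, x) ∈ l) && (decide ((ρ, y) ∈ l) &&
    (decide ((x, y) ∈ l) && (decide ((x, z) ∈ l) && l.all (fun e =>
    (!decide (e.1 = ρ) || (decide (e.2 = x) || decide (e.2 = y))) &&
    (!decide (e.1 = x) || (decide (e.2 = y) || decide (e.2 = z)))))))))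

theorem thinL_iff {l : Ar} {a v b : Vx} : thinL l a v b = true ↔ Thin l.toFinset a v b := by
  simp only [thinL, Bool.and_eq_true, decide_eq_true_eq, List.all_eq_true, Bool.or_eq_true,
    Bool.not_eq_true', decide_eq_false_iff_not]
  constructor
  · rintro ⟨h1, h2, h3⟩
    refine ⟨fun x => ?_, fun y => ?_⟩
    · rw [List.mem_toFinset]
      constructor
      · intro h4
        exact ((h3 _ h4).1).resolve_left fun h => h rfl
      · rintro rfl
        exact h1
    · rw [List.mem_toFinset]
      constructor
      · intro h4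
        exact ((h3 _ h4).2).resolve_left fun h => h rfl
      · rintro rfl
        exact h2
  · intro h
    refine ⟨List.mem_toFinset.1 h.av, List.mem_toFinset.1 h.vb, ?_⟩
    rintro ⟨x, y⟩ he
    constructor
    · by_cases hy : y = v
      · subst hy
        exact Or.inr ((h.hin x).1 (List.mem_toFinset.2 he))
      · exact Or.inl hy
    · by_cases hx : x = v
      · subst hx
        exact Or.inr ((h.hout y).1 (List.mem_toFinset.2 he))
      · exact Or.inl hx

theorem triL_iff {l : Ar} {ρ x y z : Vx} : triL l ρ x y z = true ↔ Tri l.toFinset ρ x y z := by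
  simp only [triL, Bool.and_eq_true, decide_eq_true_eq, List.all_eq_true, Bool.or_eq_true,
    Bool.not_eq_true', decide_eq_false_iff_not]
  constructor
  · rintro ⟨h1, h2, h3, h4, h5, h6, h7⟩
    refine ⟨fun w => ?_, fun w => ?_, h1, h2⟩
    · rw [List.mem_toFinset]
      constructor
      · intro h8
        exact ((h7 _ h8).1).resolve_left fun h => h rfl
      · rintro (rfl | rfl)
        · exact h3
        · exact h4
    · rw [List.mem_toFinset]
      constructor
      · intro h8
        exact ((h7 _ h8).2).resolve_left fun h => h rfl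
      · rintro (rfl | rfl)
        · exact h5
        · exact h6
  · intro h
    refine ⟨h.xy, h.yz, List.mem_toFinset.1 h.ρx, List.mem_toFinset.1 h.ρy,
      List.mem_toFinset.1 h.exy, List.mem_toFinset.1 h.exz, ?_⟩
    rintro ⟨u, w⟩ he
    constructor
    · by_cases hu : u = ρ
      · subst hu
        exact Or.inr ((h.hr w).1 (List.mem_toFinset.2 he))
      · exact Or.inl hu
    · by_cases hu : u = x
      · subst hu
        exact Or.inr ((h.hx w).1 (List.mem_toFinset.2 he))
      · exact Or.inl hu

theorem supL_toFinset {l : Ar} {a v b : Vx} (h : Thin l.toFinset a v b) :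
    (supL l a v b).toFinset = sup l.toFinset a v b := by
  ext ⟨x, y⟩
  rw [mem_sup h, List.mem_toFinset]
  unfold supL
  split_ifs with h1
  · simp only [List.mem_filter, Bool.and_eq_true, Bool.not_eq_true', decide_eq_false_iff_not]
      at h1 ⊢
    rw [List.mem_toFinset]
    constructor
    · rintro ⟨h2, h3, h4⟩
      exact Or.inr ⟨h2, h3, h4⟩
    · rintro (⟨rfl, rfl⟩ | ⟨h2, h3, h4⟩)
      · exact h1
      · exact ⟨h2, h3, h4⟩
  · simp only [List.mem_cons, List.mem_filter, Bool.and_eq_true, Bool.not_eq_true',
      decide_eq_false_iff_not, List.mem_toFinset, Prod.mk.injEq, ne_eq]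

theorem supL_nodup {l : Ar} {a v b : Vx} (h : l.Nodup) : (supL l a v b).Nodup := by
  unfold supL
  split_ifs with h1
  · exact h.filter _
  · exact List.nodup_cons.2 ⟨h1, h.filter _⟩

/-- Simplification moves: `(false, a, v, b)` is the suppression of `v`, and `(true, x, y, z)` is
the deletion of the root. -/
abbrev Mv : Type := Bool × Vx × Vx × Vx

/-- One simplification step on lists. -/
def mstep (c : Bool) (st : Option (Vx × Ar)) (m : Mv) : Option (Vx × Ar) :=
  st.elim none (fun p =>
    bif m.1 then
      (bif c && triL p.2 p.1 m.2.1 m.2.2.1 m.2.2.2 then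
        some (m.2.1, p.2.filter (fun e => !decide (e.1 = p.1))) else none)
    else
      (bif !decide (m.2.2.1 = p.1) && thinL p.2 m.2.1 m.2.2.1 m.2.2.2 then
        some (p.1, supL p.2 m.2.1 m.2.2.1 m.2.2.2) else none))

theorem mstep_none (c : Bool) (ms : List Mv) : ms.foldl (mstep c) none = none := by
  induction ms with
  | nil => rfl
  | cons m ms ih => exact ih

theorem mstep_some {c : Bool} {ρ : Vx} {l : Ar} {m : Mv} {q : Vx × Ar} (hl : l.Nodup)
    (h : mstep c (some (ρ, l)) m = some q) :
    RS (c = true) (ρ, l.toFinset) (q.1, q.2.toFinset) ∧ q.2.Nodup := by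
  obtain ⟨b, x, y, z⟩ := m
  cases b with
  | true =>
    simp only [mstep, Option.elim_some, cond_true] at h
    cases hc : (c && triL l ρ x y z) with
    | false => rw [hc] at h; simp at h
    | true =>
      rw [hc] at h
      simp only [cond_true, Option.some.injEq] at h
      rw [Bool.and_eq_true] at hc
      subst h
      have h1 := triL_iff.1 hc.2
      refine ⟨?_, hl.filter _⟩
      have h2 : (l.filter (fun e => !decide (e.1 = ρ))).toFinset = cut l.toFinset ρ := by
        ext ⟨u, w⟩
        rw [mem_cut]
        simp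
      simp only
      rw [h2]
      exact RS.root hc.1 h1
  | false =>
    simp only [mstep, Option.elim_some, cond_false] at h
    cases hc : (!decide (y = ρ) && thinL l x y z) with
    | false => rw [hc] at h; simp at h
    | true =>
      rw [hc] at h
      simp only [cond_true, Option.some.injEq] at h
      rw [Bool.and_eq_true] at hc
      subst h
      have h1 := thinL_iff.1 hc.2
      have h2 : y ≠ ρ := by simpa using hc.1
      refine ⟨?_, supL_nodup hl⟩
      simp only
      rw [supL_toFinset h1]
      exact RS.sup h2 h1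

theorem moves_sound {c : Bool} {ms : List Mv} {ρ : Vx} {l : Ar} {q : Vx × Ar} (hl : l.Nodup)
    (h : ms.foldl (mstep c) (some (ρ, l)) = some q) :
    RSs (c = true) (ρ, l.toFinset) (q.1, q.2.toFinset) ∧ q.2.Nodup := by
  induction ms generalizing ρ l with
  | nil =>
    simp only [List.foldl_nil, Option.some.injEq] at h
    subst h
    exact ⟨ReflTransGen.refl, hl⟩
  | cons m ms ih =>
    rw [List.foldl_cons] at h
    cases h1 : mstep c (some (ρ, l)) m with
    | none => rw [h1, mstep_none] at h; simp at h
    | some p =>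
      obtain ⟨ρ1, l1⟩ := p
      rw [h1] at h
      obtain ⟨h2, h3⟩ := mstep_some hl h1
      obtain ⟨h4, h5⟩ := ih h3 h
      exact ⟨ReflTransGen.head h2 h4, h5⟩

theorem moves_complete {c : Bool} {p q : Vx × Dg} (h : RSs (c = true) p q) {A : Finset Vx}
    (hp : CR p.2 p.1 A) {l : Ar} (hl : l.Nodup) (hlp : l.toFinset = p.2) :
    ∃ (ms : List Mv) (l' : Ar), ms.foldl (mstep c) (some (p.1, l)) = some (q.1, l') ∧
      l'.Nodup ∧ l'.toFinset = q.2 ∧ ms.length ≤ p.2.card ∧
      ∀ m ∈ ms, Vt p.2 m.2.1 ∧ Vt p.2 m.2.2.1 ∧ Vt p.2 m.2.2.2 := by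
  induction h using ReflTransGen.head_induction_on generalizing l with
  | refl => exact ⟨[], l, rfl, hl, hlp, by simp, by simp⟩
  | head h1 h2 ih =>
    rename_i p p1
    have hp1 := hp.step h1
    have hv : ∀ x, Vt p1.2 x → Vt p.2 x := fun x hx => h1.vt hp hx
    have hcd := h1.card hp
    cases h1 with
    | sup hvρ ht =>
      rename_i ρ E a v b
      simp only at hlp
      subst hlp
      obtain ⟨ms, l', g1, g2, g3, g4, g5⟩ := ih hp1 (l := supL l a v b) (supL_nodup hl)
        (supL_toFinset ht)
      refine ⟨(false, a, v, b) :: ms, l', ?_, g2, g3, ?_, ?_⟩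
      · rw [List.foldl_cons]
        have : mstep c (some (ρ, l)) (false, a, v, b) = some (ρ, supL l a v b) := by
          simp only [mstep, Option.elim_some, cond_false]
          rw [thinL_iff.2 ht]
          simp [hvρ]
        rw [this]
        exact g1
      · rw [List.length_cons]
        omega
      · intro m hm
        rcases List.mem_cons.1 hm with rfl | hm
        · exact ⟨⟨v, Or.inl ht.av⟩, ⟨b, Or.inl ht.vb⟩, ⟨v, Or.inr ht.vb⟩⟩
        · obtain ⟨g6, g7, g8⟩ := g5 m hm
          exact ⟨hv _ g6, hv _ g7, hv _ g8⟩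
    | root hc ht =>
      rename_i ρ E x y z
      simp only at hlp
      subst hlp
      have h2 : (l.filter (fun e => !decide (e.1 = ρ))).toFinset = cut l.toFinset ρ := by
        ext ⟨u, w⟩
        rw [mem_cut]
        simp
      obtain ⟨ms, l', g1, g2, g3, g4, g5⟩ := ih hp1
        (l := l.filter (fun e => !decide (e.1 = ρ))) (hl.filter _) h2
      refine ⟨(true, x, y, z) :: ms, l', ?_, g2, g3, ?_, ?_⟩
      · rw [List.foldl_cons]
        have : mstep c (some (ρ, l)) (true, x, y, z) =
            some (x, l.filter (fun e => !decide (e.1 = ρ))) := by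
          simp only [mstep, Option.elim_some, cond_true]
          rw [triL_iff.2 ht, hc]
          simp
        rw [this]
        exact g1
      · rw [List.length_cons]
        omega
      · intro m hm
        rcases List.mem_cons.1 hm with rfl | hm
        · exact ⟨⟨ρ, Or.inr ht.ρx⟩, ⟨ρ, Or.inr ht.ρy⟩, ⟨x, Or.inr ht.exz⟩⟩
        · obtain ⟨g6, g7, g8⟩ := g5 m hm
          exact ⟨hv _ g6, hv _ g7, hv _ g8⟩

end Pool.Agent.NH85.SDN
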