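import Pool.Agent.NH85.SD.Chk

/-!
# The checker: networks and topologies
-/

namespace Pool.Agent.NH85.SDN

open Relation SD

/-- the list has exactly one element -/
def len1 {β : Type} (l : List β) : Bool := !l.isEmpty && l.tail.isEmpty

/-- the list has exactly two elements -/
def len2 {β : Type} (l : List β) : Bool := !l.tail.isEmpty && l.tail.tail.isEmpty

theorem len1_iff {β : Type} {l : List β} : len1 l = true ↔ l.length = 1 := by
  rcases l with _ | ⟨a, _ | ⟨b, l⟩⟩ <;> simp [len1]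

theorem len2_iff {β : Type} {l : List β} : len2 l = true ↔ l.length = 2 := by
  rcases l with _ | ⟨a, _ | ⟨b, _ | ⟨c, l⟩⟩⟩ <;> simp [len2]

/-- the arcs entering `v` -/
def insL (l : Ar) (v : Vx) : Ar := l.filter (fun e => decide (e.2 = v))

/-- the arcs leaving `v` -/
def outsL (l : Ar) (v : Vx) : Ar := l.filter (fun e => decide (e.1 = v))

theorem insL_length {l : Ar} (hl : l.Nodup) (v : Vx) :
    (insL l v).length = indeg l.toFinset v := by
  unfold insL indeg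
  rw [← List.toFinset_card_of_nodup (hl.filter _)]
  congr 1
  ext e
  simp

theorem outsL_length {l : Ar} (hl : l.Nodup) (v : Vx) :
    (outsL l v).length = outdeg l.toFinset v := by
  unfold outsL outdeg
  rw [← List.toFinset_card_of_nodup (hl.filter _)]
  congr 1
  ext e
  simp

/-- the vertex is a leaf name -/
def isLb (v : Vx) : Bool := Sum.elim (fun _ => true) (fun _ => false) v

theorem isLb_iff {v : Vx} : isLb v = true ↔ Lf v := by
  cases v with
  | inl i => simp [isLb, Lf]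
  | inr j => simp [isLb, Lf]

@[simp] theorem isLb_inl (i : ℕ) : isLb (Sum.inl i) = true := rfl
@[simp] theorem isLb_inr (i : ℕ) : isLb (Sum.inr i) = false := rfl

/-- the end points of the arcs -/
def verts (l : Ar) : List Vx := l.flatMap (fun e => [e.1, e.2])

theorem mem_verts {l : Ar} {v : Vx} : v ∈ verts l ↔ IsVertex l.toFinset v := by
  unfold verts IsVertex
  simp only [List.mem_flatMap, List.mem_cons, List.not_mem_nil, or_false, Prod.exists,
    List.mem_toFinset]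
  constructor
  · rintro ⟨x, y, h, rfl | rfl⟩
    · exact ⟨y, Or.inl h⟩
    · exact ⟨x, Or.inr h⟩
  · rintro ⟨w, h | h⟩
    · exact ⟨v, w, h, Or.inl rfl⟩
    · exact ⟨w, v, h, Or.inr rfl⟩

theorem mem_verts' {l : Ar} {v : Vx} : v ∈ verts l ↔ ∃ e ∈ l, e.1 = v ∨ e.2 = v := by
  unfold verts
  simp only [List.mem_flatMap, List.mem_cons, List.not_mem_nil, or_false]
  constructor
  · rintro ⟨e, h, rfl | rfl⟩
    · exact ⟨e, h, Or.inl rfl⟩
    · exact ⟨e, h, Or.inr rfl⟩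
  · rintro ⟨e, h, rfl | rfl⟩
    · exact ⟨e, h, Or.inl rfl⟩
    · exact ⟨e, h, Or.inr rfl⟩

/-- The test of the degrees of a network. -/
def netOK (l : Ar) (r : Vx) : Bool :=
  !isLb r && ((insL l r).isEmpty && (len2 (outsL l r) &&
    (verts l).all (fun v => bif isLb v then len1 (insL l v) && (outsL l v).isEmpty else
      (decide (v = r) || ((len1 (insL l v) && len2 (outsL l v)) ||
        (len2 (insL l v) && len1 (outsL l v)))))))

theorem isEmpty_iff_length {β : Type} {l : List β} : l.isEmpty = true ↔ l.length = 0 := by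
  rw [List.isEmpty_iff, List.length_eq_zero_iff]

theorem netOK_iff {l : Ar} {r : Vx} (hl : l.Nodup) (hac : Acyc l.toFinset) {X : Finset ℕ}
    (hX : ∀ i, IsVertex l.toFinset (Sum.inl i) ↔ i ∈ X) :
    netOK l r = true ↔ IsNetwork X l.toFinset r := by
  unfold netOK
  simp only [Bool.and_eq_true, Bool.not_eq_true', isEmpty_iff_length, len2_iff, insL_length hl,
    outsL_length hl, List.all_eq_true]
  constructor
  · rintro ⟨h1, h2, h3, h4⟩
    refine ⟨hac, ?_, ⟨h2, h3⟩, hX, ?_, ?_⟩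
    · rw [← lf_iff, ← isLb_iff, h1]
      simp
    · intro i hi
      have h5 := h4 _ (mem_verts.2 ((hX i).2 hi))
      simp only [isLb_inl, cond_true, Bool.and_eq_true, len1_iff, isEmpty_iff_length,
        insL_length hl, outsL_length hl] at h5
      exact h5
    · intro j hj hne
      have h5 := h4 _ (mem_verts.2 hj)
      simp only [isLb_inr, cond_false, Bool.or_eq_true, decide_eq_true_eq, Bool.and_eq_true,
        len1_iff, len2_iff, insL_length hl, outsL_length hl] at h5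
      exact h5.resolve_left hne
  · intro h
    refine ⟨?_, h.root_deg.1, h.root_deg.2, ?_⟩
    · obtain ⟨j, hj⟩ := h.root_name
      rw [hj]
      rfl
    · intro v hv
      rw [mem_verts] at hv
      cases v with
      | inl i =>
        simp only [isLb_inl, cond_true, Bool.and_eq_true, len1_iff, isEmpty_iff_length,
          insL_length hl, outsL_length hl]
        exact h.leaf_deg i ((hX i).1 hv)
      | inr j =>
        simp only [isLb_inr, cond_false, Bool.or_eq_true, decide_eq_true_eq, Bool.and_eq_true,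
          len1_iff, len2_iff, insL_length hl, outsL_length hl]
        by_cases hj : Sum.inr j = r
        · exact Or.inl hj
        · exact Or.inr (h.inner_deg j hv hj)

/-- The test that there is no root triangle. -/
def noTri (l : Ar) (r : Vx) : Bool :=
  l.all (fun e => l.all (fun e' => !(decide (e.1 = r) && (decide (e'.1 = r) &&
    decide ((e.2, e'.2) ∈ l)))))

theorem noTri_iff {l : Ar} {r : Vx} : noTri l r = true ↔ ¬ RootTriangle l.toFinset r := by
  unfold noTri RootTriangle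
  simp only [List.all_eq_true, Bool.not_eq_true', Bool.and_eq_false_iff, decide_eq_false_iff_not,
    Prod.forall]
  constructor
  · rintro h ⟨x, y, h1, h2, h3⟩
    rw [List.mem_toFinset] at h1 h2 h3
    rcases h _ _ h1 _ _ h2 with h4 | h4 | h4
    · exact h4 rfl
    · exact h4 rfl
    · exact h4 h3
  · intro h a b hab a' b' hab'
    by_contra hcon
    push Not at hcon
    obtain ⟨rfl, rfl, h3⟩ := hcon
    exact h ⟨b, b', List.mem_toFinset.2 hab, List.mem_toFinset.2 hab', List.mem_toFinset.2 h3⟩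

/-- The test for directed edges of the topology. -/
def dirB (l : Ar) (r x y : Vx) : Bool :=
  len2 (insL l y) && ((decide ((x, y) ∈ l) && !decide (x = r)) ||
    (decide ((r, x) ∈ l) && (decide ((r, y) ∈ l) && !decide (x = y))))

theorem dirB_iff {l : Ar} (hl : l.Nodup) {r x y : Vx} :
    dirB l r x y = true ↔ DirEdge l.toFinset r x y := by
  unfold dirB DirEdge
  simp only [Bool.and_eq_true, Bool.or_eq_true, decide_eq_true_eq, Bool.not_eq_true',
    decide_eq_false_iff_not, len2_iff, insL_length hl, List.mem_toFinset, ne_eq]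

/-- The test for undirected edges of the topology. -/
def undB (l : Ar) (r x y : Vx) : Bool :=
  (decide ((x, y) ∈ l) && (!decide (x = r) && !len2 (insL l y))) ||
  ((decide ((y, x) ∈ l) && (!decide (y = r) && !len2 (insL l x))) ||
  (decide ((r, x) ∈ l) && (decide ((r, y) ∈ l) && (!decide (x = y) &&
    (!len2 (insL l x) && !len2 (insL l y))))))

theorem not_len2_iff {l : Ar} (hl : l.Nodup) {v : Vx} :
    len2 (insL l v) = false ↔ indeg l.toFinset v ≠ 2 := by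
  rw [← insL_length hl, ne_eq, ← len2_iff, Bool.not_eq_true]

theorem undB_iff {l : Ar} (hl : l.Nodup) {r x y : Vx} :
    undB l r x y = true ↔ UndEdge l.toFinset r x y := by
  unfold undB UndEdge
  simp only [Bool.and_eq_true, Bool.or_eq_true, decide_eq_true_eq, Bool.not_eq_true',
    decide_eq_false_iff_not, not_len2_iff hl, List.mem_toFinset, ne_eq]

/-- The test that the list `S` of pairs is an isomorphism. -/
def topOK (N : MG) (l : Ar) (r : Vx) (S : Ar) : Bool :=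
  S.all (fun p => !isLb p.1 || decide (p.1 = p.2)) &&
  (S.all (fun p => S.all (fun p' => !(decide (p.1 = p'.1) ^^ decide (p.2 = p'.2)))) &&
  ((verts l).all (fun v => decide (v = r) || decide (v ∈ S.map Prod.fst)) &&
  ((verts (N.1 ++ N.2)).all (fun v => decide (v ∈ S.map Prod.snd)) &&
  (S.all (fun p => S.all (fun p' =>
    !(dirB l r p.1 p'.1 ^^ decide ((p.2, p'.2) ∈ N.1)))) &&
  S.all (fun p => S.all (fun p' =>
    !(undB l r p.1 p'.1 ^^ (decide ((p.2, p'.2) ∈ N.2) || decide ((p'.2, p.2) ∈ N.2)))))))))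

theorem not_xor_iff {a b : Bool} : ((a ^^ b) = false) ↔ (a = true ↔ b = true) := by
  cases a <;> cases b <;> simp

/-- The specification of the test. -/
structure TopS (N : MG) (l : Ar) (r : Vx) (S : Ar) : Prop where
  leaf : ∀ p ∈ S, Lf p.1 → p.1 = p.2
  inj : ∀ p ∈ S, ∀ p' ∈ S, p.1 = p'.1 ↔ p.2 = p'.2
  cov1 : ∀ v, IsVertex l.toFinset v → v ≠ r → ∃ p ∈ S, p.1 = v
  cov2 : ∀ v ∈ verts (N.1 ++ N.2), ∃ p ∈ S, p.2 = v
  dir : ∀ p ∈ S, ∀ p' ∈ S, DirEdge l.toFinset r p.1 p'.1 ↔ (p.2, p'.2) ∈ N.1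
  und : ∀ p ∈ S, ∀ p' ∈ S, UndEdge l.toFinset r p.1 p'.1 ↔
    ((p.2, p'.2) ∈ N.2 ∨ (p'.2, p.2) ∈ N.2)

theorem topOK_iff {N : MG} {l : Ar} (hl : l.Nodup) {r : Vx} {S : Ar} :
    topOK N l r S = true ↔ TopS N l r S := by
  unfold topOK
  simp only [Bool.and_eq_true, List.all_eq_true, not_xor_iff, Bool.or_eq_true,
    Bool.not_eq_true', decide_eq_true_eq, dirB_iff hl, undB_iff hl, List.mem_map]
  constructor
  · rintro ⟨h1, h2, h3, h4, h5, h6⟩
    refine ⟨?_, h2, ?_, h4, h5, h6⟩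
    · intro p hp hL
      rcases h1 p hp with h | h
      · rw [isLb_iff.2 hL] at h
        simp at h
      · exact h
    · intro v hv hr
      exact (h3 v (mem_verts.2 hv)).resolve_left hr
  · intro h
    refine ⟨?_, h.inj, ?_, h.cov2, h.dir, h.und⟩
    · intro p hp
      cases hL : isLb p.1 with
      | false => exact Or.inl rfl
      | true => exact Or.inr (h.leaf p hp (isLb_iff.1 hL))
    · intro v hv
      by_cases hr : v = r
      · exact Or.inl hr
      · exact Or.inr (h.cov1 v (mem_verts.1 hv) hr)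

theorem dir_vertex {X : Finset ℕ} {E : Dg} {r x y : Vx} (h : IsNetwork X E r)
    (hd : DirEdge E r x y) : (IsVertex E x ∧ x ≠ r) ∧ (IsVertex E y ∧ y ≠ r) := by
  have hp := network_prenet h
  have hne : ∀ {x y : Vx}, (x, y) ∈ E → y ≠ r := by
    rintro x y hxy rfl
    exact hp.rootin _ hxy
  obtain ⟨_, ⟨h1, h2⟩ | ⟨h1, h2, _⟩⟩ := hd
  · exact ⟨⟨⟨y, Or.inl h1⟩, h2⟩, ⟨x, Or.inr h1⟩, hne h1⟩
  · exact ⟨⟨⟨r, Or.inr h1⟩, hne h1⟩, ⟨r, Or.inr h2⟩, hne h2⟩

theorem und_vertex {X : Finset ℕ} {E : Dg} {r x y : Vx} (h : IsNetwork X E r)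
    (hd : UndEdge E r x y) : (IsVertex E x ∧ x ≠ r) ∧ (IsVertex E y ∧ y ≠ r) := by
  have hp := network_prenet h
  have hne : ∀ {x y : Vx}, (x, y) ∈ E → y ≠ r := by
    rintro x y hxy rfl
    exact hp.rootin _ hxy
  obtain ⟨h1, h2, _⟩ | ⟨h1, h2, _⟩ | ⟨h1, h2, _⟩ := hd
  · exact ⟨⟨⟨y, Or.inl h1⟩, h2⟩, ⟨x, Or.inr h1⟩, hne h1⟩
  · exact ⟨⟨⟨y, Or.inr h1⟩, hne h1⟩, ⟨x, Or.inl h1⟩, h2⟩
  · exact ⟨⟨⟨r, Or.inr h1⟩, hne h1⟩, ⟨r, Or.inr h2⟩, hne h2⟩

/-- Every vertex of the topology is on an edge. -/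
theorem exists_edge {X : Finset ℕ} {E : Dg} {r v : Vx} (h : IsNetwork X E r)
    (hv : IsVertex E v) (hr : v ≠ r) :
    ∃ w, DirEdge E r v w ∨ DirEdge E r w v ∨ UndEdge E r v w := by
  have hp := network_prenet h
  have h1 : ∃ w, (w, v) ∈ E := by
    obtain ⟨w, hw | hw⟩ := hv
    · exact hp.innerin v w hw hr
    · exact ⟨w, hw⟩
  obtain ⟨w, hw⟩ := h1
  by_cases hwr : w = r
  · subst hwr
    obtain ⟨y, hy, hwy⟩ := exists_other_out (v := v) (show SD.outdeg E w = 2 from h.root_deg.2)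
    by_cases h2 : indeg E y = 2
    · exact ⟨y, Or.inl ⟨h2, Or.inr ⟨hw, hwy, hy.symm⟩⟩⟩
    · by_cases h3 : indeg E v = 2
      · exact ⟨y, Or.inr (Or.inl ⟨h3, Or.inr ⟨hwy, hw, hy⟩⟩)⟩
      · exact ⟨y, Or.inr (Or.inr (Or.inr (Or.inr ⟨hw, hwy, hy.symm, h3, h2⟩)))⟩
  · by_cases h3 : indeg E v = 2
    · exact ⟨w, Or.inr (Or.inl ⟨h3, Or.inl ⟨hw, hwr⟩⟩)⟩
    · exact ⟨w, Or.inr (Or.inr (Or.inr (Or.inl ⟨hw, hwr, h3⟩)))⟩

theorem top_sound {X : Finset ℕ} {N : MG} {l : Ar} {r : Vx} {S : Ar}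
    (h : IsNetwork X l.toFinset r) (hS : TopS N l r S) : IsTopology N l.toFinset r := by
  classical
  let f : Vx → Vx := fun x => if hx : ∃ p ∈ S, p.1 = x then hx.choose.2 else x
  have hf : ∀ p ∈ S, f p.1 = p.2 := by
    intro p hp
    have hx : ∃ p' ∈ S, p'.1 = p.1 := ⟨p, hp, rfl⟩
    have h1 := hx.choose_spec
    simp only [f, dif_pos hx]
    exact (hS.inj _ h1.1 p hp).1 h1.2
  refine ⟨f, ?_, ?_, ?_, ?_⟩
  · intro i
    by_cases hx : ∃ p ∈ S, p.1 = Sum.inl i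
    · obtain ⟨p, hp, h1⟩ := hx
      rw [← h1, hf p hp, ← hS.leaf p hp ⟨i, h1⟩]
    · simp only [f, dif_neg hx]
  · intro x y hx hy hxr hyr hxy
    obtain ⟨p, hp, rfl⟩ := hS.cov1 x hx hxr
    obtain ⟨p', hp', rfl⟩ := hS.cov1 y hy hyr
    rw [hf p hp, hf p' hp'] at hxy
    exact (hS.inj p hp p' hp').2 hxy
  · intro u v
    constructor
    · intro huv
      obtain ⟨p, hp, rfl⟩ := hS.cov2 u (mem_verts'.2 ⟨_, List.mem_append_left _ huv, Or.inl rfl⟩)
      obtain ⟨p', hp', rfl⟩ := hS.cov2 v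
        (mem_verts'.2 ⟨_, List.mem_append_left _ huv, Or.inr rfl⟩)
      exact ⟨p.1, p'.1, (hS.dir p hp p' hp').2 huv, hf p hp, hf p' hp'⟩
    · rintro ⟨x, y, hd, rfl, rfl⟩
      obtain ⟨⟨h1, h2⟩, h3, h4⟩ := dir_vertex h hd
      obtain ⟨p, hp, rfl⟩ := hS.cov1 x h1 h2
      obtain ⟨p', hp', rfl⟩ := hS.cov1 y h3 h4
      rw [hf p hp, hf p' hp']
      exact (hS.dir p hp p' hp').1 hd
  · intro u v
    constructor
    · intro huv
      have h1 : u ∈ verts (N.1 ++ N.2) ∧ v ∈ verts (N.1 ++ N.2) := by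
        rcases huv with huv | huv
        · exact ⟨mem_verts'.2 ⟨_, List.mem_append_right _ huv, Or.inl rfl⟩,
            mem_verts'.2 ⟨_, List.mem_append_right _ huv, Or.inr rfl⟩⟩
        · exact ⟨mem_verts'.2 ⟨_, List.mem_append_right _ huv, Or.inr rfl⟩,
            mem_verts'.2 ⟨_, List.mem_append_right _ huv, Or.inl rfl⟩⟩
      obtain ⟨p, hp, rfl⟩ := hS.cov2 u h1.1
      obtain ⟨p', hp', rfl⟩ := hS.cov2 v h1.2
      exact ⟨p.1, p'.1, (hS.und p hp p' hp').2 huv, hf p hp, hf p' hp'⟩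
    · rintro ⟨x, y, hd, rfl, rfl⟩
      obtain ⟨⟨h1, h2⟩, h3, h4⟩ := und_vertex h hd
      obtain ⟨p, hp, rfl⟩ := hS.cov1 x h1 h2
      obtain ⟨p', hp', rfl⟩ := hS.cov1 y h3 h4
      rw [hf p hp, hf p' hp']
      exact (hS.und p hp p' hp').1 hd

theorem top_complete {X : Finset ℕ} {N : MG} {l : Ar} {r : Vx}
    (h : IsNetwork X l.toFinset r) (ht : IsTopology N l.toFinset r) :
    ∃ S : Ar, TopS N l r S ∧ S.length ≤ (verts l).length ∧
      ∀ p ∈ S, p.1 ∈ verts l ∧ p.2 ∈ verts (N.1 ++ N.2) := by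
  obtain ⟨f, h1, h2, h3, h4⟩ := ht
  let S : Ar := ((verts l).filter (fun v => !decide (v = r))).map (fun v => (v, f v))
  have hS : ∀ p, p ∈ S ↔ (IsVertex l.toFinset p.1 ∧ p.1 ≠ r) ∧ p.2 = f p.1 := by
    rintro ⟨x, y⟩
    simp only [S, List.mem_map, List.mem_filter, Bool.not_eq_true', decide_eq_false_iff_not,
      Prod.mk.injEq, mem_verts]
    constructor
    · rintro ⟨a, h5, rfl, rfl⟩
      exact ⟨h5, rfl⟩
    · rintro ⟨h5, rfl⟩
      exact ⟨x, h5, rfl, rfl⟩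
  refine ⟨S, ⟨?_, ?_, ?_, ?_, ?_, ?_⟩, ?_, ?_⟩
  · rintro ⟨x, y⟩ hp ⟨i, hi⟩
    have h5 := ((hS _).1 hp).2
    simp only at h5 hi ⊢
    rw [h5, hi, h1]
  · rintro ⟨x, y⟩ hp ⟨x', y'⟩ hp'
    obtain ⟨⟨g1, g2⟩, g3⟩ := (hS _).1 hp
    obtain ⟨⟨g1', g2'⟩, g3'⟩ := (hS _).1 hp'
    simp only at g1 g2 g3 g1' g2' g3' ⊢
    rw [g3, g3']
    constructor
    · intro h5
      rw [h5]
    · exact h2 x x' g1 g1' g2 g2'
  · intro v hv hr
    exact ⟨(v, f v), (hS _).2 ⟨⟨hv, hr⟩, rfl⟩, rfl⟩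
  · intro v hv
    obtain ⟨⟨a, b⟩, he, hab⟩ := mem_verts'.1 hv
    rcases List.mem_append.1 he with he | he
    · obtain ⟨x, y, hd, rfl, rfl⟩ := (h3 a b).1 he
      obtain ⟨g1, g2⟩ := dir_vertex h hd
      rcases hab with hab | hab
      · exact ⟨(x, f x), (hS _).2 ⟨g1, rfl⟩, hab⟩
      · exact ⟨(y, f y), (hS _).2 ⟨g2, rfl⟩, hab⟩
    · obtain ⟨x, y, hd, rfl, rfl⟩ := (h4 a b).1 (Or.inl he)
      obtain ⟨g1, g2⟩ := und_vertex h hd
      rcases hab with hab | hab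
      · exact ⟨(x, f x), (hS _).2 ⟨g1, rfl⟩, hab⟩
      · exact ⟨(y, f y), (hS _).2 ⟨g2, rfl⟩, hab⟩
  · rintro ⟨x, y⟩ hp ⟨x', y'⟩ hp'
    obtain ⟨⟨g1, g2⟩, g3⟩ := (hS _).1 hp
    obtain ⟨⟨g1', g2'⟩, g3'⟩ := (hS _).1 hp'
    simp only at g1 g2 g3 g1' g2' g3' ⊢
    rw [g3, g3', h3]
    constructor
    · exact fun hd => ⟨x, x', hd, rfl, rfl⟩
    · rintro ⟨u, v, hd, h5, h6⟩
      obtain ⟨⟨k1, k2⟩, k3, k4⟩ := dir_vertex h hd
      rw [← h2 u x k1 g1 k2 g2 h5, ← h2 v x' k3 g1' k4 g2' h6]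
      exact hd
  · rintro ⟨x, y⟩ hp ⟨x', y'⟩ hp'
    obtain ⟨⟨g1, g2⟩, g3⟩ := (hS _).1 hp
    obtain ⟨⟨g1', g2'⟩, g3'⟩ := (hS _).1 hp'
    simp only at g1 g2 g3 g1' g2' g3' ⊢
    rw [g3, g3', h4]
    constructor
    · exact fun hd => ⟨x, x', hd, rfl, rfl⟩
    · rintro ⟨u, v, hd, h5, h6⟩
      obtain ⟨⟨k1, k2⟩, k3, k4⟩ := und_vertex h hd
      rw [← h2 u x k1 g1 k2 g2 h5, ← h2 v x' k3 g1' k4 g2' h6]
      exact hd
  · simp only [S, List.length_map]
    exact List.length_filter_le _ _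
  · rintro ⟨x, y⟩ hp
    obtain ⟨⟨g1, g2⟩, g3⟩ := (hS _).1 hp
    simp only at g1 g2 g3 ⊢
    refine ⟨mem_verts.2 g1, ?_⟩
    rw [g3]
    obtain ⟨w, hw | hw | hw⟩ := exists_edge h g1 g2
    · have h5 := (h3 (f x) (f w)).2 ⟨x, w, hw, rfl, rfl⟩
      exact mem_verts'.2 ⟨_, List.mem_append_left _ h5, Or.inl rfl⟩
    · have h5 := (h3 (f w) (f x)).2 ⟨w, x, hw, rfl, rfl⟩
      exact mem_verts'.2 ⟨_, List.mem_append_left _ h5, Or.inr rfl⟩
    · rcases (h4 (f x) (f w)).2 ⟨x, w, hw, rfl, rfl⟩ with h5 | h5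
      · exact mem_verts'.2 ⟨_, List.mem_append_right _ h5, Or.inl rfl⟩
      · exact mem_verts'.2 ⟨_, List.mem_append_right _ h5, Or.inr rfl⟩

/-- The leaves of a mixed graph, as a list. -/
def leafL (N : MG) : List Vx := (verts (N.1 ++ N.2)).filter (fun v => isLb v)

theorem mem_leafL {N : MG} {v : Vx} : v ∈ leafL N ↔ v ∈ im (leaves N) := by
  unfold leafL
  rw [List.mem_filter, mem_verts', isLb_iff, mem_im]
  constructor
  · rintro ⟨⟨e, he, h⟩, i, rfl⟩
    exact ⟨i, mem_leaves.2 ⟨e, he, h⟩, rfl⟩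
  · rintro ⟨i, hi, rfl⟩
    obtain ⟨e, he, h⟩ := mem_leaves.1 hi
    exact ⟨⟨e, he, h⟩, i, rfl⟩

end Pool.Agent.NH85.SDN
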