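import Pool.Agent.NH85.SD.Chk2
import Pool.Agent.H671R2.PolyAuto

/-!
# The checker: soundness and completeness
-/

namespace Pool.Agent.NH85.SDN

open Relation SD Pool.Agent.NPC

/-- The union of the paths from `s` to `A`. -/
def puL (es : Ar) (s : Vx) (A : List Vx) : Ar :=
  es.filter (fun e => decide (e.1 ∈ rch es none s) && A.any (fun a => decide (a ∈ rch es none e.2)))

/-- The test that `s` is the lowest vertex that lies on all paths to `A`. -/
def lsaOK (es : Ar) (ρ : Vx) (A : List Vx) (s : Vx) : Bool :=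
  A.all (fun a => decide (ρ = s) || !decide (a ∈ rch es (some s) ρ)) &&
  (ρ :: verts es).all (fun v => (!decide (ρ = v) &&
    A.any (fun a => decide (a ∈ rch es (some v) ρ))) || decide (s ∈ rch es none v))

/-- The final test for one restriction. -/
def finOK (c : Bool) (N : MG) (S : Ar) (q : Vx × Ar) : Bool :=
  netOK q.2 q.1 && ((!c || noTri q.2 q.1) && (topOK N q.2 q.1 S &&
    ((verts q.2).all (fun v => !isLb v || decide (v ∈ leafL N)) &&
    (leafL N).all (fun a => decide (a ∈ verts q.2)))))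

/-- The part of the certificate that belongs to one restriction. -/
abbrev Dt : Type := Vx × List Mv × Ar

/-- The test for one restriction. -/
def okN (c : Bool) (es : Ar) (ρ : Vx) (N : MG) (d : Dt) : Bool :=
  !(leafL N).isEmpty && ((leafL N).all (fun a => decide (a ∈ rch es none ρ)) &&
    (lsaOK es ρ (leafL N) d.1 &&
    (d.2.1.foldl (mstep c) (some (d.1, puL es d.1 (leafL N)))).elim false
      (fun q => finOK c N d.2.2 q)))

/-- Certificates. -/
abbrev Ct : Type := Vx × Ar × List Dt

/-- The checker. -/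
def RR (c : Bool) (x : (ℕ × List MG) × Ct) : Bool :=
  !x.1.2.isEmpty && (chk x.2.2.1 && (netOK x.2.2.1 x.2.1 && ((!c || noTri x.2.2.1 x.2.1) &&
    ((verts x.2.2.1).all (fun v => Sum.elim (fun i => decide (1 ≤ i) && decide (i ≤ x.1.1))
      (fun _ => true) v) &&
    x.1.2.all (fun N => x.2.2.2.any (fun d => okN c x.2.2.1 x.2.1 N d))))))

theorem puL_toFinset {es : Ar} (h : Srt es) {s : Vx} {N : MG} :
    (puL es s (leafL N)).toFinset = PU es.toFinset s (im (leaves N)) := by
  ext ⟨x, y⟩
  rw [mem_PU]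
  simp only [puL, List.mem_toFinset, List.mem_filter, Bool.and_eq_true, decide_eq_true_eq,
    List.any_eq_true, mem_rch_none h, mem_leafL]

theorem lsaOK_iff {es : Ar} (h : Srt es) {ρ s : Vx} {N : MG} (hne : (leaves N).Nonempty)
    (hr : ∀ a ∈ im (leaves N), Reach es.toFinset ρ a) :
    lsaOK es ρ (leafL N) s = true ↔ LSA es.toFinset ρ (im (leaves N)) s := by
  unfold lsaOK
  simp only [Bool.and_eq_true, List.all_eq_true, Bool.or_eq_true, decide_eq_true_eq,
    Bool.not_eq_true', decide_eq_false_iff_not, List.any_eq_true, mem_rch_none h, mem_leafL]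
  have key : ∀ v a, (ρ = v ∨ a ∉ rch es (some v) ρ) ↔ ¬ AvR es.toFinset v ρ a := by
    intro v a
    rw [← mem_rch_some h]
    tauto
  have key2 : ∀ v, (¬ ρ = v ∧ ∃ a ∈ im (leaves N), a ∈ rch es (some v) ρ) ↔
      ∃ a ∈ im (leaves N), AvR es.toFinset v ρ a := by
    intro v
    simp only [← mem_rch_some h]
    constructor
    · rintro ⟨h1, a, h2, h3⟩
      exact ⟨a, h2, h1, h3⟩
    · rintro ⟨a, h2, h1, h3⟩
      exact ⟨h1, a, h2, h3⟩
  simp only [key, key2]
  constructor
  · rintro ⟨h1, h2⟩
    refine ⟨h1, fun v hv => ?_⟩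
    by_cases hmem : v ∈ ρ :: verts es
    · exact (h2 v hmem).resolve_left fun ⟨a, ha, h3⟩ => hv a ha h3
    · exfalso
      obtain ⟨a, ha⟩ := hne
      have h3 : ρ ≠ v := fun h' => hmem (h' ▸ List.mem_cons_self)
      have h4 : ¬ Vt es.toFinset v := fun h' =>
        hmem (List.mem_cons_of_mem _ (mem_verts.2 h'))
      exact hv _ (inl_mem_im.2 ha) (avR_of_not_vt h4 h3 (hr _ (inl_mem_im.2 ha)))
  · rintro ⟨h1, h2⟩
    refine ⟨h1, fun v _ => ?_⟩
    by_cases hD : Dom es.toFinset ρ (im (leaves N)) v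
    · exact Or.inr (h2 v hD)
    · left
      unfold Dom at hD
      push Not at hD
      exact hD

theorem cond_iff {c : Bool} {p : Bool} {P : Prop} (h : p = true ↔ P) :
    (!c || p) = true ↔ (c = true → P) := by
  cases c
  · simp
  · simp [h]

theorem okN_sound {c : Bool} {es : Ar} (h : Srt es) {X : Finset ℕ} {ρ : Vx}
    (hE : IsNetwork X es.toFinset ρ) {N : MG} {d : Dt} (hd : okN c es ρ N d = true) :
    (leaves N ⊆ X ∧ (leaves N).Nonempty) ∧ ∃ s q, LSA es.toFinset ρ (im (leaves N)) s ∧
      RSs (c = true) (s, PU es.toFinset s (im (leaves N))) q ∧ KN (c = true) N q := by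
  unfold okN at hd
  simp only [Bool.and_eq_true] at hd
  obtain ⟨h1, h2, h3, h4⟩ := hd
  have hp := network_prenet hE
  simp only [List.all_eq_true, decide_eq_true_eq, mem_rch_none h, mem_leafL] at h2
  have hne : (leaves N).Nonempty := by
    by_contra hcon
    rw [Finset.not_nonempty_iff_eq_empty] at hcon
    have h5 : leafL N = [] := by
      rw [List.eq_nil_iff_forall_not_mem]
      intro a ha
      rw [mem_leafL, mem_im, hcon] at ha
      obtain ⟨i, hi, _⟩ := ha
      simp at hi
    rw [h5] at h1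
    simp at h1
  have hsub : leaves N ⊆ X := by
    intro i hi
    rw [← hE.leaves]
    rcases ReflTransGen.cases_tail (h2 _ (inl_mem_im.2 hi)) with h5 | ⟨w, _, hw⟩
    · exact absurd ⟨i, h5.symm⟩ hp.rootL
    · exact ⟨w, Or.inr hw⟩
  rw [lsaOK_iff h hne h2] at h3
  refine ⟨⟨hsub, hne⟩, d.1, ?_⟩
  cases hq : d.2.1.foldl (mstep c) (some (d.1, puL es d.1 (leafL N))) with
  | none => rw [hq] at h4; simp at h4
  | some q =>
    rw [hq] at h4
    simp only [Option.elim_some] at h4
    have hnd : (puL es d.1 (leafL N)).Nodup := h.1.filter _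
    obtain ⟨h5, h6⟩ := moves_sound hnd hq
    rw [puL_toFinset h] at h5
    have hleaf : ∀ x ∈ im (leaves N), ∀ y, (x, y) ∉ es.toFinset := by
      rintro x hx y hxy
      obtain ⟨i, _, hi⟩ := mem_im.1 hx
      exact hp.leafout x y hxy ⟨i, hi⟩
    have hneI : (im (leaves N)).Nonempty := by
      obtain ⟨i, hi⟩ := hne
      exact ⟨_, inl_mem_im.2 hi⟩
    have hX : CR (PU es.toFinset d.1 (im (leaves N))) d.1 (im (leaves N)) :=
      cr_PU hp.acyc h3 hneI h2 hleaf
    have hqc := hX.steps h5
    refine ⟨(q.1, q.2.toFinset), h3, h5, ?_⟩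
    unfold finOK at h4
    simp only [Bool.and_eq_true] at h4
    obtain ⟨g1, g2, g3, g4, g5⟩ := h4
    simp only [List.all_eq_true, Bool.or_eq_true, Bool.not_eq_true', decide_eq_true_eq,
      mem_leafL, mem_verts] at g4 g5
    have hXX : ∀ i, IsVertex q.2.toFinset (Sum.inl i) ↔ i ∈ leaves N := by
      intro i
      constructor
      · intro hi
        rcases g4 _ hi with g | g
        · simp at g
        · exact inl_mem_im.1 g
      · exact fun hi => g5 _ (inl_mem_im.2 hi)
    have hnet : IsNetwork (leaves N) q.2.toFinset q.1 := (netOK_iff h6 hqc.acyc hXX).1 g1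
    exact ⟨hnet, (cond_iff noTri_iff).1 g2, top_sound hnet ((topOK_iff h6).1 g3)⟩

theorem RR_sound {c : Bool} {n : ℕ} {l : List MG} {w : Ct} (h : RR c ((n, l), w) = true) :
    Compatible (c = true) (n, l) := by
  obtain ⟨ρ, es, ds⟩ := w
  unfold RR at h
  simp only [Bool.and_eq_true] at h
  obtain ⟨h1, h2, h3, h4, h5, h6⟩ := h
  have hs := chk_iff.1 h2
  have hac := srt_acyc hs
  let X : Finset ℕ := ((verts es).filterMap Sum.getLeft?).toFinset
  have hX : ∀ i, IsVertex es.toFinset (Sum.inl i) ↔ i ∈ X := by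
    intro i
    simp only [X, List.mem_toFinset, List.mem_filterMap, mem_verts]
    constructor
    · exact fun h => ⟨_, h, by simp⟩
    · rintro ⟨v, hv, hi⟩
      cases v with
      | inl j =>
        simp only [Sum.getLeft?_inl, Option.some.injEq] at hi
        rwa [← hi]
      | inr j => simp at hi
  have hE : IsNetwork X es.toFinset ρ := (netOK_iff hs.1 hac hX).1 h3
  simp only [List.all_eq_true, List.any_eq_true] at h5 h6
  have hXn : X ⊆ Finset.Icc 1 n := by
    intro i hi
    have h7 := h5 _ (mem_verts.2 ((hX i).2 hi))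
    simp only [Sum.elim_inl, Bool.and_eq_true, decide_eq_true_eq] at h7
    exact Finset.mem_Icc.2 h7
  refine compatible_of_good ?_ hXn hE ((cond_iff noTri_iff).1 h4) ?_ ?_
  · rintro rfl
    simp at h1
  · intro N hN
    obtain ⟨d, _, hd⟩ := h6 N hN
    exact (okN_sound hs hE hd).2
  · intro N hN
    obtain ⟨d, _, hd⟩ := h6 N hN
    exact (okN_sound hs hE hd).1

/-! ### Completeness -/

theorem exists_sorted {E : Dg} (hE : Acyc E) : ∃ es : Ar, Srt es ∧ es.toFinset = E := by
  classical
  have key : ∀ S : Dg, S ⊆ E → ∃ es : Ar, Srt es ∧ es.toFinset = S := by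
    intro S
    induction S using Finset.induction_on_max_value (fun e : Vx × Vx => rk E e.1) with
    | empty => exact fun _ => ⟨[], srt_nil, rfl⟩
    | insert f S hf hmax ih =>
      intro hsub
      obtain ⟨es, h1, h2⟩ := ih ((Finset.subset_insert _ _).trans hsub)
      have hfE := hsub (Finset.mem_insert_self f S)
      refine ⟨es ++ [f], srt_snoc.2 ⟨h1, ?_, ?_, ?_⟩, ?_⟩
      · obtain ⟨u, v⟩ := f
        exact hE.ne hfE
      · intro h3
        rw [← List.mem_toFinset, h2] at h3
        exact hf h3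
      · intro e he h3
        rw [← List.mem_toFinset, h2] at he
        have h4 := hmax e he
        obtain ⟨u, v⟩ := f
        have h5 := rk_lt hE hfE
        simp only at h3 h4
        rw [← h3] at h4
        omega
      · rw [toFinset_snoc, h2]
  exact key E (Finset.Subset.refl _)

theorem okN_complete {c : Bool} {es : Ar} (h : Srt es) {X : Finset ℕ} {ρ : Vx}
    (hE : IsNetwork X es.toFinset ρ) {N : MG} (hN : leaves N ⊆ X ∧ (leaves N).Nonempty)
    {s : Vx} {q : Vx × Dg} (h1 : LSA es.toFinset ρ (im (leaves N)) s)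
    (h2 : RSs (c = true) (s, PU es.toFinset s (im (leaves N))) q) (h3 : KN (c = true) N q) :
    ∃ d : Dt, okN c es ρ N d = true ∧ IsVertex es.toFinset d.1 ∧ d.2.1.length ≤ es.length ∧
      (∀ m ∈ d.2.1, IsVertex es.toFinset m.2.1 ∧ IsVertex es.toFinset m.2.2.1 ∧
        IsVertex es.toFinset m.2.2.2) ∧ d.2.2.length ≤ 2 * es.length ∧
      ∀ p ∈ d.2.2, IsVertex es.toFinset p.1 ∧ p.2 ∈ verts (N.1 ++ N.2) := by
  have hp := network_prenet hE
  have hr := network_reach hE hN.1
  have hleaf : ∀ x ∈ im (leaves N), ∀ y, (x, y) ∉ es.toFinset := by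
    rintro x hx y hxy
    obtain ⟨i, _, hi⟩ := mem_im.1 hx
    exact hp.leafout x y hxy ⟨i, hi⟩
  obtain ⟨i0, hi0⟩ := hN.2
  have hneI : (im (leaves N)).Nonempty := ⟨_, inl_mem_im.2 hi0⟩
  have hX : CR (PU es.toFinset s (im (leaves N))) s (im (leaves N)) :=
    cr_PU hp.acyc h1 hneI hr hleaf
  have hqc := hX.steps h2
  have hnd : (puL es s (leafL N)).Nodup := h.1.filter _
  obtain ⟨ms, l', g1, g2, g3, g4, g5⟩ := moves_complete h2 hX hnd (puL_toFinset h)
  obtain ⟨h31, h32, h33⟩ := h3
  rw [← g3] at h31 h32 h33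
  obtain ⟨S, hS1, hS2, hS3⟩ := top_complete h31 h33
  have hcard : (PU es.toFinset s (im (leaves N))).card ≤ es.length :=
    (Finset.card_le_card (PU_subset _ _ _)).trans (List.toFinset_card_le _)
  have hvs : ∀ v, Vt (PU es.toFinset s (im (leaves N))) v → IsVertex es.toFinset v := by
    rintro v ⟨w, hw | hw⟩
    · exact ⟨w, Or.inl (PU_subset _ _ _ hw)⟩
    · exact ⟨w, Or.inr (PU_subset _ _ _ hw)⟩
  have hs : IsVertex es.toFinset s := by
    rcases ReflTransGen.cases_tail (h1.reach_s (inl_mem_im.2 hi0) (hr _ (inl_mem_im.2 hi0))).1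
      with h5 | ⟨w, _, hw⟩
    · obtain ⟨y, hy⟩ := hp.rootout
      rw [h5]
      exact ⟨y, Or.inl hy⟩
    · exact ⟨w, Or.inr hw⟩
  refine ⟨(s, ms, S), ?_, hs, g4.trans hcard, ?_, ?_, ?_⟩
  · unfold okN
    simp only [Bool.and_eq_true]
    refine ⟨?_, ?_, (lsaOK_iff h hN.2 hr).2 h1, ?_⟩
    · cases hl : leafL N with
      | nil =>
        have := mem_leafL.2 (inl_mem_im.2 hi0)
        rw [hl] at this
        simp at this
      | cons a l => rfl
    · simp only [List.all_eq_true, decide_eq_true_eq, mem_rch_none h, mem_leafL]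
      exact hr
    · rw [g1]
      simp only [Option.elim_some]
      unfold finOK
      simp only [Bool.and_eq_true]
      rw [← g3] at hqc
      refine ⟨(netOK_iff g2 hqc.acyc h31.leaves).2 h31, (cond_iff noTri_iff).2 h32,
        (topOK_iff g2).2 hS1, ?_, ?_⟩
      · simp only [List.all_eq_true, Bool.or_eq_true, Bool.not_eq_true', decide_eq_true_eq,
          mem_leafL, mem_verts]
        intro v hv
        cases v with
        | inl i => exact Or.inr (inl_mem_im.2 ((h31.leaves i).1 hv))
        | inr j => exact Or.inl rfl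
      · simp only [List.all_eq_true, decide_eq_true_eq, mem_leafL, mem_verts]
        intro a ha
        obtain ⟨i, hi, rfl⟩ := mem_im.1 ha
        exact (h31.leaves i).2 hi
  · intro m hm
    obtain ⟨g6, g7, g8⟩ := g5 m hm
    exact ⟨hvs _ g6, hvs _ g7, hvs _ g8⟩
  · simp only
    refine hS2.trans ?_
    have h6 : (verts l').length = 2 * l'.length := by
      unfold verts
      rw [List.length_flatMap]
      simp [mul_comm]
    have h7 : l'.length = q.2.card := by
      rw [← g3, List.toFinset_card_of_nodup g2]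
    have h8 := RSs.card hX h2
    simp only at h8
    omega
  · rintro p hp'
    obtain ⟨h6, h7⟩ := hS3 p hp'
    rw [mem_verts, g3] at h6
    exact ⟨hvs _ (RSs.vt hX h2 h6), h7⟩

end Pool.Agent.NH85.SDN
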