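import Mathlib

/-!
# Rooted directed graphs, reachability, suppression of vertices
-/

namespace Pool.Agent.NH85.SD

set_option linter.unusedSectionVars false

open Relation

/-- A finite directed graph, given by its set of arcs. -/
abbrev Gr (V : Type) := Finset (V × V)

variable {V : Type} [DecidableEq V]

/-- There is a directed path from `x` to `y`. -/
def Reach (E : Gr V) : V → V → Prop := ReflTransGen (fun x y => (x, y) ∈ E)

/-- There is a directed path from `x` to `y` all whose vertices after `x` satisfy `P`. -/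
def RP (E : Gr V) (P : V → Prop) : V → V → Prop := ReflTransGen (fun x y => (x, y) ∈ E ∧ P y)

/-- No directed cycles. -/
def Acyc (E : Gr V) : Prop := ∀ x y, (x, y) ∈ E → ¬ Reach E y x

/-- `x` is a vertex. -/
def Vt (E : Gr V) (x : V) : Prop := ∃ y, (x, y) ∈ E ∨ (y, x) ∈ E

theorem RP.mono {E E' : Gr V} {P P' : V → Prop} (hE : ∀ x y, (x, y) ∈ E → (x, y) ∈ E')
    (hP : ∀ x, P x → P' x) {x y : V} (h : RP E P x y) : RP E' P' x y :=
  ReflTransGen.mono (fun _ _ h => ⟨hE _ _ h.1, hP _ h.2⟩) _ _ h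

theorem RP.reach {E : Gr V} {P : V → Prop} {x y : V} (h : RP E P x y) : Reach E x y :=
  ReflTransGen.mono (fun _ _ h => h.1) _ _ h

theorem Reach.toRP {E : Gr V} {x y : V} (h : Reach E x y) : RP E (fun _ => True) x y :=
  ReflTransGen.mono (fun _ _ h => ⟨h, trivial⟩) _ _ h

theorem Reach.mono {E E' : Gr V} (hE : E ⊆ E') {x y : V} (h : Reach E x y) : Reach E' x y :=
  ReflTransGen.mono (fun _ _ h => hE h) _ _ h

theorem Reach.of_edge {E : Gr V} {x y : V} (h : (x, y) ∈ E) : Reach E x y := ReflTransGen.single h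

theorem Reach.rfl' {E : Gr V} {x : V} : Reach E x x := ReflTransGen.refl

theorem Acyc.mono {E E' : Gr V} (h : Acyc E') (hE : E ⊆ E') : Acyc E :=
  fun x y hxy hr => h x y (hE hxy) (hr.mono hE)

theorem Acyc.antisymm {E : Gr V} (h : Acyc E) {x y : V} (hxy : Reach E x y) (hyx : Reach E y x) :
    x = y := by
  rcases ReflTransGen.cases_head hxy with h1 | ⟨z, hz, hzy⟩
  · exact h1
  · exact absurd (ReflTransGen.trans hzy hyx) (h x z hz)

theorem Acyc.ne {E : Gr V} (h : Acyc E) {x y : V} (hxy : (x, y) ∈ E) : x ≠ y := by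
  rintro rfl
  exact h x x hxy ReflTransGen.refl

/-- Either a path passes through `s` or it avoids `s`. -/
theorem RP.through {E : Gr V} {P : V → Prop} (s : V) {x y : V} (h : RP E P x y) :
    (RP E P x s ∧ RP E P s y) ∨ (x ≠ s ∧ RP E (fun w => P w ∧ w ≠ s) x y) := by
  induction h using ReflTransGen.head_induction_on with
  | refl =>
    by_cases hy : y = s
    · subst hy; exact Or.inl ⟨ReflTransGen.refl, ReflTransGen.refl⟩
    · exact Or.inr ⟨hy, ReflTransGen.refl⟩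
  | head hxz hzy ih =>
    rename_i x z
    rcases ih with ⟨h1, h2⟩ | ⟨h1, h2⟩
    · exact Or.inl ⟨ReflTransGen.head hxz h1, h2⟩
    · by_cases hx : x = s
      · subst hx
        exact Or.inl ⟨ReflTransGen.refl, ReflTransGen.head hxz hzy⟩
      · exact Or.inr ⟨hx, ReflTransGen.head ⟨hxz.1, hxz.2, h1⟩ h2⟩

/-- There is a directed path from `x` to `y` that does not contain `v`. -/
def AvR (E : Gr V) (v : V) (x y : V) : Prop := x ≠ v ∧ RP E (fun w => w ≠ v) x y

theorem AvR.mono {E E' : Gr V} (hE : E ⊆ E') {v x y : V} (h : AvR E v x y) : AvR E' v x y :=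
  ⟨h.1, h.2.mono (fun _ _ h => hE h) fun _ h => h⟩

theorem AvR.trans {E : Gr V} {v x y z : V} (h : AvR E v x y) (h' : AvR E v y z) : AvR E v x z :=
  ⟨h.1, ReflTransGen.trans h.2 h'.2⟩

theorem AvR.reach {E : Gr V} {v x y : V} (h : AvR E v x y) : Reach E x y := h.2.reach

theorem AvR.ne_right {E : Gr V} {v x y : V} (h : AvR E v x y) : y ≠ v := by
  rcases ReflTransGen.cases_tail h.2 with h1 | ⟨z, _, hz⟩
  · rw [h1]; exact h.1
  · exact hz.2

theorem Reach.through {E : Gr V} (s : V) {x y : V} (h : Reach E x y) :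
    (Reach E x s ∧ Reach E s y) ∨ AvR E s x y := by
  rcases h.toRP.through s with ⟨h1, h2⟩ | ⟨h1, h2⟩
  · exact Or.inl ⟨h1.reach, h2.reach⟩
  · exact Or.inr ⟨h1, h2.mono (fun _ _ h => h) fun _ h => h.2⟩

theorem through_of_not_avR {E : Gr V} {s x y : V} (h : Reach E x y) (h' : ¬ AvR E s x y) :
    Reach E x s ∧ Reach E s y := (h.through s).resolve_right h'

theorem avR_of_not_reach {E : Gr V} {v x y : V} (h : Reach E x y) (h' : ¬ Reach E x v) :
    AvR E v x y := (h.through v).resolve_left fun h => h' h.1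

theorem avR_of_not_reach' {E : Gr V} {v x y : V} (h : Reach E x y) (h' : ¬ Reach E v y) :
    AvR E v x y := (h.through v).resolve_left fun h => h' h.2

/-! ### Suppression -/

/-- Suppression of `v` between `a` and `b`. -/
def sup (E : Gr V) (a v b : V) : Gr V := insert (a, b) ((E.erase (a, v)).erase (v, b))

/-- `v` has exactly one in-neighbour `a` and exactly one out-neighbour `b`. -/
structure Thin (E : Gr V) (a v b : V) : Prop where
  hin : ∀ x, (x, v) ∈ E ↔ x = a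
  hout : ∀ y, (v, y) ∈ E ↔ y = b

theorem Thin.av {E : Gr V} {a v b : V} (h : Thin E a v b) : (a, v) ∈ E := (h.hin a).2 rfl
theorem Thin.vb {E : Gr V} {a v b : V} (h : Thin E a v b) : (v, b) ∈ E := (h.hout b).2 rfl

theorem mem_sup {E : Gr V} {a v b : V} (h : Thin E a v b) (x y : V) :
    (x, y) ∈ sup E a v b ↔ (x = a ∧ y = b) ∨ ((x, y) ∈ E ∧ x ≠ v ∧ y ≠ v) := by
  unfold sup
  simp only [Finset.mem_insert, Finset.mem_erase, Prod.mk.injEq, ne_eq, not_and]
  constructor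
  · rintro (h1 | ⟨h1, h2, h3⟩)
    · exact Or.inl h1
    · refine Or.inr ⟨h3, ?_, ?_⟩
      · rintro rfl
        exact h1 rfl ((h.hout y).1 h3)
      · rintro rfl
        exact h2 ((h.hin x).1 h3) rfl
  · rintro (h1 | ⟨h1, h2, h3⟩)
    · exact Or.inl h1
    · exact Or.inr ⟨fun h4 => absurd h4 h2, fun _ h5 => h3 h5, h1⟩

theorem rp_sup_of_rp {E : Gr V} {a v b : V} (h : Thin E a v b) {P : V → Prop} {x y : V}
    (hy : y ≠ v) (hr : RP E P x y) :
    (x ≠ v → RP (sup E a v b) P x y) ∧ (x = v → P b ∧ RP (sup E a v b) P b y) := by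
  induction hr using ReflTransGen.head_induction_on with
  | refl => exact ⟨fun _ => ReflTransGen.refl, fun h => absurd h hy⟩
  | head hxz hzy ih =>
    rename_i x z
    constructor
    · intro hx
      by_cases hz : z = v
      · subst hz
        obtain rfl : x = a := (h.hin x).1 hxz.1
        obtain ⟨h1, h2⟩ := ih.2 rfl
        exact ReflTransGen.head ⟨(mem_sup h _ _).2 (Or.inl ⟨rfl, rfl⟩), h1⟩ h2
      · exact ReflTransGen.head ⟨(mem_sup h _ _).2 (Or.inr ⟨hxz.1, hx, hz⟩), hxz.2⟩ (ih.1 hz)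
    · rintro rfl
      obtain rfl : z = b := (h.hout z).1 hxz.1
      by_cases hz : z = x
      · subst hz
        exact ih.2 rfl
      · exact ⟨hxz.2, ih.1 hz⟩

theorem rp_of_rp_sup {E : Gr V} {a v b : V} (h : Thin E a v b) {P : V → Prop} (hv : P v) {x y : V}
    (hr : RP (sup E a v b) P x y) : RP E P x y := by
  induction hr with
  | refl => exact ReflTransGen.refl
  | tail _ hzy ih =>
    rcases (mem_sup h _ _).1 hzy.1 with ⟨rfl, rfl⟩ | ⟨h1, _, _⟩
    · exact ReflTransGen.tail (ReflTransGen.tail ih ⟨h.av, hv⟩) ⟨h.vb, hzy.2⟩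
    · exact ReflTransGen.tail ih ⟨h1, hzy.2⟩

theorem rp_sup_iff {E : Gr V} {a v b : V} (h : Thin E a v b) {P : V → Prop} (hv : P v) {x y : V}
    (hx : x ≠ v) (hy : y ≠ v) : RP (sup E a v b) P x y ↔ RP E P x y :=
  ⟨rp_of_rp_sup h hv, fun hr => (rp_sup_of_rp h hy hr).1 hx⟩

theorem reach_sup_iff {E : Gr V} {a v b : V} (h : Thin E a v b) {x y : V}
    (hx : x ≠ v) (hy : y ≠ v) : Reach (sup E a v b) x y ↔ Reach E x y := by
  have := rp_sup_iff h (P := fun _ => True) trivial hx hy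
  exact ⟨fun h => (this.1 h.toRP).reach, fun h => (this.2 h.toRP).reach⟩

theorem avR_sup_iff {E : Gr V} {a v b : V} (h : Thin E a v b) {w x y : V} (hw : w ≠ v)
    (hx : x ≠ v) (hy : y ≠ v) : AvR (sup E a v b) w x y ↔ AvR E w x y := by
  unfold AvR
  rw [rp_sup_iff h (P := fun u => u ≠ w) hw.symm hx hy]

theorem acyc_sup {E : Gr V} (hE : Acyc E) {a v b : V} (h : Thin E a v b) :
    Acyc (sup E a v b) := by
  have hav := hE.ne h.av
  have hvb := hE.ne h.vb
  intro x y hxy hr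
  rcases (mem_sup h _ _).1 hxy with ⟨rfl, rfl⟩ | ⟨h1, h2, h3⟩
  · rw [reach_sup_iff h hvb.symm hav] at hr
    exact hE x v h.av (ReflTransGen.head h.vb hr)
  · rw [reach_sup_iff h h3 h2] at hr
    exact hE x y h1 hr

theorem vt_sup {E : Gr V} (hE : Acyc E) {a v b : V} (h : Thin E a v b) {x : V} :
    Vt (sup E a v b) x ↔ Vt E x ∧ x ≠ v := by
  have hav := hE.ne h.av
  have hvb := hE.ne h.vb
  constructor
  · rintro ⟨y, hy | hy⟩
    · rcases (mem_sup h _ _).1 hy with ⟨rfl, rfl⟩ | ⟨h1, h2, h3⟩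
      · exact ⟨⟨v, Or.inl h.av⟩, hav⟩
      · exact ⟨⟨y, Or.inl h1⟩, h2⟩
    · rcases (mem_sup h _ _).1 hy with ⟨rfl, rfl⟩ | ⟨h1, h2, h3⟩
      · exact ⟨⟨v, Or.inr h.vb⟩, hvb.symm⟩
      · exact ⟨⟨y, Or.inr h1⟩, h3⟩
  · rintro ⟨⟨y, hy | hy⟩, hx⟩
    · by_cases hyv : y = v
      · subst hyv
        obtain rfl := (h.hin x).1 hy
        exact ⟨b, Or.inl ((mem_sup h _ _).2 (Or.inl ⟨rfl, rfl⟩))⟩
      · exact ⟨y, Or.inl ((mem_sup h _ _).2 (Or.inr ⟨hy, hx, hyv⟩))⟩
    · by_cases hyv : y = v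
      · subst hyv
        obtain rfl := (h.hout x).1 hy
        exact ⟨a, Or.inr ((mem_sup h _ _).2 (Or.inl ⟨rfl, rfl⟩))⟩
      · exact ⟨y, Or.inr ((mem_sup h _ _).2 (Or.inr ⟨hy, hyv, hx⟩))⟩

theorem card_sup {E : Gr V} (hE : Acyc E) {a v b : V} (h : Thin E a v b) :
    (sup E a v b).card < E.card := by
  have hav := hE.ne h.av
  have h1 : (v, b) ∈ E.erase (a, v) := by
    rw [Finset.mem_erase]
    refine ⟨fun h' => hav ?_, h.vb⟩
    rw [Prod.mk.injEq] at h'
    exact h'.1.symm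
  have h2 := Finset.card_erase_lt_of_mem h1
  have h3 := Finset.card_erase_lt_of_mem h.av
  have h4 := Finset.card_insert_le (a, b) ((E.erase (a, v)).erase (v, b))
  unfold sup
  omega

/-! ### Deletion of the root -/

/-- The graph without the arcs leaving `ρ`. -/
def cut (E : Gr V) (ρ : V) : Gr V := E.filter (fun e => e.1 ≠ ρ)

theorem mem_cut {E : Gr V} {ρ x y : V} : (x, y) ∈ cut E ρ ↔ (x, y) ∈ E ∧ x ≠ ρ := by
  simp [cut]

theorem cut_subset (E : Gr V) (ρ : V) : cut E ρ ⊆ E := Finset.filter_subset _ _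

/-- The root `ρ` has exactly the children `x` and `y`, and `x` has exactly the children `y`
and `z`. -/
structure Tri (E : Gr V) (ρ x y z : V) : Prop where
  hr : ∀ w, (ρ, w) ∈ E ↔ w = x ∨ w = y
  hx : ∀ w, (x, w) ∈ E ↔ w = y ∨ w = z
  xy : x ≠ y
  yz : y ≠ z

theorem rp_cut_iff {E : Gr V} {ρ : V} (hρ : ∀ x, (x, ρ) ∉ E) {P : V → Prop} {x y : V}
    (hx : x ≠ ρ) : RP (cut E ρ) P x y ↔ RP E P x y := by
  constructor
  · exact fun h => h.mono (fun _ _ h => cut_subset _ _ h) fun _ h => h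
  · intro h
    have key : ∀ y, RP E P x y → y ≠ ρ ∧ RP (cut E ρ) P x y := by
      intro y h
      induction h with
      | refl => exact ⟨hx, ReflTransGen.refl⟩
      | tail _ hzy ih =>
        refine ⟨?_, ReflTransGen.tail ih.2 ⟨mem_cut.2 ⟨hzy.1, ih.1⟩, hzy.2⟩⟩
        rintro rfl
        exact hρ _ hzy.1
    exact (key y h).2

theorem reach_cut_iff {E : Gr V} {ρ : V} (hρ : ∀ x, (x, ρ) ∉ E) {x y : V}
    (hx : x ≠ ρ) : Reach (cut E ρ) x y ↔ Reach E x y := by
  have := rp_cut_iff hρ (P := fun _ => True) (y := y) hx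
  exact ⟨fun h => (this.1 h.toRP).reach, fun h => (this.2 h.toRP).reach⟩

/-- One step of the simplification of a rooted graph: suppression of a vertex that is not the root,
or (only if `c` holds) deletion of the root if its two children are adjacent. -/
inductive RS (c : Prop) : V × Gr V → V × Gr V → Prop
  | sup {ρ : V} {E : Gr V} {a v b : V} (hv : v ≠ ρ) (h : Thin E a v b) :
      RS c (ρ, E) (ρ, sup E a v b)
  | root {ρ : V} {E : Gr V} {x y z : V} (hc : c) (h : Tri E ρ x y z) :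
      RS c (ρ, E) (x, cut E ρ)

/-- A sequence of simplification steps. -/
abbrev RSs (c : Prop) : V × Gr V → V × Gr V → Prop := ReflTransGen (RS c)

/-- A rooted graph in which every arc lies on a path from the root to the set `A` of sinks, and
the root is the only vertex that lies on all paths from the root to `A`. -/
structure CR (E : Gr V) (ρ : V) (A : Finset V) : Prop where
  acyc : Acyc E
  rootin : ∀ x, (x, ρ) ∉ E
  reach : ∀ x y, (x, y) ∈ E → Reach E ρ x
  coreach : ∀ x y, (x, y) ∈ E → ∃ a ∈ A, Reach E y a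
  leaf : ∀ a ∈ A, ∀ y, (a, y) ∉ E
  neA : A.Nonempty
  reachA : ∀ a ∈ A, Reach E ρ a
  dom : ∀ v, v ≠ ρ → ∃ a ∈ A, AvR E v ρ a

theorem CR.reach_vt {E : Gr V} {ρ : V} {A : Finset V} (h : CR E ρ A) {x : V} (hx : Vt E x) :
    Reach E ρ x := by
  obtain ⟨y, hy | hy⟩ := hx
  · exact h.reach x y hy
  · exact ReflTransGen.tail (h.reach y x hy) hy

theorem CR.has_in {E : Gr V} {ρ : V} {A : Finset V} (h : CR E ρ A) {x : V} (hx : Vt E x)
    (hxρ : x ≠ ρ) : ∃ y, (y, x) ∈ E := by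
  rcases ReflTransGen.cases_tail (h.reach_vt hx) with h1 | ⟨y, _, hy⟩
  · exact absurd h1 hxρ
  · exact ⟨y, hy⟩

theorem CR.co_vt {E : Gr V} {ρ : V} {A : Finset V} (h : CR E ρ A) {x : V} (hx : Vt E x) :
    ∃ a ∈ A, Reach E x a := by
  obtain ⟨y, hy | hy⟩ := hx
  · obtain ⟨a, ha, h1⟩ := h.coreach x y hy
    exact ⟨a, ha, ReflTransGen.head hy h1⟩
  · exact h.coreach y x hy

theorem CR.has_out {E : Gr V} {ρ : V} {A : Finset V} (h : CR E ρ A) {x : V} (hx : Vt E x)
    (hxA : x ∉ A) : ∃ y, (x, y) ∈ E := by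
  obtain ⟨a, ha, h1⟩ := h.co_vt hx
  rcases ReflTransGen.cases_head h1 with h1 | ⟨y, hy, _⟩
  · exact absurd (h1 ▸ ha) hxA
  · exact ⟨y, hy⟩

/-- The root is not dominated by a child. -/
theorem CR.root_out {E : Gr V} {ρ : V} {A : Finset V} (h : CR E ρ A) (hρ : ρ ∉ A) (c : V) :
    ∃ y, y ≠ c ∧ (ρ, y) ∈ E := by
  by_cases hc : c = ρ
  · obtain ⟨a, ha⟩ := h.neA
    have h1 := h.reachA a ha
    rcases ReflTransGen.cases_head h1 with h2 | ⟨y, hy, _⟩
    · exact absurd (h2 ▸ ha) hρ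
    · refine ⟨y, ?_, hy⟩
      rintro rfl
      rw [hc] at hy
      exact h.rootin _ hy
  · obtain ⟨a, ha, h1⟩ := h.dom c hc
    rcases ReflTransGen.cases_head h1.2 with h2 | ⟨y, hy, _⟩
    · exact absurd (h2 ▸ ha) hρ
    · exact ⟨y, hy.2, hy.1⟩

theorem CR.vtA {E : Gr V} {ρ : V} {A : Finset V} (h : CR E ρ A) (hρ : ρ ∉ A) {a : V} (ha : a ∈ A) :
    Vt E a := by
  rcases ReflTransGen.cases_tail (h.reachA a ha) with h1 | ⟨y, _, hy⟩
  · exact absurd (h1 ▸ ha) hρ
  · exact ⟨y, Or.inr hy⟩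

/-! ### Simplification steps preserve the structure -/

theorem avR_of_not_vt {E : Gr V} {v x y : V} (hv : ¬ Vt E v) (hx : x ≠ v) (h : Reach E x y) :
    AvR E v x y := by
  refine ⟨hx, ?_⟩
  have key : ReflTransGen (fun a b => (a, b) ∈ E) ≤ ReflTransGen (fun a b => (a, b) ∈ E ∧ b ≠ v) :=
    ReflTransGen.mono fun a b hab => ⟨hab, fun hb => hv ⟨a, Or.inr (hb ▸ hab)⟩⟩
  exact key _ _ h

theorem not_vt_sup {E : Gr V} (hE : Acyc E) {a v b : V} (h : Thin E a v b) :
    ¬ Vt (sup E a v b) v := fun h' => ((vt_sup hE h).1 h').2 rfl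

theorem CR.supp {E : Gr V} {ρ : V} {A : Finset V} (hE : CR E ρ A) {a v b : V} (hv : v ≠ ρ)
    (h : Thin E a v b) : CR (sup E a v b) ρ A := by
  have hav := hE.acyc.ne h.av
  have hvb := hE.acyc.ne h.vb
  have hvA : ∀ x ∈ A, x ≠ v := by
    rintro x hx rfl
    exact hE.leaf x hx b h.vb
  refine ⟨acyc_sup hE.acyc h, ?_, ?_, ?_, ?_, hE.neA, ?_, ?_⟩
  · intro x hx
    rcases (mem_sup h _ _).1 hx with ⟨rfl, h2⟩ | ⟨h1, _, _⟩
    · rw [← h2] at h
      exact hE.rootin v h.vb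
    · exact hE.rootin x h1
  · intro x y hxy
    rcases (mem_sup h _ _).1 hxy with ⟨rfl, rfl⟩ | ⟨h1, h2, h3⟩
    · rw [reach_sup_iff h hv.symm hav]
      exact hE.reach x v h.av
    · rw [reach_sup_iff h hv.symm h2]
      exact hE.reach x y h1
  · intro x y hxy
    rcases (mem_sup h _ _).1 hxy with ⟨rfl, rfl⟩ | ⟨h1, h2, h3⟩
    · obtain ⟨c, hc, h4⟩ := hE.coreach v y h.vb
      exact ⟨c, hc, (reach_sup_iff h hvb.symm (hvA c hc)).2 h4⟩
    · obtain ⟨c, hc, h4⟩ := hE.coreach x y h1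
      exact ⟨c, hc, (reach_sup_iff h h3 (hvA c hc)).2 h4⟩
  · intro x hx y hy
    rcases (mem_sup h _ _).1 hy with ⟨rfl, rfl⟩ | ⟨h1, h2, h3⟩
    · exact hE.leaf x hx v h.av
    · exact hE.leaf x hx y h1
  · intro x hx
    exact (reach_sup_iff h hv.symm (hvA x hx)).2 (hE.reachA x hx)
  · intro w hw
    by_cases hwv : w = v
    · subst hwv
      obtain ⟨x, hx⟩ := hE.neA
      exact ⟨x, hx, avR_of_not_vt (not_vt_sup hE.acyc h) hv.symm
        ((reach_sup_iff h hv.symm (hvA x hx)).2 (hE.reachA x hx))⟩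
    · obtain ⟨x, hx, h1⟩ := hE.dom w hw
      exact ⟨x, hx, (avR_sup_iff h hwv hv.symm (hvA x hx)).2 h1⟩

theorem not_vt_cut {E : Gr V} {ρ : V} (h : ∀ x, (x, ρ) ∉ E) : ¬ Vt (cut E ρ) ρ := by
  rintro ⟨y, hy | hy⟩
  · exact (mem_cut.1 hy).2 rfl
  · exact h y (mem_cut.1 hy).1

theorem Tri.ρx {E : Gr V} {ρ x y z : V} (h : Tri E ρ x y z) : (ρ, x) ∈ E := (h.hr x).2 (Or.inl rfl)
theorem Tri.ρy {E : Gr V} {ρ x y z : V} (h : Tri E ρ x y z) : (ρ, y) ∈ E := (h.hr y).2 (Or.inr rfl)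
theorem Tri.exy {E : Gr V} {ρ x y z : V} (h : Tri E ρ x y z) : (x, y) ∈ E := (h.hx y).2 (Or.inl rfl)
theorem Tri.exz {E : Gr V} {ρ x y z : V} (h : Tri E ρ x y z) : (x, z) ∈ E := (h.hx z).2 (Or.inr rfl)

/-- What is reachable from `ρ` is `ρ` or reachable from `x`, in a root triangle. -/
theorem Tri.reach {E : Gr V} {ρ x y z : V} (h : Tri E ρ x y z) {w : V} (hw : Reach E ρ w) :
    w = ρ ∨ Reach E x w := by
  rcases ReflTransGen.cases_head hw with h1 | ⟨u, hu, huw⟩
  · exact Or.inl h1.symm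
  · rcases (h.hr u).1 hu with rfl | rfl
    · exact Or.inr huw
    · exact Or.inr (ReflTransGen.head h.exy huw)

theorem CR.cutt {E : Gr V} {ρ : V} {A : Finset V} (hE : CR E ρ A) {x y z : V}
    (h : Tri E ρ x y z) : CR (cut E ρ) x A := by
  have hρx : x ≠ ρ := (hE.acyc.ne h.ρx).symm
  have hρA : ∀ a ∈ A, a ≠ ρ := by
    rintro a ha rfl
    exact hE.leaf a ha x h.ρx
  have rx : ∀ {w : V}, w ≠ ρ → Reach E ρ w → Reach (cut E ρ) x w := by
    intro w hw hr
    rw [reach_cut_iff hE.rootin hρx]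
    exact (h.reach hr).resolve_left hw
  refine ⟨hE.acyc.mono (cut_subset _ _), ?_, ?_, ?_, ?_, hE.neA, ?_, ?_⟩
  · intro w hw
    obtain ⟨hw1, hw2⟩ := mem_cut.1 hw
    have h1 := (h.reach (hE.reach w x hw1)).resolve_left hw2
    exact hE.acyc w x hw1 h1
  · intro u w huw
    obtain ⟨h1, h2⟩ := mem_cut.1 huw
    exact rx h2 (hE.reach u w h1)
  · intro u w huw
    obtain ⟨h1, h2⟩ := mem_cut.1 huw
    obtain ⟨a, ha, h3⟩ := hE.coreach u w h1
    refine ⟨a, ha, (reach_cut_iff hE.rootin ?_).2 h3⟩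
    rintro rfl
    exact hE.rootin _ h1
  · intro a ha w hw
    exact hE.leaf a ha w (mem_cut.1 hw).1
  · intro a ha
    exact rx (hρA a ha) (hE.reachA a ha)
  · intro v hv
    by_cases hvρ : v = ρ
    · obtain ⟨a, ha⟩ := hE.neA
      rw [hvρ]
      exact ⟨a, ha, avR_of_not_vt (not_vt_cut hE.rootin) hρx (rx (hρA a ha) (hE.reachA a ha))⟩
    · obtain ⟨a, ha, h1⟩ := hE.dom v hvρ
      refine ⟨a, ha, hv.symm, ?_⟩
      rw [rp_cut_iff hE.rootin hρx]
      rcases ReflTransGen.cases_head h1.2 with h2 | ⟨u, hu, hua⟩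
      · exact absurd h2.symm (hρA a ha)
      · rcases (h.hr u).1 hu.1 with rfl | rfl
        · exact hua
        · exact ReflTransGen.head ⟨h.exy, hu.2⟩ hua

theorem CR.step {c : Prop} {A : Finset V} {p q : V × Gr V} (hp : CR p.2 p.1 A) (h : RS c p q) :
    CR q.2 q.1 A := by
  cases h with
  | sup hv h => exact hp.supp hv h
  | root _ h => exact hp.cutt h

theorem CR.steps {c : Prop} {A : Finset V} {p q : V × Gr V} (hp : CR p.2 p.1 A)
    (h : RSs c p q) : CR q.2 q.1 A := by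
  induction h with
  | refl => exact hp
  | tail _ h ih => exact ih.step h

theorem RS.vt {c : Prop} {A : Finset V} {p q : V × Gr V} (hp : CR p.2 p.1 A) (h : RS c p q)
    {x : V} (hx : Vt q.2 x) : Vt p.2 x := by
  cases h with
  | sup hv h => exact ((vt_sup hp.acyc h).1 hx).1
  | root _ h =>
    obtain ⟨y, hy | hy⟩ := hx
    · exact ⟨y, Or.inl (mem_cut.1 hy).1⟩
    · exact ⟨y, Or.inr (mem_cut.1 hy).1⟩

theorem RSs.vt {c : Prop} {A : Finset V} {p q : V × Gr V} (hp : CR p.2 p.1 A) (h : RSs c p q)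
    {x : V} (hx : Vt q.2 x) : Vt p.2 x := by
  induction h using ReflTransGen.head_induction_on with
  | refl => exact hx
  | head h1 _ ih => exact h1.vt hp (ih (hp.step h1))

theorem RS.card {c : Prop} {A : Finset V} {p q : V × Gr V} (hp : CR p.2 p.1 A) (h : RS c p q) :
    q.2.card < p.2.card := by
  cases h with
  | sup hv h => exact card_sup hp.acyc h
  | root _ h =>
    refine Finset.card_lt_card ⟨cut_subset _ _, fun h' => ?_⟩
    exact (mem_cut.1 (h' h.ρx)).2 rfl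

theorem RSs.card {c : Prop} {A : Finset V} {p q : V × Gr V} (hp : CR p.2 p.1 A)
    (h : RSs c p q) : q.2.card ≤ p.2.card := by
  induction h using ReflTransGen.head_induction_on with
  | refl => exact le_rfl
  | head h1 _ ih => exact (ih (hp.step h1)).trans (h1.card hp).le

/-- The old root stays the root or disappears. -/
theorem RSs.root_or {c : Prop} {A : Finset V} {p q : V × Gr V} (hp : CR p.2 p.1 A)
    (h : RSs c p q) : p.1 = q.1 ∨ ¬ Vt q.2 p.1 := by
  induction h using ReflTransGen.head_induction_on with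
  | refl => exact Or.inl rfl
  | head h1 h2 ih =>
    cases h1 with
    | sup hv h => exact ih (hp.supp hv h)
    | root _ h =>
      right
      intro h'
      exact not_vt_cut hp.rootin (RSs.vt (hp.cutt h) h2 h')

end Pool.Agent.NH85.SD
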