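import Pool.Agent.NH85.SD.Pre

/-!
# Sets of arcs of paths; arcs that all paths of a piece contain
-/

namespace Pool.Agent.NH85.SD

set_option linter.unusedSectionVars false

open Relation

variable {V : Type} [DecidableEq V]

/-- The set of arcs of a directed path from `x` to `y`. -/
structure PSet (E Q : Gr V) (x y : V) : Prop where
  sub : Q ⊆ E
  chain : ∀ e ∈ Q, ∀ f ∈ Q, e = f ∨ Reach E e.2 f.1 ∨ Reach E f.2 e.1
  inn : ∀ z w, (z, w) ∈ Q → z = x ∨ ∃ z', (z', z) ∈ Q
  outt : ∀ z w, (z, w) ∈ Q → w = y ∨ ∃ w', (w, w') ∈ Q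
  start : x ≠ y → ∃ w, (x, w) ∈ Q
  stop : x ≠ y → ∃ w, (w, y) ∈ Q
  fromx : ∀ z w, (z, w) ∈ Q → Reach E x z
  toy : ∀ z w, (z, w) ∈ Q → Reach E w y

theorem exists_pset {E : Gr V} {P : V → Prop} {x y : V} (h : RP E P x y) :
    ∃ Q, PSet E Q x y ∧ RP Q P x y := by
  induction h using ReflTransGen.head_induction_on with
  | refl =>
    refine ⟨∅, ⟨Finset.empty_subset _, ?_, ?_, ?_, fun h => absurd rfl h, fun h => absurd rfl h,
      ?_, ?_⟩, ReflTransGen.refl⟩ <;> simp
  | head hxz hzy ih =>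
    rename_i x z
    obtain ⟨Q, hQ, hR⟩ := ih
    refine ⟨insert (x, z) Q, ⟨?_, ?_, ?_, ?_, ?_, ?_, ?_, ?_⟩, ?_⟩
    · intro e he
      rcases Finset.mem_insert.1 he with rfl | he
      · exact hxz.1
      · exact hQ.sub he
    · intro e he f hf
      rcases Finset.mem_insert.1 he with rfl | he
      · rcases Finset.mem_insert.1 hf with rfl | hf
        · exact Or.inl rfl
        · exact Or.inr (Or.inl (hQ.fromx f.1 f.2 hf))
      · rcases Finset.mem_insert.1 hf with rfl | hf
        · exact Or.inr (Or.inr (hQ.fromx e.1 e.2 he))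
        · exact hQ.chain e he f hf
    · intro u w huw
      rcases Finset.mem_insert.1 huw with h1 | h1
      · simp only [Prod.mk.injEq] at h1
        exact Or.inl h1.1
      · rcases hQ.inn u w h1 with rfl | ⟨z', hz'⟩
        · exact Or.inr ⟨x, Finset.mem_insert_self _ _⟩
        · exact Or.inr ⟨z', Finset.mem_insert_of_mem hz'⟩
    · intro u w huw
      rcases Finset.mem_insert.1 huw with h1 | h1
      · simp only [Prod.mk.injEq] at h1
        obtain ⟨rfl, rfl⟩ := h1
        by_cases hwy : w = y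
        · exact Or.inl hwy
        · obtain ⟨w', hw'⟩ := hQ.start hwy
          exact Or.inr ⟨w', Finset.mem_insert_of_mem hw'⟩
      · rcases hQ.outt u w h1 with rfl | ⟨w', hw'⟩
        · exact Or.inl rfl
        · exact Or.inr ⟨w', Finset.mem_insert_of_mem hw'⟩
    · exact fun _ => ⟨z, Finset.mem_insert_self _ _⟩
    · intro _
      by_cases hzy' : z = y
      · rw [← hzy']
        exact ⟨x, Finset.mem_insert_self _ _⟩
      · obtain ⟨w, hw⟩ := hQ.stop hzy'
        exact ⟨w, Finset.mem_insert_of_mem hw⟩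
    · intro u w huw
      rcases Finset.mem_insert.1 huw with h1 | h1
      · simp only [Prod.mk.injEq] at h1
        rw [h1.1]
        exact ReflTransGen.refl
      · exact ReflTransGen.head hxz.1 (hQ.fromx u w h1)
    · intro u w huw
      rcases Finset.mem_insert.1 huw with h1 | h1
      · simp only [Prod.mk.injEq] at h1
        rw [h1.2]
        exact RP.reach hzy
      · exact hQ.toy u w h1
    · refine ReflTransGen.head ⟨Finset.mem_insert_self _ _, hxz.2⟩ ?_
      exact hR.mono (fun _ _ h => Finset.mem_insert_of_mem h) fun _ h => h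

theorem exists_pset_ip {E : Gr V} {W : V → Prop} {x y : V} (h : IP E W x y) (hxy : x ≠ y) :
    ∃ Q, PSet E Q x y ∧ IP Q W x y := by
  obtain ⟨u, h1, h2⟩ := h
  obtain ⟨Q, hQ, hR⟩ := exists_pset h1
  have hc : ∀ e ∈ Q, Reach E e.2 u := fun e he => hQ.toy e.1 e.2 he
  refine ⟨insert (u, y) Q, ⟨?_, ?_, ?_, ?_, ?_, ?_, ?_, ?_⟩, u, ?_, Finset.mem_insert_self _ _⟩
  · intro e he
    rcases Finset.mem_insert.1 he with rfl | he
    · exact h2
    · exact hQ.sub he
  · intro e he f hf
    rcases Finset.mem_insert.1 he with rfl | he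
    · rcases Finset.mem_insert.1 hf with rfl | hf
      · exact Or.inl rfl
      · exact Or.inr (Or.inr (hc f hf))
    · rcases Finset.mem_insert.1 hf with rfl | hf
      · exact Or.inr (Or.inl (hc e he))
      · exact hQ.chain e he f hf
  · intro z w hzw
    rcases Finset.mem_insert.1 hzw with h3 | h3
    · simp only [Prod.mk.injEq] at h3
      obtain ⟨rfl, rfl⟩ := h3
      by_cases hxz : x = z
      · exact Or.inl hxz.symm
      · obtain ⟨w', hw'⟩ := hQ.stop hxz
        exact Or.inr ⟨w', Finset.mem_insert_of_mem hw'⟩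
    · rcases hQ.inn z w h3 with rfl | ⟨z', hz'⟩
      · exact Or.inl rfl
      · exact Or.inr ⟨z', Finset.mem_insert_of_mem hz'⟩
  · intro z w hzw
    rcases Finset.mem_insert.1 hzw with h3 | h3
    · simp only [Prod.mk.injEq] at h3
      exact Or.inl h3.2
    · rcases hQ.outt z w h3 with rfl | ⟨z', hz'⟩
      · exact Or.inr ⟨y, Finset.mem_insert_self _ _⟩
      · exact Or.inr ⟨z', Finset.mem_insert_of_mem hz'⟩
  · intro _
    by_cases hxu : x = u
    · rw [hxu]
      exact ⟨y, Finset.mem_insert_self _ _⟩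
    · obtain ⟨w, hw⟩ := hQ.start hxu
      exact ⟨w, Finset.mem_insert_of_mem hw⟩
  · exact fun _ => ⟨u, Finset.mem_insert_self _ _⟩
  · intro z w hzw
    rcases Finset.mem_insert.1 hzw with h3 | h3
    · simp only [Prod.mk.injEq] at h3
      rw [h3.1]
      exact h1.reach
    · exact hQ.fromx z w h3
  · intro z w hzw
    rcases Finset.mem_insert.1 hzw with h3 | h3
    · simp only [Prod.mk.injEq] at h3
      rw [h3.2]
      exact ReflTransGen.refl
    · exact ReflTransGen.tail (hQ.toy z w h3) h2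
  · exact hR.mono (fun _ _ h => Finset.mem_insert_of_mem h) fun _ h => h

/-! ### Deletion of one arc -/

theorem rp_erase {X : Gr V} {P : V → Prop} {x y u v : V} (h : RP X P x y)
    (hu : ¬ Reach X x u) : RP (X.erase (u, v)) P x y := by
  induction h using ReflTransGen.head_induction_on with
  | refl => exact ReflTransGen.refl
  | head hxz hzy ih =>
    rename_i x z
    refine ReflTransGen.head ⟨Finset.mem_erase.2 ⟨?_, hxz.1⟩, hxz.2⟩
      (ih fun h => hu (ReflTransGen.head hxz.1 h))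
    rintro h1
    simp only [Prod.mk.injEq] at h1
    exact hu (h1.1 ▸ ReflTransGen.refl)

theorem rp_erase' {X : Gr V} {P : V → Prop} {x y u v : V} (h : RP X P x y)
    (hv : ¬ Reach X v y) : RP (X.erase (u, v)) P x y := by
  induction h with
  | refl => exact ReflTransGen.refl
  | tail hxz hzy ih =>
    rename_i z y
    refine ReflTransGen.tail (ih fun h => hv (ReflTransGen.tail h hzy.1))
      ⟨Finset.mem_erase.2 ⟨?_, hzy.1⟩, hzy.2⟩
    rintro h1
    simp only [Prod.mk.injEq] at h1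
    exact hv (h1.2 ▸ ReflTransGen.refl)

theorem ip_erase {X : Gr V} {W : V → Prop} {x y u v : V} (h : IP X W x y)
    (hu : ¬ Reach X x u) : IP (X.erase (u, v)) W x y := by
  obtain ⟨w, h1, h2⟩ := h
  refine ⟨w, rp_erase h1 hu, Finset.mem_erase.2 ⟨?_, h2⟩⟩
  rintro h3
  simp only [Prod.mk.injEq] at h3
  exact hu (h3.1 ▸ h1.reach)

theorem IP.trans_rp {X : Gr V} {W : V → Prop} {x y z : V} (h : RP X (fun w => ¬ W w) x y)
    (h' : IP X W y z) : IP X W x z := by
  obtain ⟨u, h1, h2⟩ := h'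
  exact ⟨u, ReflTransGen.trans h h1, h2⟩

/-- A path either survives the deletion of an arc or runs through it. -/
theorem ip_erase_cases {X : Gr V} (hX : Acyc X) {W : V → Prop} {a b u v : V}
    (huv : (u, v) ∈ X) (h : IP X W a b) :
    IP (X.erase (u, v)) W a b ∨ (RP (X.erase (u, v)) (fun w => ¬ W w) a u ∧
      (v = b ∨ (¬ W v ∧ IP (X.erase (u, v)) W v b))) := by
  obtain ⟨w, h1, h2⟩ := h
  induction h1 using ReflTransGen.head_induction_on with
  | refl =>
    by_cases he : (w, b) = (u, v)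
    · right
      simp only [Prod.mk.injEq] at he
      obtain ⟨rfl, rfl⟩ := he
      exact ⟨ReflTransGen.refl, Or.inl rfl⟩
    · exact Or.inl (IP.edge (Finset.mem_erase.2 ⟨he, h2⟩))
  | head hxz hzy ih =>
    rename_i x z
    by_cases he : (x, z) = (u, v)
    · right
      simp only [Prod.mk.injEq] at he
      obtain ⟨rfl, rfl⟩ := he
      exact ⟨ReflTransGen.refl, Or.inr ⟨hxz.2, ip_erase ⟨w, hzy, h2⟩ (hX x z huv)⟩⟩
    · have h3 : (x, z) ∈ X.erase (u, v) := Finset.mem_erase.2 ⟨he, hxz.1⟩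
      rcases ih with h4 | ⟨h4, h5⟩
      · exact Or.inl (IP.cons h3 hxz.2 h4)
      · exact Or.inr ⟨ReflTransGen.head ⟨h3, hxz.2⟩ h4, h5⟩

/-! ### Upwards and downwards paths from inner vertices -/

theorem up {X : Gr V} {s : V} {q : V × Gr V} {lam : V → Option (V × V)} (hl : Lab X s q lam)
    {x : V} (h : Reach X s x) (hx : ¬ WS q.2 q.1 x) :
    (lam x = none ∧ RP X (fun w => ¬ WS q.2 q.1 w) s x) ∨
      ∃ a b, lam x = some (a, b) ∧ WS q.2 q.1 a ∧ RP X (fun w => ¬ WS q.2 q.1 w) a x := by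
  induction h with
  | refl => exact Or.inl ⟨hl.root.1, ReflTransGen.refl⟩
  | tail hxz hzy ih =>
    rename_i z y
    by_cases hz : WS q.2 q.1 z
    · obtain ⟨b, hb⟩ := hl.wi z y hzy hz hx
      exact Or.inr ⟨z, b, hb, hz, ReflTransGen.single ⟨hzy, hx⟩⟩
    · rw [← hl.ii z y hzy hz hx]
      rcases ih hz with ⟨h1, h2⟩ | ⟨a, b, h1, h2, h3⟩
      · exact Or.inl ⟨h1, ReflTransGen.tail h2 ⟨hzy, hx⟩⟩
      · exact Or.inr ⟨a, b, h1, h2, ReflTransGen.tail h3 ⟨hzy, hx⟩⟩

theorem down {X : Gr V} {s : V} {q : V × Gr V} {lam : V → Option (V × V)} (hl : Lab X s q lam)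
    {x t a b : V} (h : Reach X x t) (ht : WS q.2 q.1 t) (hx : ¬ WS q.2 q.1 x)
    (hlx : lam x = some (a, b)) : IP X (WS q.2 q.1) x b := by
  induction h using ReflTransGen.head_induction_on with
  | refl => exact absurd ht hx
  | head hxz hzy ih =>
    rename_i x z
    by_cases hz : WS q.2 q.1 z
    · rcases hl.iw x z hxz hx hz with ⟨a', ha'⟩ | ⟨h1, _⟩
      · rw [hlx] at ha'
        simp only [Option.some.injEq, Prod.mk.injEq] at ha'
        rw [ha'.2]
        exact IP.edge hxz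
      · rw [hlx] at h1
        exact absurd h1 (by simp)
    · refine IP.cons hxz hz (ih hz ?_)
      rw [← hl.ii x z hxz hx hz, hlx]

/-- An arc that is on all paths of the piece of `(a, b)` and whose end points have degree three in
`X` is `(a, b)`. -/
theorem critA {X : Gr V} {s : V} {A : Finset V} {q : V × Gr V} {lam : V → Option (V × V)}
    (hX : CR X s A) (hq : CR q.2 q.1 A) (hqA : q.1 ∉ A) (hl : Lab X s q lam) {a b u v : V}
    (huv : (u, v) ∈ X) (hab : (a, b) ∈ q.2) (ha : a ≠ q.1)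
    (hp : IP X (WS q.2 q.1) a b) (hn : ¬ IP (X.erase (u, v)) (WS q.2 q.1) a b)
    (h1 : ∃ c, c ≠ v ∧ (u, c) ∈ X) (h2 : ∃ w, w ≠ u ∧ (w, v) ∈ X) : (u, v) = (a, b) := by
  have hac := hX.acyc
  have hWa : WS q.2 q.1 a := ⟨⟨b, Or.inl hab⟩, ha⟩
  have hWb : WS q.2 q.1 b := ws_right hq hab
  have hWA : ∀ x ∈ A, WS q.2 q.1 x := by
    intro x hx
    refine ⟨hq.vtA hqA hx, ?_⟩
    rintro rfl
    exact hqA hx
  have hes : X.erase (u, v) ⊆ X := Finset.erase_subset _ _
  rcases ip_erase_cases hac huv hp with h3 | ⟨h3, h4⟩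
  · exact absurd h3 hn
  have hin : ∀ {x y : V}, (x, y) ∈ X → ∀ z w, (z, w) ≠ (x, y) → (x, y) ∈ X.erase (z, w) :=
    fun h z w hne => Finset.mem_erase.2 ⟨hne.symm, h⟩
  -- label of the arc
  have hlu : u ≠ a → ¬ WS q.2 q.1 u ∧ lam u = some (a, b) := by
    intro hua
    rcases ReflTransGen.cases_head h3 with h5 | ⟨z, hz, h5⟩
    · exact absurd h5.symm hua
    · have hWu : ¬ WS q.2 q.1 u := by
        rcases ReflTransGen.cases_tail h3 with h6 | ⟨_, _, h6⟩
        · exact absurd h6 hua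
        · exact h6.2
      refine ⟨hWu, ?_⟩
      obtain ⟨b', hb'⟩ := hl.wi a z (hes hz.1) hWa hz.2
      obtain ⟨h6, _⟩ := rp_lab hl hes h5 hz.2
      rw [hb'] at h6
      rcases h4 with rfl | ⟨hv, h7⟩
      · rcases hl.iw u v huv hWu hWb with ⟨a', ha'⟩ | ⟨h8, _⟩
        · rw [← h6] at ha'
          simp only [Option.some.injEq, Prod.mk.injEq] at ha'
          rw [← h6, ha'.2]
        · rw [← h6] at h8
          exact absurd h8 (by simp)
      · obtain ⟨w, h8, h9⟩ := h7
        obtain ⟨h10, _⟩ := rp_lab hl hes h8 hv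
        have hWw : ¬ WS q.2 q.1 w := by
          rcases ReflTransGen.cases_tail h8 with h11 | ⟨_, _, h11⟩
          · rw [h11]; exact hv
          · exact h11.2
        rw [← hl.ii u v huv hWu hv, ← h6] at h10
        rcases hl.iw w b (hes h9) hWw hWb with ⟨a', ha'⟩ | ⟨h11, _⟩
        · rw [← h10] at ha'
          simp only [Option.some.injEq, Prod.mk.injEq] at ha'
          rw [← h6, ha'.2]
        · rw [← h10] at h11
          exact absurd h11 (by simp)
  have hlv : v ≠ b → ¬ WS q.2 q.1 v ∧ lam v = some (a, b) ∧ IP (X.erase (u, v)) (WS q.2 q.1) v b := by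
    intro hvb
    obtain ⟨hv, h7⟩ := h4.resolve_left hvb
    refine ⟨hv, ?_, h7⟩
    by_cases hua : u = a
    · subst hua
      obtain ⟨b', hb'⟩ := hl.wi u v huv hWa hv
      obtain ⟨w, h8, h9⟩ := h7
      obtain ⟨h10, _⟩ := rp_lab hl hes h8 hv
      have hWw : ¬ WS q.2 q.1 w := by
        rcases ReflTransGen.cases_tail h8 with h11 | ⟨_, _, h11⟩
        · rw [h11]; exact hv
        · exact h11.2
      rw [hb'] at h10
      rcases hl.iw w b (hes h9) hWw hWb with ⟨a', ha'⟩ | ⟨h11, _⟩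
      · rw [← h10] at ha'
        simp only [Option.some.injEq, Prod.mk.injEq] at ha'
        rw [hb', ha'.2]
      · rw [← h10] at h11
        exact absurd h11 (by simp)
    · obtain ⟨h8, h9⟩ := hlu hua
      rw [← hl.ii u v huv h8 hv, h9]
  have hua : u = a := by
    by_contra hua
    obtain ⟨hWu, hlu⟩ := hlu hua
    obtain ⟨c, hcv, huc⟩ := h1
    refine hn (IP.trans_rp h3 ?_)
    have huc' : (u, c) ∈ X.erase (u, v) := hin huc u v fun h => hcv (Prod.mk.inj h).2.symm
    by_cases hWc : WS q.2 q.1 c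
    · rcases hl.iw u c huc hWu hWc with ⟨a', ha'⟩ | ⟨h8, _⟩
      · rw [hlu] at ha'
        simp only [Option.some.injEq, Prod.mk.injEq] at ha'
        rw [ha'.2]
        exact IP.edge huc'
      · rw [hlu] at h8
        exact absurd h8 (by simp)
    · refine IP.cons huc' hWc ?_
      obtain ⟨t, ht, h9⟩ := hX.co_vt (x := c) ⟨u, Or.inr huc⟩
      refine ip_erase (down (a := a) hl h9 (hWA t ht) hWc ?_) (hac u c huc)
      rw [← hl.ii u c huc hWu hWc, hlu]
  subst hua
  by_contra hne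
  have hvb : v ≠ b := by
    rintro rfl
    exact hne rfl
  obtain ⟨hWv, hlv1, h7⟩ := hlv hvb
  obtain ⟨w, hwu, hwv⟩ := h2
  have hwv' : (w, v) ∈ X.erase (u, v) := hin hwv u v fun h => hwu (Prod.mk.inj h).1.symm
  by_cases hWw : WS q.2 q.1 w
  · obtain ⟨b', hb'⟩ := hl.wi w v hwv hWw hWv
    rw [hlv1] at hb'
    simp only [Option.some.injEq, Prod.mk.injEq] at hb'
    exact hwu hb'.1.symm
  · rcases up hl (hX.reach w v hwv) hWw with ⟨h8, _⟩ | ⟨a', b', h8, _, h9⟩
    · rw [hl.ii w v hwv hWw hWv, hlv1] at h8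
      exact absurd h8 (by simp)
    · rw [hl.ii w v hwv hWw hWv, hlv1] at h8
      simp only [Option.some.injEq, Prod.mk.injEq] at h8
      obtain ⟨rfl, rfl⟩ := h8
      refine hn (IP.trans_rp (rp_erase' h9 (hac w v hwv)) (IP.cons hwv' hWv h7))

/-- An arc that is on all paths from the root to `b` and whose head has degree three in
`X` enters `b`. -/
theorem critB {X : Gr V} {s : V} {A : Finset V} {q : V × Gr V} {lam : V → Option (V × V)}
    (hX : CR X s A) (hl : Lab X s q lam) {b u v : V} (huv : (u, v) ∈ X)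
    (hp : IP X (WS q.2 q.1) s b) (hn : ¬ IP (X.erase (u, v)) (WS q.2 q.1) s b)
    (h2 : ∃ w, w ≠ u ∧ (w, v) ∈ X) : v = b := by
  have hac := hX.acyc
  have hes : X.erase (u, v) ⊆ X := Finset.erase_subset _ _
  rcases ip_erase_cases hac huv hp with h3 | ⟨h3, h4⟩
  · exact absurd h3 hn
  by_contra hvb
  obtain ⟨hv, h7⟩ := h4.resolve_left hvb
  obtain ⟨h5, _⟩ := rp_lab hl hes h3 hl.root.2
  have hWu : ¬ WS q.2 q.1 u := by
    rcases ReflTransGen.cases_tail h3 with h6 | ⟨_, _, h6⟩
    · rw [h6]; exact hl.root.2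
    · exact h6.2
  have hlv : lam v = none := by rw [← hl.ii u v huv hWu hv, ← h5]; exact hl.root.1
  obtain ⟨w, hwu, hwv⟩ := h2
  have hwv' : (w, v) ∈ X.erase (u, v) :=
    Finset.mem_erase.2 ⟨fun h => hwu (Prod.mk.inj h).1, hwv⟩
  by_cases hWw : WS q.2 q.1 w
  · obtain ⟨b', hb'⟩ := hl.wi w v hwv hWw hv
    rw [hlv] at hb'
    exact absurd hb' (by simp)
  · rcases up hl (hX.reach w v hwv) hWw with ⟨_, h9⟩ | ⟨a', b', h8, _⟩
    · exact hn (IP.trans_rp (rp_erase' h9 (hac w v hwv)) (IP.cons hwv' hv h7))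
    · rw [hl.ii w v hwv hWw hv, hlv] at h8
      exact absurd h8 (by simp)

end Pool.Agent.NH85.SD
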