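import Pool.Agent.H639R2.NTP.Comp
import Pool.Agent.NPC.Classes

/-!
# Languages in NP are decidable
-/

namespace Pool.Agent.NH85.SDN

open Pool.Agent.NPC

/-- The bit strings of length at most `n`. -/
def strs (n : ℕ) : List (List Bool) :=
  Nat.rec [[]] (fun _ l => [] :: (l.map (List.cons true) ++ l.map (List.cons false))) n

theorem mem_strs {n : ℕ} {w : List Bool} : w ∈ strs n ↔ w.length ≤ n := by
  induction n generalizing w with
  | zero => simp [strs]
  | succ n ih =>
    change w ∈ [] :: ((strs n).map (List.cons true) ++ (strs n).map (List.cons false)) ↔ _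
    cases w with
    | nil => simp
    | cons b w =>
      simp only [List.mem_cons, reduceCtorEq, List.mem_append, List.mem_map, List.cons.injEq,
        false_or, List.length_cons, Nat.add_le_add_iff_right]
      cases b <;> simp [ih]

theorem primrec_strs : Primrec strs := by
  unfold strs
  refine Primrec.nat_rec₁ _ ?_
  have h1 : Primrec (fun p : ℕ × List (List Bool) => p.2.map (List.cons true)) :=
    Primrec.list_map Primrec.snd (Primrec.list_cons.comp (Primrec.const true) Primrec.snd).to₂
  have h2 : Primrec (fun p : ℕ × List (List Bool) => p.2.map (List.cons false)) :=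
    Primrec.list_map Primrec.snd (Primrec.list_cons.comp (Primrec.const false) Primrec.snd).to₂
  exact (Primrec.list_cons.comp (Primrec.const []) (Primrec.list_append.comp h1 h2)).to₂

theorem primrec_eval (p : Polynomial ℕ) : Primrec (fun n : ℕ => p.eval n) := by
  induction p using Polynomial.induction_on' with
  | add p q hp hq =>
    simp only [Polynomial.eval_add]
    exact Primrec.nat_add.comp hp hq
  | monomial n a =>
    simp only [Polynomial.eval_monomial]
    have h : Primrec (fun x : ℕ => x ^ n) := by
      induction n with
      | zero => simpa using Primrec.const 1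
      | succ n ih =>
        simp only [pow_succ]
        exact Primrec.nat_mul.comp ih Primrec.id
    exact Primrec.nat_mul.comp (Primrec.const a) h

theorem primrec_pairBits : Primrec₂ pairBits := by
  unfold pairBits
  have h0 : Primrec₂ (fun (_ : List Bool × List Bool) (b : Bool) => [true, b]) :=
    (Primrec.list_cons.comp (Primrec.const true) (Primrec.list_cons.comp Primrec.snd
      (Primrec.const ([] : List Bool)))).to₂
  have h1 : Primrec (fun p : List Bool × List Bool => p.1.flatMap (fun b => [true, b])) :=
    Primrec.list_flatMap Primrec.fst h0
  have h2 : Primrec (fun p : List Bool × List Bool => false :: p.2) :=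
    Primrec.list_cons.comp (Primrec.const false) Primrec.snd
  exact (Primrec.list_append.comp h1 h2).to₂

/-- Languages in `NP` are decidable. -/
theorem computablePred_of_inNP {L : Set (List Bool)} (h : InNP L) :
    ComputablePred (fun x : List Bool => x ∈ L) := by
  obtain ⟨V, p, hV, h⟩ := h
  have h1 : PrimrecRel (fun (w x : List Bool) => V (pairBits x w) = [true]) :=
    Primrec.eq.comp ((Pool.Agent.H639R2.NTP.polyTime_primrec hV).comp
      (primrec_pairBits.comp Primrec.snd Primrec.fst)) (Primrec.const [true])
  have h2 : PrimrecPred (fun x : List Bool => ∃ w ∈ strs (p.eval x.length),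
      V (pairBits x w) = [true]) :=
    h1.exists_mem_list.comp (primrec_strs.comp ((primrec_eval p).comp Primrec.list_length))
      Primrec.id
  have h3 : PrimrecPred (fun x : List Bool => x ∈ L) := by
    refine h2.of_eq fun x => ?_
    rw [h x]
    simp only [mem_strs]
  obtain ⟨hd, h4⟩ := h3
  exact ⟨hd, h4.to_comp⟩

/-! ### The coding of data is computable -/

section

variable {α β : Type} [TEnc α] [TEnc β] [Primcodable α] [Primcodable β]

theorem primrec_bits_pair (ha : Primrec (bits : α → List Bool))
    (hb : Primrec (bits : β → List Bool)) : Primrec (bits : α × β → List Bool) := by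
  have h : (bits : α × β → List Bool) = fun p => true :: (bits p.1 ++ bits p.2) := by
    funext p
    rfl
  rw [h]
  exact Primrec.list_cons.comp (Primrec.const true)
    (Primrec.list_append.comp (ha.comp Primrec.fst) (hb.comp Primrec.snd))

theorem primrec_bits_sum (ha : Primrec (bits : α → List Bool))
    (hb : Primrec (bits : β → List Bool)) : Primrec (bits : α ⊕ β → List Bool) := by
  have h : (bits : α ⊕ β → List Bool) = fun p => Sum.casesOn p
      (fun a => true :: (T.nil.enc ++ bits a))
      (fun b => true :: ((T.node T.nil T.nil).enc ++ bits b)) := by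
    funext p
    cases p <;> rfl
  rw [h]
  refine Primrec.sumCasesOn Primrec.id ?_ ?_
  · exact (Primrec.list_cons.comp (Primrec.const true)
      (Primrec.list_append.comp (Primrec.const _) (ha.comp Primrec.snd))).to₂
  · exact (Primrec.list_cons.comp (Primrec.const true)
      (Primrec.list_append.comp (Primrec.const _) (hb.comp Primrec.snd))).to₂

theorem primrec_bits_list (ha : Primrec (bits : α → List Bool)) :
    Primrec (bits : List α → List Bool) := by
  have h : (bits : List α → List Bool) = fun l =>
      l.foldr (fun a acc => true :: (bits a ++ acc)) T.nil.enc := by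
    funext l
    induction l with
    | nil => rfl
    | cons a l ih =>
      rw [List.foldr_cons, ← ih]
      rfl
  rw [h]
  have h0 : Primrec₂ (fun (_ : List α) (p : α × List Bool) => true :: (bits p.1 ++ p.2)) :=
    (Primrec.list_cons.comp (Primrec.const true)
      (Primrec.list_append.comp (ha.comp (Primrec.fst.comp Primrec.snd))
      (Primrec.snd.comp Primrec.snd))).to₂
  exact Primrec.list_foldr Primrec.id (Primrec.const _) h0

theorem primrec_bits_bool : Primrec (bits : Bool → List Bool) := Primrec.dom_finite _

/-- One step of the computation of the binary digits. -/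
def nbStep (s : ℕ × List Bool) : ℕ × List Bool :=
  if s.1 = 0 then s else (s.1.div2, s.2 ++ [s.1.bodd])

theorem nbStep_iterate : ∀ (k n : ℕ) (acc : List Bool), n ≤ k →
    nbStep^[k] (n, acc) = (0, acc ++ n.bits)
  | 0, n, acc, h => by
    have : n = 0 := by omega
    subst this
    simp
  | k + 1, n, acc, h => by
    rw [Function.iterate_succ_apply]
    by_cases hn : n = 0
    · subst hn
      have : nbStep (0, acc) = (0, acc) := by simp [nbStep]
      rw [this, nbStep_iterate k 0 acc (Nat.zero_le _)]
    · have h1 : nbStep (n, acc) = (n.div2, acc ++ [n.bodd]) := by simp [nbStep, hn]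
      have h2 : n.div2 ≤ k := by
        rw [Nat.div2_val]
        omega
      rw [h1, nbStep_iterate k _ _ h2]
      have h3 : n.bits = n.bodd :: n.div2.bits := by
        conv_lhs => rw [← Nat.bit_bodd_div2 n]
        refine Nat.bits_append_bit _ _ ?_
        intro h4
        by_contra h5
        rw [Bool.not_eq_true] at h5
        have h6 := Nat.bit_bodd_div2 n
        rw [h4, h5] at h6
        exact hn (by simpa using h6.symm)
      rw [h3]
      simp

theorem primrec_natBits : Primrec Nat.bits := by
  have h : Nat.bits = fun n => (nbStep^[n] (n, [])).2 := by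
    funext n
    rw [nbStep_iterate n n [] le_rfl]
    simp
  rw [h]
  have h1 : Primrec (fun s : ℕ × List Bool => s.2 ++ [s.1.bodd]) :=
    Primrec.list_append.comp Primrec.snd
      (Primrec.list_cons.comp (Primrec.nat_bodd.comp Primrec.fst)
      (Primrec.const ([] : List Bool)))
  have h2 : Primrec nbStep := by
    unfold nbStep
    exact Primrec.ite (Primrec.eq.comp Primrec.fst (Primrec.const 0)) Primrec.id
      (Primrec.pair (Primrec.nat_div2.comp Primrec.fst) h1)
  have h3 : Primrec (fun n : ℕ => nbStep^[n] (n, ([] : List Bool))) :=
    Primrec.nat_iterate Primrec.id (Primrec.pair Primrec.id (Primrec.const ([] : List Bool)))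
      (h2.comp Primrec.snd).to₂
  exact Primrec.snd.comp h3

theorem primrec_bits_nat : Primrec (bits : ℕ → List Bool) :=
  (primrec_bits_list primrec_bits_bool).comp primrec_natBits

/-- Decision problems in `NP` about data with a computable coding are decidable. -/
theorem computablePred_of_inNPP {P : α → Prop} (ha : Primrec (bits : α → List Bool))
    (h : InNPP P) : ComputablePred P := by
  obtain ⟨hd, h1⟩ := computablePred_of_inNP h
  have h2 : ∀ a, bits a ∈ lang P ↔ P a := by
    intro a
    constructor
    · rintro ⟨b, hb, hP⟩
      have h3 : toT b = toT a := T.enc_injective hb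
      rwa [← TEnc.inj h3]
    · exact fun hP => ⟨a, rfl, hP⟩
  classical
  refine ⟨fun a => decidable_of_iff _ (h2 a), ?_⟩
  refine (h1.comp ha.to_comp).of_eq fun a => ?_
  exact decide_eq_decide.2 (h2 a)

end

end Pool.Agent.NH85.SDN
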