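import Pool.Agent.NH85.SD.Np
import Pool.Agent.NPC.Dec

/-!
# Compatibility is in NP
-/

namespace Pool.Agent.NH85.SDN

open Relation SD Pool.Agent.NPC

/-- bound for the number of arcs -/
noncomputable def Bp : Polynomial ℕ := 33 * Polynomial.X + 24 * Polynomial.X ^ 2

/-- bound for the sizes of names -/
noncomputable def Wp : Polynomial ℕ := 8 * Bp + Polynomial.X + 5

/-- bound for the certificate of one restriction -/
noncomputable def Dp : Polynomial ℕ := Wp + Bp * (3 * Wp + 7) + 2 * Bp * (2 * Wp + 2) + 4

/-- bound for certificates -/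
noncomputable def Pp : Polynomial ℕ := Wp + Bp * (2 * Wp + 2) + Polynomial.X * (Dp + 1) + 4

theorem sum_le (l : List MG) :
    (l.map (fun N => 2 + N.1.length + 2 * N.2.length)).sum ≤ 3 * sz l := by
  induction l with
  | nil => simp
  | cons N l ih =>
    obtain ⟨D, U⟩ := N
    have h1 := length_lt_sz D
    have h2 := length_lt_sz U
    simp only [List.map_cons, List.sum_cons, sz_list_cons, sz_pair]
    omega

theorem bnd_le (l : List MG) (T : ℕ) (hT : sz l ≤ T) : bnd l ≤ Bp.eval T := by
  have h1 := sum_le l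
  have h2 := length_lt_sz l
  unfold bnd Bp
  simp only [Polynomial.eval_add, Polynomial.eval_mul, Polynomial.eval_X, Polynomial.eval_pow,
    Polynomial.eval_ofNat]
  set s := (l.map (fun N => 2 + N.1.length + 2 * N.2.length)).sum
  have h3 : s ≤ 3 * T := by omega
  have h4 : l.length ≤ T := by omega
  have h5 : l.length * (s + l.length) ≤ T * (3 * T + T) := Nat.mul_le_mul h4 (by omega)
  nlinarith

theorem sz_verts {l : Ar} {v : Vx} (h : v ∈ verts l) : sz v ≤ sz l := by
  obtain ⟨⟨a, b⟩, he, h1⟩ := mem_verts'.1 h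
  have h2 := sz_le_of_mem he
  simp only [sz_pair] at h2
  simp only at h1
  rcases h1 with rfl | rfl <;> omega

theorem sz_verts_N {N : MG} {v : Vx} (h : v ∈ verts (N.1 ++ N.2)) : sz v ≤ sz N := by
  have h1 := sz_verts h
  have h2 := sz_append N.1 N.2
  obtain ⟨D, U⟩ := N
  simp only [sz_pair] at h1 h2 ⊢
  omega

theorem size_le' (n : ℕ) : n.size ≤ n := Nat.size_le.2 Nat.lt_two_pow_self

theorem RR_complete {c : Bool} {n : ℕ} {l : List MG} (h : Compatible (c = true) (n, l)) :
    ∃ w : Ct, sz w ≤ Pp.eval (sz (n, l)) ∧ RR c ((n, l), w) = true := by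
  have hl : l ≠ [] := h.1
  obtain ⟨X, E, ρ, hX, hE, htri, hG, hN, hXN, hcard, hname⟩ := small_witness h
  obtain ⟨es, hs, hes⟩ := exists_sorted (network_prenet hE).acyc
  subst hes
  have hlen : es.length = es.toFinset.card := (List.toFinset_card_of_nodup hs.1).symm
  set T := sz (n, l) with hT
  have hTl : sz l ≤ T := by
    rw [hT, sz_pair]
    omega
  set B := Bp.eval T with hB
  have hbB : bnd l ≤ B := bnd_le l T hTl
  set W := Wp.eval T with hW
  have hWe : W = 8 * B + T + 5 := by
    rw [hW, hB]
    unfold Wp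
    simp only [Polynomial.eval_add, Polynomial.eval_mul, Polynomial.eval_X,
      Polynomial.eval_ofNat]
  have hNT : ∀ N ∈ l, sz N ≤ T := fun N hN => (sz_le_of_mem hN).le.trans hTl
  have hv : ∀ v, IsVertex es.toFinset v → sz v ≤ W := by
    intro v hv
    cases v with
    | inl i =>
      obtain ⟨N, hN1, hN2⟩ := hXN i ((hE.leaves i).1 hv)
      have h1 : (Sum.inl i : Vx) ∈ leafL N := mem_leafL.2 (inl_mem_im.2 hN2)
      have h2 := sz_verts_N (List.mem_of_mem_filter h1)
      have h3 := hNT N hN1
      omega
    | inr j =>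
      have h1 := hname j hv
      have h2 := sz_nat_le j
      have h3 := size_le' j
      rw [sz_inr]
      omega
  have hd : ∀ N ∈ l, ∃ d : Dt, okN c es ρ N d = true ∧ sz d ≤ Dp.eval T := by
    intro N hNl
    obtain ⟨s, q, h1, h2, h3⟩ := hG N hNl
    obtain ⟨⟨s', ms, S⟩, g1, g2, g3, g4, g5, g6⟩ := okN_complete hs hE (hN N hNl) h1 h2 h3
    refine ⟨_, g1, ?_⟩
    simp only at g2 g3 g4 g5 g6
    have k1 := hv _ g2
    have k2 : sz ms ≤ B * (3 * W + 7) + 1 := by
      refine (sz_le_length_mul ms (3 * W + 6) ?_).trans ?_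
      · rintro ⟨b, x, y, z⟩ hm
        obtain ⟨e1, e2, e3⟩ := g4 _ hm
        have f1 := hv _ e1
        have f2 := hv _ e2
        have f3 := hv _ e3
        have f4 := sz_bool_le b
        simp only at f1 f2 f3
        simp only [sz_pair]
        omega
      · have : ms.length ≤ B := by omega
        exact Nat.add_le_add_right (Nat.mul_le_mul_right _ this) 1
    have k3 : sz S ≤ 2 * B * (2 * W + 2) + 1 := by
      refine (sz_le_length_mul S (2 * W + 1) ?_).trans ?_
      · rintro ⟨x, y⟩ hp
        obtain ⟨e1, e2⟩ := g6 _ hp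
        have f1 := hv _ e1
        have f2 := sz_verts_N e2
        have f3 := hNT N hNl
        simp only at f1 f2
        simp only [sz_pair]
        omega
      · have : S.length ≤ 2 * B := by omega
        exact Nat.add_le_add_right (Nat.mul_le_mul_right _ this) 1
    have k4 : Dp.eval T = W + B * (3 * W + 7) + 2 * B * (2 * W + 2) + 4 := by
      unfold Dp
      simp only [Polynomial.eval_add, Polynomial.eval_mul, Polynomial.eval_ofNat, ← hW, ← hB]
    rw [k4]
    simp only [sz_pair]
    omega
  choose! f hf using hd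
  refine ⟨(ρ, es, l.map f), ?_, ?_⟩
  · have k0 : sz ρ ≤ W := by
      obtain ⟨y, hy⟩ := (network_prenet hE).rootout
      exact hv ρ ⟨y, Or.inl hy⟩
    have k1 : sz es ≤ B * (2 * W + 2) + 1 := by
      refine (sz_le_length_mul es (2 * W + 1) ?_).trans ?_
      · rintro ⟨x, y⟩ hp
        have f1 := hv x ⟨y, Or.inl (List.mem_toFinset.2 hp)⟩
        have f2 := hv y ⟨x, Or.inr (List.mem_toFinset.2 hp)⟩
        simp only [sz_pair]
        omega
      · have : es.length ≤ B := by omega
        exact Nat.add_le_add_right (Nat.mul_le_mul_right _ this) 1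
    have k2 : sz (l.map f) ≤ T * (Dp.eval T + 1) + 1 := by
      refine (sz_le_length_mul (l.map f) (Dp.eval T) ?_).trans ?_
      · intro d hd
        obtain ⟨N, hN, rfl⟩ := List.mem_map.1 hd
        exact (hf N hN).2
      · have h2 := length_lt_sz l
        have : (l.map f).length ≤ T := by
          rw [List.length_map]
          omega
        exact Nat.add_le_add_right (Nat.mul_le_mul_right _ this) 1
    have k3 : Pp.eval T = W + B * (2 * W + 2) + T * (Dp.eval T + 1) + 4 := by
      unfold Pp
      simp only [Polynomial.eval_add, Polynomial.eval_mul, Polynomial.eval_ofNat,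
        Polynomial.eval_X, Polynomial.eval_one, ← hW, ← hB]
    rw [k3]
    simp only [sz_pair]
    omega
  · unfold RR
    simp only [Bool.and_eq_true]
    refine ⟨?_, chk_iff.2 hs, (netOK_iff hs.1 hE.acyclic hE.leaves).2 hE,
      (cond_iff noTri_iff).2 htri, ?_, ?_⟩
    · cases l with
      | nil => exact absurd rfl hl
      | cons N l => rfl
    · rw [List.all_eq_true]
      intro v hv
      cases v with
      | inl i =>
        have h1 := hX ((hE.leaves i).1 (mem_verts.1 hv))
        rw [Finset.mem_Icc] at h1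
        simp [h1]
      | inr j => rfl
    · rw [List.all_eq_true]
      intro N hN
      rw [List.any_eq_true]
      exact ⟨f N, List.mem_map.2 ⟨N, hN, rfl⟩, (hf N hN).1⟩

theorem compatible_inNP (c : Bool) : InNPP (Compatible (c = true)) := by
  refine inNPP_of (RR_poly c) Pp ?_
  rintro ⟨n, l⟩
  constructor
  · exact RR_complete
  · rintro ⟨w, _, hw⟩
    exact RR_sound hw

end Pool.Agent.NH85.SDN
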