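import Pool.Agent.NH85.SD.Mono

/-!
# Labels of the vertices by the arcs of the simplified graph
-/

namespace Pool.Agent.NH85.SD

set_option linter.unusedSectionVars false

open Relation

variable {V : Type} [DecidableEq V]

theorem ws_right {A : Finset V} {q : V × Gr V} (hq : CR q.2 q.1 A) {a b : V}
    (hab : (a, b) ∈ q.2) : WS q.2 q.1 b := by
  refine ⟨⟨a, Or.inr hab⟩, ?_⟩
  rintro rfl
  exact hq.rootin _ hab

theorem sup_not_ws {c : Prop} {A : Finset V} {q : V × Gr V} {ρ : V} {X : Gr V} {a v b : V}
    (hp : CR X ρ A) (hv : v ≠ ρ) (h : Thin X a v b) (hr : RSs c (ρ, sup X a v b) q) :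
    ¬ WS q.2 q.1 v := fun h' => not_vt_sup hp.acyc h (RSs.vt (hp.supp hv h) hr h'.1)

theorem tri_not_ws_x {c : Prop} {A : Finset V} {q : V × Gr V} {ρ : V} {X : Gr V} {x y z : V}
    (hp : CR X ρ A) (h : Tri X ρ x y z) (hr : RSs c (x, cut X ρ) q) :
    ¬ WS q.2 q.1 x := by
  rintro ⟨h3, h4⟩
  rcases RSs.root_or (hp.cutt h) hr with h5 | h5
  · exact h4 h5
  · exact h5 h3

theorem tri_not_ws_r {c : Prop} {A : Finset V} {q : V × Gr V} {ρ : V} {X : Gr V} {x y z : V}
    (hp : CR X ρ A) (h : Tri X ρ x y z) (hr : RSs c (x, cut X ρ) q) :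
    ¬ WS q.2 q.1 ρ := fun h' => not_vt_cut hp.rootin (RSs.vt (hp.cutt h) hr h'.1)

/-- Every arc of the simplified graph comes from a path. -/
theorem paths {c : Prop} {A : Finset V} {q p : V × Gr V} (h : RSs c p q) (hp : CR p.2 p.1 A) :
    (∀ a b, (a, b) ∈ q.2 → a ≠ q.1 → IP p.2 (WS q.2 q.1) a b) ∧
      (∀ b, (q.1, b) ∈ q.2 → IP p.2 (WS q.2 q.1) p.1 b) := by
  induction h using ReflTransGen.head_induction_on with
  | refl => exact ⟨fun a b hab _ => IP.edge hab, fun b hb => IP.edge hb⟩
  | head hstep hrest ih =>
    have hp1 := hp.step hstep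
    have hqc : CR q.2 q.1 A := hp1.steps hrest
    obtain ⟨i1, i2⟩ := ih hp1
    cases hstep with
    | sup hv h =>
      rename_i ρ X a v b
      have hvW := sup_not_ws hp hv h hrest
      have hav := hp.acyc.ne h.av
      refine ⟨fun a' b' hab ha => ?_, fun b' hb => ?_⟩
      · have := i1 a' b' hab ha
        rwa [ip_sup_iff h hvW _ _ hav] at this
        · rintro rfl
          exact hvW ⟨⟨_, Or.inl hab⟩, ha⟩
        · rintro rfl
          exact hvW (ws_right hqc hab)
      · have := i2 b' hb
        rwa [ip_sup_iff h hvW hv.symm _ hav] at this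
        rintro rfl
        exact hvW (ws_right hqc hb)
    | root hc h =>
      rename_i ρ X x y z
      refine ⟨fun a' b' hab ha => (i1 a' b' hab ha).mono (cut_subset _ _), fun b' hb => ?_⟩
      exact IP.cons h.ρx (tri_not_ws_x hp h hrest) ((i2 b' hb).mono (cut_subset _ _))

/-- A labelling of the vertices outside `W` by arcs of the simplified graph. -/
structure Lab (X : Gr V) (ρ : V) (q : V × Gr V) (lam : V → Option (V × V)) : Prop where
  ii : ∀ x y, (x, y) ∈ X → ¬ WS q.2 q.1 x → ¬ WS q.2 q.1 y → lam x = lam y
  wi : ∀ x y, (x, y) ∈ X → WS q.2 q.1 x → ¬ WS q.2 q.1 y → ∃ b, lam y = some (x, b)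
  iw : ∀ x y, (x, y) ∈ X → ¬ WS q.2 q.1 x → WS q.2 q.1 y →
    (∃ a, lam x = some (a, y)) ∨ (lam x = none ∧ (q.1, y) ∈ q.2)
  ww : ∀ x y, (x, y) ∈ X → WS q.2 q.1 x → WS q.2 q.1 y → (x, y) ∈ q.2
  root : lam ρ = none ∧ ¬ WS q.2 q.1 ρ
  some : ∀ x a b, lam x = some (a, b) → (a, b) ∈ q.2 ∧ a ≠ q.1

theorem exists_lab {c : Prop} {A : Finset V} {q p : V × Gr V} (h : RSs c p q)
    (hp : CR p.2 p.1 A) : ∃ lam, Lab p.2 p.1 q lam := by
  induction h using ReflTransGen.head_induction_on with
  | refl =>
    refine ⟨fun _ => none, fun _ _ _ _ _ => rfl, ?_, ?_, fun _ _ h _ _ => h, ⟨rfl, fun h => h.2 rfl⟩,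
      fun _ _ _ h => by simp at h⟩
    · intro x y hxy _ hy
      exact absurd (ws_right hp hxy) hy
    · intro x y hxy hx _
      right
      refine ⟨rfl, ?_⟩
      have : x = q.1 := by
        by_contra hne
        exact hx ⟨⟨_, Or.inl hxy⟩, hne⟩
      rwa [← this]
  | head hstep hrest ih =>
    have hp1 := hp.step hstep
    have hqc : CR q.2 q.1 A := hp1.steps hrest
    obtain ⟨lam, hl⟩ := ih hp1
    cases hstep with
    | sup hv h =>
      rename_i ρ X a v b
      have hvW := sup_not_ws hp hv h hrest
      have hav := hp.acyc.ne h.av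
      have hvb := hp.acyc.ne h.vb
      have hab : (a, b) ∈ sup X a v b := (mem_sup h _ _).2 (Or.inl ⟨rfl, rfl⟩)
      have hold : ∀ {x y : V}, (x, y) ∈ X → x ≠ v → y ≠ v → (x, y) ∈ sup X a v b :=
        fun h1 h2 h3 => (mem_sup h _ _).2 (Or.inr ⟨h1, h2, h3⟩)
      classical
      let l0 : Option (V × V) :=
        if WS q.2 q.1 a then (if WS q.2 q.1 b then Option.some (a, b) else lam b) else lam a
      have hne : ∀ x, x ≠ v → Function.update lam v l0 x = lam x := fun x hx =>
        Function.update_of_ne hx _ _
      have heq : Function.update lam v l0 v = l0 := Function.update_self _ _ _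
      refine ⟨Function.update lam v l0, ?_, ?_, ?_, ?_, ?_, ?_⟩
      · intro x y hxy hx hy
        by_cases hxv : x = v
        · subst hxv
          obtain rfl := (h.hout y).1 hxy
          rw [heq, hne y hvb.symm]
          by_cases ha : WS q.2 q.1 a
          · simp only [l0, if_pos ha, if_neg hy]
          · simp only [l0, if_neg ha]
            exact hl.ii a y hab ha hy
        · by_cases hyv : y = v
          · subst hyv
            obtain rfl := (h.hin x).1 hxy
            rw [heq, hne x hxv]
            simp only [l0, if_neg hx]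
          · rw [hne x hxv, hne y hyv]
            exact hl.ii x y (hold hxy hxv hyv) hx hy
      · intro x y hxy hx hy
        have hxv : x ≠ v := by rintro rfl; exact hvW hx
        by_cases hyv : y = v
        · subst hyv
          obtain rfl := (h.hin x).1 hxy
          rw [heq]
          by_cases hb : WS q.2 q.1 b
          · exact ⟨b, by simp only [l0, if_pos hx, if_pos hb]⟩
          · simp only [l0, if_pos hx, if_neg hb]
            exact hl.wi x b hab hx hb
        · rw [hne y hyv]
          exact hl.wi x y (hold hxy hxv hyv) hx hy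
      · intro x y hxy hx hy
        have hyv : y ≠ v := by rintro rfl; exact hvW hy
        by_cases hxv : x = v
        · subst hxv
          obtain rfl := (h.hout y).1 hxy
          rw [heq]
          by_cases ha : WS q.2 q.1 a
          · exact Or.inl ⟨a, by simp only [l0, if_pos ha, if_pos hy]⟩
          · simp only [l0, if_neg ha]
            exact hl.iw a y hab ha hy
        · rw [hne x hxv]
          exact hl.iw x y (hold hxy hxv hyv) hx hy
      · intro x y hxy hx hy
        have hxv : x ≠ v := by rintro rfl; exact hvW hx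
        have hyv : y ≠ v := by rintro rfl; exact hvW hy
        exact hl.ww x y (hold hxy hxv hyv) hx hy
      · rw [hne ρ hv.symm]
        exact hl.root
      · intro x a' b' hx
        by_cases hxv : x = v
        · subst hxv
          rw [heq] at hx
          by_cases ha : WS q.2 q.1 a
          · by_cases hb : WS q.2 q.1 b
            · simp only [l0, if_pos ha, if_pos hb, Option.some.injEq, Prod.mk.injEq] at hx
              obtain ⟨rfl, rfl⟩ := hx
              exact ⟨hl.ww _ _ hab ha hb, ha.2⟩
            · simp only [l0, if_pos ha, if_neg hb] at hx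
              exact hl.some _ _ _ hx
          · simp only [l0, if_neg ha] at hx
            exact hl.some _ _ _ hx
        · rw [hne x hxv] at hx
          exact hl.some _ _ _ hx
    | root hc h =>
      rename_i ρ X x y z
      have hρW := tri_not_ws_r hp h hrest
      have hρx := hp.acyc.ne h.ρx
      have hρy := hp.acyc.ne h.ρy
      obtain ⟨r1, r2⟩ := hl.root
      simp only at r1 r2 hl
      have hne : ∀ w, w ≠ ρ → Function.update lam ρ none w = lam w := fun w hw =>
        Function.update_of_ne hw _ _
      have heq : Function.update lam ρ none ρ = none := Function.update_self _ _ _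
      have hρn : ∀ {u w : V}, (u, w) ∈ X → w ≠ ρ := by
        rintro u w h1 rfl
        exact hp.rootin _ h1
      have hxy : (x, y) ∈ cut X ρ := mem_cut.2 ⟨h.exy, hρx.symm⟩
      refine ⟨Function.update lam ρ none, ?_, ?_, ?_, ?_, ?_, ?_⟩
      · intro u w huw hu hw
        rw [hne w (hρn huw)]
        by_cases huρ : u = ρ
        · subst huρ
          rw [heq]
          rcases (h.hr w).1 huw with rfl | rfl
          · exact r1.symm
          · rw [← hl.ii x w hxy r2 hw, r1]
        · rw [hne u huρ]
          exact hl.ii u w (mem_cut.2 ⟨huw, huρ⟩) hu hw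
      · intro u w huw hu hw
        rw [hne w (hρn huw)]
        have huρ : u ≠ ρ := by rintro rfl; exact hρW hu
        exact hl.wi u w (mem_cut.2 ⟨huw, huρ⟩) hu hw
      · intro u w huw hu hw
        by_cases huρ : u = ρ
        · subst huρ
          rcases (h.hr w).1 huw with rfl | rfl
          · exact absurd hw r2
          · rcases hl.iw x w hxy r2 hw with ⟨a, ha⟩ | h3
            · rw [r1] at ha
              exact absurd ha (by simp)
            · exact Or.inr ⟨heq, h3.2⟩
        · rw [hne u huρ]
          exact hl.iw u w (mem_cut.2 ⟨huw, huρ⟩) hu hw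
      · intro u w huw hu hw
        have huρ : u ≠ ρ := by rintro rfl; exact hρW hu
        exact hl.ww u w (mem_cut.2 ⟨huw, huρ⟩) hu hw
      · exact ⟨heq, hρW⟩
      · intro u a b hu
        by_cases huρ : u = ρ
        · subst huρ
          rw [heq] at hu
          exact absurd hu (by simp)
        · rw [hne u huρ] at hu
          exact hl.some _ _ _ hu

end Pool.Agent.NH85.SD
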