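import Pool.Agent.NH85.SD.Crit

/-!
# Minimal networks with prescribed restrictions
-/

namespace Pool.Agent.NH85.SD

set_option linter.unusedSectionVars false

open Relation

variable {V : Type} [DecidableEq V]

/-- The requirements on the classes `K i` of allowed restrictions to `A i`. -/
structure Fam (c : Prop) (L : V → Prop) {ι : Type} (A : ι → Finset V)
    (K : ι → V × Gr V → Prop) (m : ι → ℕ) : Prop where
  ne : ∀ i, (A i).Nonempty
  AL : ∀ i, ∀ a ∈ A i, L a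
  root : ∀ i q, K i q → ¬ L q.1
  thin : ∀ i q, K i q → ∀ a v b, v ≠ q.1 → ¬ Thin q.2 a v b
  tri : c → ∀ i q, K i q → ∀ x y, (q.1, x) ∈ q.2 → (q.1, y) ∈ q.2 → (x, y) ∉ q.2
  inv : ∀ i q σ, K i q → (∀ x, L x → σ x = x) → K i (mv σ q)
  card : ∀ i q, K i q → q.2.card ≤ m i

/-- The restriction of the network to `A i` is in `K i`, for all `i`. -/
def Sat (c : Prop) {ι : Type} (A : ι → Finset V) (K : ι → V × Gr V → Prop) (E : Gr V) (ρ : V) :
    Prop :=
  ∀ i, (∀ a ∈ A i, Reach E ρ a) ∧ ∃ s q, LSA E ρ (A i) s ∧ RSs c (s, PU E s (A i)) q ∧ K i q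

theorem exists_other_out {E : Gr V} {u v : V} (h : outdeg E u = 2) : ∃ c, c ≠ v ∧ (u, c) ∈ E := by
  obtain ⟨⟨a, b⟩, h1, h2⟩ := Finset.exists_mem_ne (s := E.filter (fun e => e.1 = u))
    (by unfold outdeg at h; omega) (u, v)
  rw [Finset.mem_filter] at h1
  obtain ⟨h3, rfl⟩ := h1
  exact ⟨b, fun h => h2 (by rw [h]), h3⟩

theorem exists_other_in {E : Gr V} {u v : V} (h : indeg E v = 2) : ∃ c, c ≠ u ∧ (c, v) ∈ E := by
  obtain ⟨⟨a, b⟩, h1, h2⟩ := Finset.exists_mem_ne (s := E.filter (fun e => e.2 = v))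
    (by unfold indeg at h; omega) (u, v)
  rw [Finset.mem_filter] at h1
  obtain ⟨h3, rfl⟩ := h1
  exact ⟨a, fun h => h2 (by rw [h]), h3⟩

section

variable {c : Prop} {L : V → Prop} {ι : Type} {A : ι → Finset V}
  {K : ι → V × Gr V → Prop} {m : ι → ℕ} {E : Gr V} {ρ : V}

theorem min_thin (F : Fam c L A K m) (h : PreNet L E ρ) (hs : Sat c A K E ρ)
    (hmin : ∀ E' ρ', PreNet L E' ρ' → Sat c A K E' ρ' → E.card ≤ E'.card) {a v b : V}
    (hv : v ≠ ρ) : ¬ Thin E a v b := by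
  intro ht
  have h1 := hmin (sup E a v b) ρ (h.supp hv ht) (by
    intro i
    obtain ⟨hr, s, q, h1, h2, h3⟩ := hs i
    have hleaf : ∀ x ∈ A i, ∀ y, (x, y) ∉ E := fun x hx y hxy => h.leafout x y hxy (F.AL i x hx)
    refine ⟨fun x hx => ?_, s, q, ?_⟩
    · rw [reach_sup_iff ht hv.symm]
      · exact hr x hx
      · rintro rfl
        exact h.leafout _ _ ht.vb (F.AL i _ hx)
    · obtain ⟨h4, h5⟩ := lsa_sup h.acyc (F.ne i) hr hleaf hv ht h1 h2 (F.thin i q h3)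
      exact ⟨h4, h5, h3⟩)
  exact absurd (card_sup h.acyc ht) (not_lt.2 h1)

theorem fam_root_notMem (F : Fam c L A K m) {i : ι} {q : V × Gr V} (h : K i q) : q.1 ∉ A i :=
  fun h' => F.root i q h (F.AL i _ h')

theorem min_root (F : Fam c L A K m) [Nonempty ι] (h : PreNet L E ρ) (hs : Sat c A K E ρ)
    (hmin : ∀ E' ρ', PreNet L E' ρ' → Sat c A K E' ρ' → E.card ≤ E'.card) :
    outdeg E ρ = 2 := by
  by_contra hne
  obtain ⟨d, hd⟩ := h.rootout
  have h1 := outdeg_pos hd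
  have h2 := h.rootdeg
  have h3 : outdeg E ρ ≤ 1 := by omega
  have hd' : ∀ y, (ρ, y) ∈ E ↔ y = d := by
    intro y
    constructor
    · exact fun hy => eq_of_outdeg_le_one h3 hy hd
    · rintro rfl; exact hd
  have hdL : ¬ L d := by
    intro hdL
    obtain ⟨i⟩ := ‹Nonempty ι›
    obtain ⟨hr, s, q, h4, h5, h6⟩ := hs i
    have hleaf : ∀ x ∈ A i, ∀ y, (x, y) ∉ E := fun x hx y hxy => h.leafout x y hxy (F.AL i x hx)
    have hX : CR (PU E s (A i)) s (A i) := cr_PU h.acyc h4 (F.ne i) hr hleaf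
    have hsd : ∀ y, Reach E ρ y → y = ρ ∨ y = d := by
      intro y hy
      rcases ReflTransGen.cases_head hy with h7 | ⟨w, hw, h8⟩
      · exact Or.inl h7.symm
      · obtain rfl := (hd' w).1 hw
        rcases ReflTransGen.cases_head h8 with h9 | ⟨w', hw', _⟩
        · exact Or.inr h9.symm
        · exact absurd hdL (h.leafout _ _ hw')
    have hqA : q.1 ∉ A i := fam_root_notMem F h6
    have hq : CR q.2 q.1 (A i) := hX.steps h5
    obtain ⟨b0, _, hb0⟩ := hq.root_out hqA q.1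
    have hsout : ∃ y, (s, y) ∈ PU E s (A i) := by
      rcases ((paths h5 hX).2 b0 hb0).cases with h7 | ⟨v, hv, _⟩
      · exact ⟨_, h7⟩
      · exact ⟨_, hv⟩
    obtain ⟨y, hy⟩ := hsout
    have hsA : s ∉ A i := fun hmem => hX.leaf s hmem y hy
    obtain ⟨a, ha⟩ := F.ne i
    have hρs := (h4.reach_s ha (hr a ha)).1
    have hsρ : s = ρ := by
      rcases hsd s hρs with h7 | h7
      · exact h7
      · rw [h7] at hy
        exact absurd hdL (h.leafout _ _ (PU_subset _ _ _ hy))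
    obtain ⟨y', hy1, hy2⟩ := hX.root_out hsA d
    rw [hsρ] at hy2
    exact hy1 ((hd' y').1 (PU_subset _ _ _ hy2))
  have h4 := hmin (cut E ρ) d (h.cutt hd' hdL) (by
    intro i
    obtain ⟨hr, s, q, h4, h5, h6⟩ := hs i
    have hleaf : ∀ x ∈ A i, ∀ y, (x, y) ∉ E := fun x hx y hxy => h.leafout x y hxy (F.AL i x hx)
    obtain ⟨h7, h8⟩ := lsa_root h.acyc h.rootin (F.ne i) hr hleaf hd' h4
    refine ⟨fun x hx => ?_, s, q, h7, by rw [h8]; exact h5, h6⟩
    rw [reach_cut_iff h.rootin (h.acyc.ne hd).symm]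
    rcases ReflTransGen.cases_head (hr x hx) with h9 | ⟨w, hw, h9⟩
    · exact absurd (h9 ▸ F.AL i x hx) h.rootL
    · rwa [← (hd' w).1 hw])
  have h5 : (cut E ρ).card < E.card :=
    Finset.card_lt_card ⟨cut_subset _ _, fun h' => (mem_cut.1 (h' hd)).2 rfl⟩
  omega

theorem prenet_erase (h : PreNet L E ρ) {u v : V} (hu : outdeg E u = 2) (hv : indeg E v = 2) :
    PreNet L (E.erase (u, v)) ρ := by
  obtain ⟨c, hc, huc⟩ := exists_other_out (v := v) hu
  obtain ⟨w, hw, hwv⟩ := exists_other_in (u := u) hv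
  have huc' : (u, c) ∈ E.erase (u, v) := Finset.mem_erase.2 ⟨fun h => hc (Prod.mk.inj h).2, huc⟩
  have hwv' : (w, v) ∈ E.erase (u, v) := Finset.mem_erase.2 ⟨fun h => hw (Prod.mk.inj h).1, hwv⟩
  refine h.sub (Finset.erase_subset _ _) ?_ ?_ ?_
  · obtain ⟨y, hy⟩ := h.rootout
    by_cases he : (ρ, y) = (u, v)
    · rw [(Prod.mk.inj he).1]
      exact ⟨c, huc'⟩
    · exact ⟨y, Finset.mem_erase.2 ⟨he, hy⟩⟩
  · intro x y hxy hx
    obtain ⟨z, hz⟩ := h.innerin x y (Finset.mem_of_mem_erase hxy) hx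
    by_cases he : (z, x) = (u, v)
    · rw [(Prod.mk.inj he).2]
      exact ⟨w, hwv'⟩
    · exact ⟨z, Finset.mem_erase.2 ⟨he, hz⟩⟩
  · intro x y hxy hy
    obtain ⟨z, hz⟩ := h.innerout x y (Finset.mem_of_mem_erase hxy) hy
    by_cases he : (y, z) = (u, v)
    · rw [(Prod.mk.inj he).1]
      exact ⟨c, huc'⟩
    · exact ⟨z, Finset.mem_erase.2 ⟨he, hz⟩⟩

/-- A subnetwork that contains a path for every arc of the restrictions satisfies the same
requirements. -/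
theorem sat_sub (F : Fam c L A K m) (h : PreNet L E ρ) (hs : Sat c A K E ρ)
    {s : ι → V} {q : ι → V × Gr V} (h1 : ∀ i, LSA E ρ (A i) (s i))
    (h2 : ∀ i, RSs c (s i, PU E (s i) (A i)) (q i)) (h3 : ∀ i, K i (q i))
    {E' : Gr V} (hE' : PreNet L E' ρ) (hsub : E' ⊆ E)
    (h4 : ∀ i, ∀ a b, (a, b) ∈ (q i).2 → a ≠ (q i).1 →
      IP (PU E (s i) (A i) ∩ E') (WS (q i).2 (q i).1) a b)
    (h5 : ∀ i, ∀ b, ((q i).1, b) ∈ (q i).2 →
      IP (PU E (s i) (A i) ∩ E') (WS (q i).2 (q i).1) (s i) b) : Sat c A K E' ρ := by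
  intro i
  have hleaf : ∀ x ∈ A i, ∀ y, (x, y) ∉ E := fun x hx y hxy => h.leafout x y hxy (F.AL i x hx)
  obtain ⟨h6, s', σ, h7, _, h8, h9⟩ := subnet h.acyc hE'.amb hsub (F.ne i) (hs i).1 hleaf
    h.leafout (h1 i) (h2 i) (fam_root_notMem F (h3 i)) (h4 i) (h5 i)
  exact ⟨h6, s', _, h7, h9, F.inv i _ σ (h3 i) h8⟩

end

end Pool.Agent.NH85.SD
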