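import Pool.Agent.NH85.SD.Min

/-!
# The arcs of a minimal network
-/

namespace Pool.Agent.NH85.SD

set_option linter.unusedSectionVars false

open Relation

variable {V : Type} [DecidableEq V]

/-- The start of the path of the arc `e`. -/
def st (q : V × Gr V) (s : V) (e : V × V) : V := if e.1 = q.1 then s else e.1

section

variable {c : Prop} {L : V → Prop} {ι : Type} {A : ι → Finset V}
  {K : ι → V × Gr V → Prop} {m : ι → ℕ} {E : Gr V} {ρ : V}

/-- The paths of the restrictions of a network. -/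
structure Wit (c : Prop) (A : ι → Finset V) (K : ι → V × Gr V → Prop) (E : Gr V) (ρ : V)
    (s : ι → V) (q : ι → V × Gr V) (P : ι → Option (V × V) → Gr V) : Prop where
  lsa : ∀ i, LSA E ρ (A i) (s i)
  rs : ∀ i, RSs c (s i, PU E (s i) (A i)) (q i)
  k : ∀ i, K i (q i)
  p0 : ∀ i, PSet E (P i none) ρ (s i)
  p1 : ∀ i, ∀ e ∈ (q i).2, PSet (PU E (s i) (A i)) (P i (some e)) (st (q i) (s i) e) e.2
  p2 : ∀ i, ∀ e ∈ (q i).2, IP (P i (some e)) (WS (q i).2 (q i).1) (st (q i) (s i) e) e.2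

theorem exists_wit (F : Fam c L A K m) (h : PreNet L E ρ) (hs : Sat c A K E ρ) :
    ∃ s q P, Wit c A K E ρ s q P := by
  classical
  have key : ∀ i, ∃ (s : V) (q : V × Gr V) (P : Option (V × V) → Gr V),
      LSA E ρ (A i) s ∧ RSs c (s, PU E s (A i)) q ∧ K i q ∧ PSet E (P none) ρ s ∧
      (∀ e ∈ q.2, PSet (PU E s (A i)) (P (some e)) (st q s e) e.2) ∧
      (∀ e ∈ q.2, IP (P (some e)) (WS q.2 q.1) (st q s e) e.2) := by
    intro i
    obtain ⟨hr, s, q, h1, h2, h3⟩ := hs i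
    have hleaf : ∀ x ∈ A i, ∀ y, (x, y) ∉ E := fun x hx y hxy => h.leafout x y hxy (F.AL i x hx)
    have hX : CR (PU E s (A i)) s (A i) := cr_PU h.acyc h1 (F.ne i) hr hleaf
    obtain ⟨a, ha⟩ := F.ne i
    obtain ⟨Q0, hQ0, _⟩ := exists_pset (h1.reach_s ha (hr a ha)).1.toRP
    obtain ⟨p1, p2⟩ := paths h2 hX
    have h4 : ∀ e ∈ q.2, ∃ Q, PSet (PU E s (A i)) Q (st q s e) e.2 ∧
        IP Q (WS q.2 q.1) (st q s e) e.2 := by
      rintro ⟨x, y⟩ he
      have h5 : IP (PU E s (A i)) (WS q.2 q.1) (st q s (x, y)) y := by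
        unfold st
        simp only
        split_ifs with hx
        · subst hx
          exact p2 y he
        · exact p1 x y he hx
      refine exists_pset_ip h5 ?_
      intro heq
      obtain ⟨u, hu1, hu2⟩ := h5
      simp only at heq
      rw [heq] at hu1
      exact hX.acyc _ _ hu2 hu1.reach
    choose! f hf using h4
    exact ⟨s, q, fun o => o.elim Q0 f, h1, h2, h3, hQ0, fun e he => (hf e he).1,
      fun e he => (hf e he).2⟩
  choose s q P h1 h2 h3 h4 h5 h6 using key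
  exact ⟨s, q, P, h1, h2, h3, h4, h5, h6⟩

/-- The index set of the paths. -/
def Jx [Fintype ι] (q : ι → V × Gr V) : Finset (Σ _ : ι, Option (V × V)) :=
  Finset.univ.sigma fun i => Finset.insertNone (q i).2

theorem mem_Jx [Fintype ι] {q : ι → V × Gr V} {i : ι} {o : Option (V × V)} :
    (⟨i, o⟩ : Σ _ : ι, Option (V × V)) ∈ Jx q ↔ ∀ e ∈ o, e ∈ (q i).2 := by
  simp [Jx, Finset.mem_insertNone]

theorem card_Jx [Fintype ι] (F : Fam c L A K m) {q : ι → V × Gr V} (hk : ∀ i, K i (q i)) :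
    (Jx q).card ≤ ∑ i, m i + Fintype.card ι := by
  classical
  unfold Jx
  rw [Finset.card_sigma]
  have h1 : ∀ i ∈ (Finset.univ : Finset ι), (Finset.insertNone (q i).2).card ≤ m i + 1 := by
    intro i _
    rw [Finset.card_insertNone]
    exact Nat.add_le_add_right (F.card i _ (hk i)) 1
  refine (Finset.sum_le_sum h1).trans ?_
  rw [Finset.sum_add_distrib]
  simp

theorem cover [Fintype ι] [Nonempty ι] (F : Fam c L A K m) (h : PreNet L E ρ)
    (hs : Sat c A K E ρ)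
    (hmin : ∀ E' ρ', PreNet L E' ρ' → Sat c A K E' ρ' → E.card ≤ E'.card)
    {s : ι → V} {q : ι → V × Gr V} {P : ι → Option (V × V) → Gr V} (w : Wit c A K E ρ s q P) :
    (Jx q).biUnion (fun j => P j.1 j.2) = E := by
  classical
  set U := (Jx q).biUnion (fun j => P j.1 j.2) with hU
  have hmem : ∀ i o, (∀ e ∈ o, e ∈ (q i).2) → P i o ⊆ U := by
    intro i o ho e he
    exact Finset.mem_biUnion.2 ⟨⟨i, o⟩, mem_Jx.2 ho, he⟩
  have hm0 : ∀ i, P i none ⊆ U := fun i => hmem i none (by simp)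
  have hm1 : ∀ i, ∀ e ∈ (q i).2, P i (some e) ⊆ U := fun i e he => hmem i (some e) (by
    intro e' he'
    simp only [Option.mem_def, Option.some.injEq] at he'
    rwa [← he'])
  have hsub : U ⊆ E := by
    intro e he
    obtain ⟨⟨i, o⟩, ho, he⟩ := Finset.mem_biUnion.1 he
    cases o with
    | none => exact (w.p0 i).sub he
    | some ab => exact PU_subset _ _ _ ((w.p1 i ab (mem_Jx.1 ho ab rfl)).sub he)
  have hleaf : ∀ i, ∀ x ∈ A i, ∀ y, (x, y) ∉ E := fun i x hx y hxy =>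
    h.leafout x y hxy (F.AL i x hx)
  have hX : ∀ i, CR (PU E (s i) (A i)) (s i) (A i) := fun i =>
    cr_PU h.acyc (w.lsa i) (F.ne i) (hs i).1 (hleaf i)
  have hq : ∀ i, CR (q i).2 (q i).1 (A i) := fun i => (hX i).steps (w.rs i)
  have hqA : ∀ i, (q i).1 ∉ A i := fun i => fam_root_notMem F (w.k i)
  -- arcs leaving the start of a path
  have hstart : ∀ i, ∀ e ∈ (q i).2, ∃ y, (st (q i) (s i) e, y) ∈ U := by
    intro i e he
    have h1 := w.p2 i e he
    rcases h1.cases with h2 | ⟨v, hv, _⟩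
    · exact ⟨_, hm1 i e he h2⟩
    · exact ⟨_, hm1 i e he hv⟩
  have hstop : ∀ i, ∀ e ∈ (q i).2, ∃ y, (y, e.2) ∈ U := by
    intro i e he
    obtain ⟨u, _, hu⟩ := w.p2 i e he
    exact ⟨u, hm1 i e he hu⟩
  have hsi : ∀ i, ∃ y, (s i, y) ∈ U := by
    intro i
    obtain ⟨b, _, hb⟩ := (hq i).root_out (hqA i) (q i).1
    have := hstart i _ hb
    simpa [st] using this
  have hUP : PreNet L U ρ := by
    refine h.sub hsub ?_ ?_ ?_
    · obtain ⟨i⟩ := ‹Nonempty ι›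
      by_cases hρ : ρ = s i
      · rw [hρ]; exact hsi i
      · obtain ⟨y, hy⟩ := (w.p0 i).start hρ
        exact ⟨y, hm0 i hy⟩
    · intro x y hxy hx
      obtain ⟨⟨i, o⟩, ho, he⟩ := Finset.mem_biUnion.1 hxy
      have hsin : s i ≠ ρ → ∃ w, (w, s i) ∈ U := by
        intro hsρ
        obtain ⟨y, hy⟩ := (w.p0 i).stop hsρ.symm
        exact ⟨y, hm0 i hy⟩
      cases o with
      | none =>
        rcases (w.p0 i).inn x y he with h1 | ⟨z, hz⟩
        · exact absurd h1 hx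
        · exact ⟨z, hm0 i hz⟩
      | some ab =>
        have hab := mem_Jx.1 ho ab rfl
        rcases (w.p1 i ab hab).inn x y he with h1 | ⟨z, hz⟩
        · unfold st at h1
          split_ifs at h1 with h2
          · subst h1
            exact hsin hx
          · subst h1
            obtain ⟨z, hz⟩ := (hq i).has_in (x := ab.1) ⟨ab.2, Or.inl hab⟩ h2
            exact hstop i (z, ab.1) hz
        · exact ⟨z, hm1 i ab hab hz⟩
    · intro x y hxy hy
      obtain ⟨⟨i, o⟩, ho, he⟩ := Finset.mem_biUnion.1 hxy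
      cases o with
      | none =>
        rcases (w.p0 i).outt x y he with h1 | ⟨z, hz⟩
        · subst h1
          exact hsi i
        · exact ⟨z, hm0 i hz⟩
      | some ab =>
        have hab := mem_Jx.1 ho ab rfl
        rcases (w.p1 i ab hab).outt x y he with h1 | ⟨z, hz⟩
        · subst h1
          have hyA : ab.2 ∉ A i := fun h' => hy (F.AL i _ h')
          obtain ⟨z, hz⟩ := (hq i).has_out (x := ab.2) ⟨ab.1, Or.inr hab⟩ hyA
          have h2 : ab.2 ≠ (q i).1 := fun h' => (hq i).rootin ab.1 (h' ▸ hab)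
          have := hstart i _ hz
          simpa [st, h2] using this
        · exact ⟨z, hm1 i ab hab hz⟩
  have hUS : Sat c A K U ρ := by
    refine sat_sub F h hs w.lsa w.rs w.k hUP hsub ?_ ?_
    · intro i a b hab ha
      have h1 := w.p2 i (a, b) hab
      simp only [st, if_neg ha] at h1
      exact h1.mono (Finset.subset_inter (w.p1 i _ hab).sub (hm1 i _ hab))
    · intro i b hb
      have h1 := w.p2 i _ hb
      simp only [st, if_pos] at h1
      exact h1.mono (Finset.subset_inter (w.p1 i _ hb).sub (hm1 i _ hb))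
  exact Finset.eq_of_subset_of_card_le hsub (hmin U ρ hUP hUS)

/-- The arcs from a vertex with two out-arcs to a vertex with two in-arcs. -/
def TT (E : Gr V) : Gr V := E.filter (fun e => outdeg E e.1 = 2 ∧ indeg E e.2 = 2)

theorem mem_TT {u v : V} : (u, v) ∈ TT E ↔ (u, v) ∈ E ∧ outdeg E u = 2 ∧ indeg E v = 2 := by
  simp [TT]

theorem fail (F : Fam c L A K m) (h : PreNet L E ρ) (hs : Sat c A K E ρ)
    (hmin : ∀ E' ρ', PreNet L E' ρ' → Sat c A K E' ρ' → E.card ≤ E'.card)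
    {s : ι → V} {q : ι → V × Gr V} {P : ι → Option (V × V) → Gr V} (w : Wit c A K E ρ s q P)
    {u v : V} (he : (u, v) ∈ TT E) :
    ∃ i, (∃ a b, (a, b) ∈ (q i).2 ∧ a ≠ (q i).1 ∧
      ¬ IP ((PU E (s i) (A i)).erase (u, v)) (WS (q i).2 (q i).1) a b) ∨
      (∃ b, ((q i).1, b) ∈ (q i).2 ∧
      ¬ IP ((PU E (s i) (A i)).erase (u, v)) (WS (q i).2 (q i).1) (s i) b) := by
  by_contra hcon
  push Not at hcon
  obtain ⟨h1, h2, h3⟩ := mem_TT.1 he
  have h4 := prenet_erase h h2 h3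
  have h5 : ∀ i, (PU E (s i) (A i)).erase (u, v) = PU E (s i) (A i) ∩ E.erase (u, v) := by
    intro i
    ext e
    simp only [Finset.mem_erase, Finset.mem_inter]
    constructor
    · rintro ⟨h6, h7⟩
      exact ⟨h7, h6, PU_subset _ _ _ h7⟩
    · rintro ⟨h6, h7, _⟩
      exact ⟨h7, h6⟩
  have h6 : Sat c A K (E.erase (u, v)) ρ := by
    refine sat_sub F h hs w.lsa w.rs w.k h4 (Finset.erase_subset _ _) ?_ ?_
    · intro i a b hab ha
      rw [← h5]
      exact (hcon i).1 a b hab ha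
    · intro i b hb
      rw [← h5]
      exact (hcon i).2 b hb
  have h7 := hmin _ _ h4 h6
  have h8 := Finset.card_erase_lt_of_mem h1
  omega

theorem crit (F : Fam c L A K m) (h : PreNet L E ρ) (hs : Sat c A K E ρ)
    (hmin : ∀ E' ρ', PreNet L E' ρ' → Sat c A K E' ρ' → E.card ≤ E'.card)
    {s : ι → V} {q : ι → V × Gr V} {P : ι → Option (V × V) → Gr V} (w : Wit c A K E ρ s q P)
    {u v : V} (he : (u, v) ∈ TT E) :
    ∃ i, (u, v) ∈ PU E (s i) (A i) ∧
      ((∃ d, d ≠ v ∧ (u, d) ∈ E ∧ (u, d) ∉ PU E (s i) (A i)) ∨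
       (∃ d, d ≠ u ∧ (d, v) ∈ E ∧ (d, v) ∉ PU E (s i) (A i)) ∨
       (u, v) ∈ (q i).2 ∨ ((q i).1, v) ∈ (q i).2) := by
  obtain ⟨i, hi⟩ := fail F h hs hmin w he
  obtain ⟨h1, h2, h3⟩ := mem_TT.1 he
  have hleaf : ∀ x ∈ A i, ∀ y, (x, y) ∉ E := fun x hx y hxy =>
    h.leafout x y hxy (F.AL i x hx)
  have hX : CR (PU E (s i) (A i)) (s i) (A i) := cr_PU h.acyc (w.lsa i) (F.ne i) (hs i).1 hleaf
  have hq : CR (q i).2 (q i).1 (A i) := hX.steps (w.rs i)
  have hqA : (q i).1 ∉ A i := fam_root_notMem F (w.k i)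
  obtain ⟨lam, hl⟩ := exists_lab (w.rs i) hX
  obtain ⟨p1, p2⟩ := paths (w.rs i) hX
  simp only at hl p1 p2
  have huv : (u, v) ∈ PU E (s i) (A i) := by
    by_contra hn
    rw [Finset.erase_eq_of_notMem hn] at hi
    rcases hi with ⟨a, b, hab, ha, h4⟩ | ⟨b, hb, h4⟩
    · exact h4 (p1 a b hab ha)
    · exact h4 (p2 b hb)
  refine ⟨i, huv, ?_⟩
  by_cases c1 : ∃ d, d ≠ v ∧ (u, d) ∈ PU E (s i) (A i)
  · by_cases c2 : ∃ d, d ≠ u ∧ (d, v) ∈ PU E (s i) (A i)
    · right; right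
      rcases hi with ⟨a, b, hab, ha, h4⟩ | ⟨b, hb, h4⟩
      · left
        rw [critA hX hq hqA hl huv hab ha (p1 a b hab ha) h4 c1 c2]
        exact hab
      · right
        rw [critB hX hl huv (p2 b hb) h4 c2]
        exact hb
    · right; left
      obtain ⟨d, hd, hdv⟩ := exists_other_in (u := u) h3
      exact ⟨d, hd, hdv, fun h4 => c2 ⟨d, hd, h4⟩⟩
  · left
    obtain ⟨d, hd, hud⟩ := exists_other_out (v := v) h2
    exact ⟨d, hd, hud, fun h4 => c1 ⟨d, hd, h4⟩⟩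

theorem min_tri (F : Fam c L A K m) (hc : c) (h : PreNet L E ρ) (hs : Sat c A K E ρ)
    (hmin : ∀ E' ρ', PreNet L E' ρ' → Sat c A K E' ρ' → E.card ≤ E'.card)
    (hρ : outdeg E ρ = 2) {x y : V} (hx : (ρ, x) ∈ E) (hy : (ρ, y) ∈ E) : (x, y) ∉ E := by
  intro hxy
  obtain ⟨s, q, P, w⟩ := exists_wit F h hs
  have hne : x ≠ y := h.acyc.ne hxy
  have hρx := h.acyc.ne hx
  have hy2 : indeg E y = 2 := by
    have h1 := two_le_indeg hy hxy hρx
    have hyL : ¬ L y := fun h' => by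
      have := h.leafin y h'
      omega
    obtain ⟨z, hz⟩ := h.innerout _ _ hy hyL
    have h2 := outdeg_pos hz
    have h3 := h.deg y hyL (h.acyc.ne hy).symm
    omega
  obtain ⟨i, hi⟩ := fail F h hs hmin w (mem_TT.2 ⟨hy, hρ, hy2⟩)
  have hleaf : ∀ x ∈ A i, ∀ y, (x, y) ∉ E := fun x hx y hxy =>
    h.leafout x y hxy (F.AL i x hx)
  have hX : CR (PU E (s i) (A i)) (s i) (A i) := cr_PU h.acyc (w.lsa i) (F.ne i) (hs i).1 hleaf
  have hq : CR (q i).2 (q i).1 (A i) := hX.steps (w.rs i)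
  have hqA : (q i).1 ∉ A i := fam_root_notMem F (w.k i)
  obtain ⟨lam, hl⟩ := exists_lab (w.rs i) hX
  obtain ⟨p1, p2⟩ := paths (w.rs i) hX
  simp only at hl p1 p2
  have huv : (ρ, y) ∈ PU E (s i) (A i) := by
    by_contra hn
    rw [Finset.erase_eq_of_notMem hn] at hi
    rcases hi with ⟨a, b, hab, ha, h4⟩ | ⟨b, hb, h4⟩
    · exact h4 (p1 a b hab ha)
    · exact h4 (p2 b hb)
  obtain ⟨_, h1, a, ha, h2⟩ := mem_PU.1 huv
  have hsρ : s i = ρ := by
    rcases ReflTransGen.cases_tail h1 with h3 | ⟨z, _, hz⟩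
    · exact h3.symm
    · exact absurd hz (h.rootin z)
  have hXx : (ρ, x) ∈ PU E (s i) (A i) :=
    mem_PU.2 ⟨hx, h1, a, ha, ReflTransGen.head hxy h2⟩
  have hXxy : (x, y) ∈ PU E (s i) (A i) :=
    mem_PU.2 ⟨hxy, ReflTransGen.tail h1 hx, a, ha, h2⟩
  rcases hi with ⟨a, b, hab, ha, h4⟩ | ⟨b, hb, h4⟩
  · have h5 := critA hX hq hqA hl huv hab ha (p1 a b hab ha) h4 ⟨x, hne, hXx⟩
      ⟨x, hρx.symm, hXxy⟩
    simp only [Prod.mk.injEq] at h5
    obtain ⟨rfl, rfl⟩ := h5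
    have h6 := hl.root.2
    rw [hsρ] at h6
    exact h6 ⟨⟨_, Or.inl hab⟩, ha⟩
  · obtain rfl := critB hX hl huv (p2 b hb) h4 ⟨x, hρx.symm, hXxy⟩
    have hWy : WS (q i).2 (q i).1 y := ws_right hq hb
    have hWρ : ¬ WS (q i).2 (q i).1 ρ := by
      have := hl.root.2
      rwa [hsρ] at this
    have hlρ : lam ρ = none := by
      have := hl.root.1
      rwa [hsρ] at this
    have e1 : (ρ, x) ∈ (PU E (s i) (A i)).erase (ρ, y) :=
      Finset.mem_erase.2 ⟨fun h' => hne (Prod.mk.inj h').2, hXx⟩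
    have e2 : (x, y) ∈ (PU E (s i) (A i)).erase (ρ, y) :=
      Finset.mem_erase.2 ⟨fun h' => hρx (Prod.mk.inj h').1.symm, hXxy⟩
    by_cases hWx : WS (q i).2 (q i).1 x
    · have h5 := hl.ww x y hXxy hWx hWy
      rcases hl.iw ρ x hXx hWρ hWx with ⟨a', ha'⟩ | ⟨_, h6⟩
      · rw [hlρ] at ha'
        exact absurd ha' (by simp)
      · exact F.tri hc i _ (w.k i) x y h6 hb h5
    · rw [hsρ] at h4 e1 e2
      exact h4 (IP.cons e1 hWx (IP.edge e2))

/-! ### Counting -/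

theorem card_T1 (F : Fam c L A K m) {q : V × Gr V} {i : ι} (hk : K i q) :
    (E.filter (fun e => e ∈ q.2 ∨ ((q.1, e.2) ∈ q.2 ∧ indeg E e.2 = 2))).card ≤ 3 * m i := by
  classical
  have h1 : E.filter (fun e => e ∈ q.2 ∨ ((q.1, e.2) ∈ q.2 ∧ indeg E e.2 = 2)) ⊆
      q.2 ∪ (q.2.image Prod.snd).biUnion
        (fun b => if indeg E b = 2 then E.filter (fun e => e.2 = b) else ∅) := by
    intro e he
    obtain ⟨h1, h2⟩ := Finset.mem_filter.1 he
    rcases h2 with h2 | ⟨h2, h3⟩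
    · exact Finset.mem_union_left _ h2
    · refine Finset.mem_union_right _ (Finset.mem_biUnion.2 ⟨e.2,
        Finset.mem_image.2 ⟨_, h2, rfl⟩, ?_⟩)
      rw [if_pos h3]
      exact Finset.mem_filter.2 ⟨h1, rfl⟩
  have h2 : ((q.2.image Prod.snd).biUnion
      (fun b => if indeg E b = 2 then E.filter (fun e => e.2 = b) else ∅)).card ≤
      (q.2.image Prod.snd).card * 2 := by
    refine Finset.card_biUnion_le_card_mul _ _ _ ?_
    intro b _
    split_ifs with hb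
    · exact hb.le
    · simp
  have h3 : (q.2.image Prod.snd).card ≤ q.2.card := Finset.card_image_le
  have h4 := F.card i q hk
  have h5 := Finset.card_le_card h1
  have h6 := Finset.card_union_le q.2 ((q.2.image Prod.snd).biUnion
      (fun b => if indeg E b = 2 then E.filter (fun e => e.2 = b) else ∅))
  omega

open Classical in
theorem card_T2 {X Q : Gr V} {s x y : V} {A : Finset V} (hX : X = PU E s A) (hQ : PSet E Q x y) :
    ((TT E).filter (fun e => e ∈ X ∧ ∃ d, d ≠ e.2 ∧ (e.1, d) ∈ Q ∧ (e.1, d) ∉ X)).card ≤ 1 := by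
  classical
  subst hX
  rw [Finset.card_le_one]
  have key : ∀ u v u' v' d, (u, v) ∈ PU E s A → (u', v') ∈ PU E s A → (u, d) ∈ E →
      (u, d) ∉ PU E s A → ¬ Reach E d u' := by
    intro u v u' v' d h1 h2 h3 h4 h5
    obtain ⟨_, h6, _⟩ := mem_PU.1 h1
    obtain ⟨h7, _, a, ha, h8⟩ := mem_PU.1 h2
    exact h4 (mem_PU.2 ⟨h3, h6, a, ha, ReflTransGen.trans h5 (ReflTransGen.head h7 h8)⟩)
  rintro ⟨u, v⟩ he ⟨u', v'⟩ he'
  obtain ⟨h1, h2, d, h3, h4, h5⟩ := Finset.mem_filter.1 he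
  obtain ⟨h1', h2', d', h3', h4', h5'⟩ := Finset.mem_filter.1 he'
  simp only at h3 h4 h5 h3' h4' h5'
  obtain ⟨g1, g2, _⟩ := mem_TT.1 h1
  obtain ⟨g1', _, _⟩ := mem_TT.1 h1'
  rcases hQ.chain _ h4 _ h4' with h6 | h6 | h6
  · simp only [Prod.mk.injEq] at h6
    obtain ⟨rfl, rfl⟩ := h6
    rw [eq_of_outdeg_le_two g2.le g1 g1' (hQ.sub h4) h3.symm h3'.symm]
  · exact absurd h6 (key u v u' v' d h2 h2' (hQ.sub h4) h5)
  · exact absurd h6 (key u' v' u v d' h2' h2 (hQ.sub h4') h5')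

open Classical in
theorem card_T3 {X Q : Gr V} {s x y : V} {A : Finset V} (hX : X = PU E s A) (hQ : PSet E Q x y) :
    ((TT E).filter (fun e => e ∈ X ∧ ∃ d, d ≠ e.1 ∧ (d, e.2) ∈ Q ∧ (d, e.2) ∉ X)).card ≤ 1 := by
  classical
  subst hX
  rw [Finset.card_le_one]
  have key : ∀ u v u' v' d', (u, v) ∈ PU E s A → (u', v') ∈ PU E s A → (d', v') ∈ E →
      (d', v') ∉ PU E s A → ¬ Reach E v d' := by
    intro u v u' v' d' h1 h2 h3 h4 h5
    obtain ⟨h0, h6, _⟩ := mem_PU.1 h1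
    obtain ⟨h7, _, a, ha, h8⟩ := mem_PU.1 h2
    exact h4 (mem_PU.2 ⟨h3, ReflTransGen.trans (ReflTransGen.tail h6 h0) h5, a, ha, h8⟩)
  rintro ⟨u, v⟩ he ⟨u', v'⟩ he'
  obtain ⟨h1, h2, d, h3, h4, h5⟩ := Finset.mem_filter.1 he
  obtain ⟨h1', h2', d', h3', h4', h5'⟩ := Finset.mem_filter.1 he'
  simp only at h3 h4 h5 h3' h4' h5'
  obtain ⟨g1, _, g2⟩ := mem_TT.1 h1
  obtain ⟨g1', _, _⟩ := mem_TT.1 h1'
  rcases hQ.chain _ h4 _ h4' with h6 | h6 | h6
  · simp only [Prod.mk.injEq] at h6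
    obtain ⟨rfl, rfl⟩ := h6
    rw [eq_of_indeg_le_two g2.le g1 g1' (hQ.sub h4) h3.symm h3'.symm]
  · exact absurd h6 (key u v u' v' d' h2 h2' (hQ.sub h4') h5')
  · exact absurd h6 (key u' v' u v d h2' h2 (hQ.sub h4) h5)

theorem card_TT [Fintype ι] [Nonempty ι] (F : Fam c L A K m) (h : PreNet L E ρ)
    (hs : Sat c A K E ρ)
    (hmin : ∀ E' ρ', PreNet L E' ρ' → Sat c A K E' ρ' → E.card ≤ E'.card) :
    (TT E).card ≤ 3 * ∑ i, m i + 2 * (Fintype.card ι * (∑ i, m i + Fintype.card ι)) := by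
  classical
  obtain ⟨s, q, P, w⟩ := exists_wit F h hs
  have hcov := cover F h hs hmin w
  let X : ι → Gr V := fun i => PU E (s i) (A i)
  let T1 : ι → Gr V := fun i =>
    E.filter (fun e => e ∈ (q i).2 ∨ (((q i).1, e.2) ∈ (q i).2 ∧ indeg E e.2 = 2))
  let T2 : ι → (Σ _ : ι, Option (V × V)) → Gr V := fun i j =>
    (TT E).filter (fun e => e ∈ X i ∧ ∃ d, d ≠ e.2 ∧ (e.1, d) ∈ P j.1 j.2 ∧ (e.1, d) ∉ X i)
  let T3 : ι → (Σ _ : ι, Option (V × V)) → Gr V := fun i j =>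
    (TT E).filter (fun e => e ∈ X i ∧ ∃ d, d ≠ e.1 ∧ (d, e.2) ∈ P j.1 j.2 ∧ (d, e.2) ∉ X i)
  have hPE : ∀ j ∈ Jx q, ∃ x y, PSet E (P j.1 j.2) x y := by
    rintro ⟨i, o⟩ hj
    cases o with
    | none => exact ⟨_, _, w.p0 i⟩
    | some e =>
      have h1 := w.p1 i e (mem_Jx.1 hj e rfl)
      have hss := PU_subset E (s i) (A i)
      refine ⟨_, _, ⟨h1.sub.trans hss, ?_, h1.inn, h1.outt, h1.start, h1.stop, ?_, ?_⟩⟩
      · intro e he f hf
        rcases h1.chain e he f hf with h2 | h2 | h2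
        · exact Or.inl h2
        · exact Or.inr (Or.inl (h2.mono hss))
        · exact Or.inr (Or.inr (h2.mono hss))
      · exact fun z w hzw => (h1.fromx z w hzw).mono hss
      · exact fun z w hzw => (h1.toy z w hzw).mono hss
  have hsub : TT E ⊆ ((Finset.univ : Finset ι).biUnion T1) ∪
      (((Finset.univ : Finset ι) ×ˢ Jx q).biUnion (fun p => T2 p.1 p.2) ∪
        ((Finset.univ : Finset ι) ×ˢ Jx q).biUnion (fun p => T3 p.1 p.2)) := by
    rintro ⟨u, v⟩ he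
    obtain ⟨h1, h2, h3⟩ := mem_TT.1 he
    obtain ⟨i, h4, h5⟩ := crit F h hs hmin w he
    rcases h5 with ⟨d, h6, h7, h8⟩ | ⟨d, h6, h7, h8⟩ | h6
    · rw [← hcov] at h7
      obtain ⟨j, hj, h9⟩ := Finset.mem_biUnion.1 h7
      rw [Finset.mem_union, Finset.mem_union]
      right; left
      refine Finset.mem_biUnion.2 ⟨(i, j), Finset.mem_product.2 ⟨Finset.mem_univ _, hj⟩, ?_⟩
      exact Finset.mem_filter.2 ⟨he, h4, d, h6, h9, h8⟩
    · rw [← hcov] at h7
      obtain ⟨j, hj, h9⟩ := Finset.mem_biUnion.1 h7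
      rw [Finset.mem_union, Finset.mem_union]
      right; right
      refine Finset.mem_biUnion.2 ⟨(i, j), Finset.mem_product.2 ⟨Finset.mem_univ _, hj⟩, ?_⟩
      exact Finset.mem_filter.2 ⟨he, h4, d, h6, h9, h8⟩
    · rw [Finset.mem_union]
      left
      refine Finset.mem_biUnion.2 ⟨i, Finset.mem_univ _, Finset.mem_filter.2 ⟨h1, ?_⟩⟩
      rcases h6 with h6 | h6
      · exact Or.inl h6
      · exact Or.inr ⟨h6, h3⟩
  have c1 : ((Finset.univ : Finset ι).biUnion T1).card ≤ 3 * ∑ i, m i := by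
    refine Finset.card_biUnion_le.trans ?_
    rw [Finset.mul_sum]
    exact Finset.sum_le_sum fun i _ => card_T1 F (w.k i)
  have cJ := card_Jx F w.k
  have cP : ((Finset.univ : Finset ι) ×ˢ Jx q).card ≤ Fintype.card ι * (∑ i, m i + Fintype.card ι) := by
    rw [Finset.card_product]
    exact Nat.mul_le_mul_left _ cJ
  have c2 : (((Finset.univ : Finset ι) ×ˢ Jx q).biUnion (fun p => T2 p.1 p.2)).card ≤
      ((Finset.univ : Finset ι) ×ˢ Jx q).card * 1 := by
    refine Finset.card_biUnion_le_card_mul _ _ _ ?_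
    rintro ⟨i, j⟩ hij
    obtain ⟨x, y, hQ⟩ := hPE j (Finset.mem_product.1 hij).2
    exact card_T2 rfl hQ
  have c3 : (((Finset.univ : Finset ι) ×ˢ Jx q).biUnion (fun p => T3 p.1 p.2)).card ≤
      ((Finset.univ : Finset ι) ×ˢ Jx q).card * 1 := by
    refine Finset.card_biUnion_le_card_mul _ _ _ ?_
    rintro ⟨i, j⟩ hij
    obtain ⟨x, y, hQ⟩ := hPE j (Finset.mem_product.1 hij).2
    exact card_T3 rfl hQ
  have c4 := Finset.card_le_card hsub
  have c5 := Finset.card_union_le ((Finset.univ : Finset ι).biUnion T1)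
    (((Finset.univ : Finset ι) ×ˢ Jx q).biUnion (fun p => T2 p.1 p.2) ∪
        ((Finset.univ : Finset ι) ×ˢ Jx q).biUnion (fun p => T3 p.1 p.2))
  have c6 := Finset.card_union_le (((Finset.univ : Finset ι) ×ˢ Jx q).biUnion (fun p => T2 p.1 p.2))
    (((Finset.univ : Finset ι) ×ˢ Jx q).biUnion (fun p => T3 p.1 p.2))
  omega

end

end Pool.Agent.NH85.SD
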