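import Pool.Agent.NH85.SD.Core

/-!
# Subgraphs of a graph that simplifies to `M` simplify to `M`
-/

namespace Pool.Agent.NH85.SD

set_option linter.unusedSectionVars false

open Relation

variable {V : Type} [DecidableEq V]

/-- There is a directed path from `a` to `b` with no inner vertex in `W`. -/
def IP (E : Gr V) (W : V → Prop) (a b : V) : Prop := ∃ u, RP E (fun w => ¬ W w) a u ∧ (u, b) ∈ E

/-- The vertices of `M` other than `r`. -/
def WS (M : Gr V) (r : V) (x : V) : Prop := Vt M x ∧ x ≠ r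

theorem IP.mono {E E' : Gr V} (hE : E ⊆ E') {W : V → Prop} {a b : V} (h : IP E W a b) :
    IP E' W a b := by
  obtain ⟨u, h1, h2⟩ := h
  exact ⟨u, h1.mono (fun _ _ h => hE h) fun _ h => h, hE h2⟩

theorem IP.edge {E : Gr V} {W : V → Prop} {a b : V} (h : (a, b) ∈ E) : IP E W a b :=
  ⟨a, ReflTransGen.refl, h⟩

theorem IP.cons {E : Gr V} {W : V → Prop} {a v b : V} (h : (a, v) ∈ E) (hv : ¬ W v)
    (h' : IP E W v b) : IP E W a b := by
  obtain ⟨u, h1, h2⟩ := h'
  exact ⟨u, ReflTransGen.head ⟨h, hv⟩ h1, h2⟩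

theorem IP.cases {E : Gr V} {W : V → Prop} {a b : V} (h : IP E W a b) :
    (a, b) ∈ E ∨ ∃ v, (a, v) ∈ E ∧ ¬ W v ∧ IP E W v b := by
  obtain ⟨u, h1, h2⟩ := h
  rcases ReflTransGen.cases_head h1 with rfl | ⟨v, hv, hvu⟩
  · exact Or.inl h2
  · exact Or.inr ⟨v, hv.1, hv.2, u, hvu, h2⟩

theorem IP.reach {E : Gr V} {W : V → Prop} {a b : V} (h : IP E W a b) : Reach E a b := by
  obtain ⟨u, h1, h2⟩ := h
  exact ReflTransGen.tail h1.reach h2

theorem ip_sup_iff {E : Gr V} {a v b : V} (h : Thin E a v b) {W : V → Prop} (hv : ¬ W v)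
    {x y : V} (hx : x ≠ v) (hy : y ≠ v) (hav : a ≠ v) :
    IP (sup E a v b) W x y ↔ IP E W x y := by
  constructor
  · rintro ⟨u, h1, h2⟩
    have h3 := rp_of_rp_sup h hv h1
    rcases (mem_sup h _ _).1 h2 with ⟨rfl, rfl⟩ | ⟨h4, _, _⟩
    · exact ⟨v, ReflTransGen.tail h3 ⟨h.av, hv⟩, h.vb⟩
    · exact ⟨u, h3, h4⟩
  · rintro ⟨u, h1, h2⟩
    by_cases hu : u = v
    · subst hu
      obtain rfl := (h.hout y).1 h2
      rcases ReflTransGen.cases_tail h1 with rfl | ⟨w, hw, hwu⟩
      · exact absurd rfl hx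
      · obtain rfl := (h.hin w).1 hwu.1
        exact ⟨w, (rp_sup_iff h hv hx hav).2 hw, (mem_sup h _ _).2 (Or.inl ⟨rfl, rfl⟩)⟩
    · exact ⟨u, (rp_sup_iff h hv hx hu).2 h1, (mem_sup h _ _).2 (Or.inr ⟨h2, hu, hy⟩)⟩

theorem ip_cut {E : Gr V} {ρ : V} (hρ : ∀ x, (x, ρ) ∉ E) {W : V → Prop} {x y : V} (hx : x ≠ ρ) :
    IP (cut E ρ) W x y ↔ IP E W x y := by
  constructor
  · exact IP.mono (cut_subset _ _)
  · rintro ⟨u, h1, h2⟩
    refine ⟨u, (rp_cut_iff hρ hx).2 h1, mem_cut.2 ⟨h2, ?_⟩⟩
    rcases ReflTransGen.cases_tail h1 with rfl | ⟨w, _, hwu⟩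
    · exact hx
    · rintro rfl
      exact hρ _ hwu.1

/-! ### Renaming -/

/-- The graph with renamed vertices. -/
def mvE (σ : Equiv.Perm V) (E : Gr V) : Gr V := E.image (Prod.map σ σ)

/-- The rooted graph with renamed vertices. -/
def mv (σ : Equiv.Perm V) (p : V × Gr V) : V × Gr V := (σ p.1, mvE σ p.2)

theorem mem_mvE {σ : Equiv.Perm V} {E : Gr V} {x y : V} :
    (x, y) ∈ mvE σ E ↔ (σ.symm x, σ.symm y) ∈ E := by
  unfold mvE
  rw [Finset.mem_image]
  constructor
  · rintro ⟨⟨a, b⟩, hab, h⟩
    simp only [Prod.map_apply, Prod.mk.injEq] at h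
    obtain ⟨rfl, rfl⟩ := h
    simpa using hab
  · intro h
    exact ⟨_, h, by simp⟩

theorem mem_mvE' {σ : Equiv.Perm V} {E : Gr V} {x y : V} :
    (σ x, σ y) ∈ mvE σ E ↔ (x, y) ∈ E := by
  rw [mem_mvE]; simp

theorem mvE_mvE (σ τ : Equiv.Perm V) (E : Gr V) : mvE σ (mvE τ E) = mvE (σ * τ) E := by
  ext ⟨x, y⟩
  rw [mem_mvE, mem_mvE, mem_mvE]
  rfl

theorem mv_mv (σ τ : Equiv.Perm V) (p : V × Gr V) : mv σ (mv τ p) = mv (σ * τ) p := by
  unfold mv
  rw [mvE_mvE]
  rfl

theorem mvE_one (E : Gr V) : mvE 1 E = E := by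
  ext ⟨x, y⟩
  rw [mem_mvE]
  rfl

theorem mv_one (p : V × Gr V) : mv 1 p = p := by
  unfold mv
  rw [mvE_one]
  rfl

theorem reach_mvE {σ : Equiv.Perm V} {E : Gr V} {x y : V} (h : Reach E x y) :
    Reach (mvE σ E) (σ x) (σ y) :=
  ReflTransGen.lift σ (fun _ _ h => mem_mvE'.2 h) _ _ h

theorem rp_mvE {σ : Equiv.Perm V} {E : Gr V} {P Q : V → Prop} (hPQ : ∀ x, P x → Q (σ x)) {x y : V}
    (h : RP E P x y) : RP (mvE σ E) Q (σ x) (σ y) :=
  ReflTransGen.lift σ (fun _ _ h => ⟨mem_mvE'.2 h.1, hPQ _ h.2⟩) _ _ h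

theorem reach_mvE_iff {σ : Equiv.Perm V} {E : Gr V} {x y : V} :
    Reach (mvE σ E) (σ x) (σ y) ↔ Reach E x y := by
  refine ⟨fun h => ?_, reach_mvE⟩
  have := reach_mvE (σ := σ⁻¹) h
  rw [mvE_mvE, inv_mul_cancel, mvE_one] at this
  simpa using this

theorem avR_mvE {σ : Equiv.Perm V} {E : Gr V} {v x y : V} (h : AvR E v x y) :
    AvR (mvE σ E) (σ v) (σ x) (σ y) :=
  ⟨fun h' => h.1 (σ.injective h'), rp_mvE (fun _ h h' => h (σ.injective h')) h.2⟩

theorem ip_mvE {σ : Equiv.Perm V} {E : Gr V} {W : V → Prop} (hW : ∀ x, W (σ x) → W x) {x y : V}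
    (h : IP E W x y) : IP (mvE σ E) W (σ x) (σ y) := by
  obtain ⟨u, h1, h2⟩ := h
  exact ⟨σ u, rp_mvE (fun x hx h => hx (hW x h)) h1, mem_mvE'.2 h2⟩

theorem acyc_mvE {σ : Equiv.Perm V} {E : Gr V} (h : Acyc E) : Acyc (mvE σ E) := by
  intro x y hxy hr
  rw [mem_mvE] at hxy
  have h1 : Reach (mvE σ E) (σ (σ.symm y)) (σ (σ.symm x)) := by simpa using hr
  exact h _ _ hxy (reach_mvE_iff.1 h1)

theorem CR.mvE {σ : Equiv.Perm V} {E : Gr V} {ρ : V} {A : Finset V} (h : CR E ρ A)
    (hσ : ∀ a ∈ A, σ a = a) : CR (SD.mvE σ E) (σ ρ) A := by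
  have hσ' : ∀ a ∈ A, σ.symm a = a := by
    intro a ha
    rw [Equiv.symm_apply_eq, hσ a ha]
  have r : ∀ {x y : V}, Reach E (σ.symm x) (σ.symm y) → Reach (SD.mvE σ E) x y := by
    intro x y h
    simpa using reach_mvE (σ := σ) h
  refine ⟨acyc_mvE h.acyc, ?_, ?_, ?_, ?_, h.neA, ?_, ?_⟩
  · intro x hx
    rw [mem_mvE, Equiv.symm_apply_apply] at hx
    exact h.rootin _ hx
  · intro x y hxy
    rw [mem_mvE] at hxy
    refine r ?_
    rw [Equiv.symm_apply_apply]
    exact h.reach _ _ hxy
  · intro x y hxy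
    rw [mem_mvE] at hxy
    obtain ⟨a, ha, h1⟩ := h.coreach _ _ hxy
    refine ⟨a, ha, r ?_⟩
    rwa [hσ' a ha]
  · intro a ha y hy
    rw [mem_mvE, hσ' a ha] at hy
    exact h.leaf a ha _ hy
  · intro a ha
    refine r ?_
    rw [Equiv.symm_apply_apply, hσ' a ha]
    exact h.reachA a ha
  · intro v hv
    obtain ⟨a, ha, h1⟩ := h.dom (σ.symm v) (by
      rintro h2
      rw [Equiv.symm_apply_eq] at h2
      exact hv h2)
    refine ⟨a, ha, ?_⟩
    have := avR_mvE (σ := σ) h1
    rwa [Equiv.apply_symm_apply, hσ a ha] at this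

theorem mvE_sup (σ : Equiv.Perm V) (E : Gr V) (a v b : V) :
    mvE σ (sup E a v b) = sup (mvE σ E) (σ a) (σ v) (σ b) := by
  ext ⟨x, y⟩
  simp only [mem_mvE, sup, Finset.mem_insert, Finset.mem_erase, Prod.mk.injEq, ne_eq,
    Equiv.symm_apply_eq]

theorem mvE_cut (σ : Equiv.Perm V) (E : Gr V) (ρ : V) :
    mvE σ (cut E ρ) = cut (mvE σ E) (σ ρ) := by
  ext ⟨x, y⟩
  simp only [mem_mvE, mem_cut, ne_eq, Equiv.symm_apply_eq]

theorem RS.mv {c : Prop} {p q : V × Gr V} (h : RS c p q) (σ : Equiv.Perm V) :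
    RS c (SD.mv σ p) (SD.mv σ q) := by
  cases h with
  | sup hv h =>
    unfold SD.mv
    rw [mvE_sup]
    refine RS.sup (fun h' => hv (σ.injective h')) ⟨?_, ?_⟩
    · intro x
      rw [mem_mvE, Equiv.symm_apply_apply, h.hin, Equiv.symm_apply_eq]
    · intro x
      rw [mem_mvE, Equiv.symm_apply_apply, h.hout, Equiv.symm_apply_eq]
  | root hc h =>
    rename_i ρ E x y z
    unfold SD.mv
    rw [mvE_cut]
    refine RS.root (y := σ y) (z := σ z) hc ⟨?_, ?_, ?_, ?_⟩
    · intro w
      rw [mem_mvE, Equiv.symm_apply_apply, h.hr, Equiv.symm_apply_eq, Equiv.symm_apply_eq]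
    · intro w
      rw [mem_mvE, Equiv.symm_apply_apply, h.hx, Equiv.symm_apply_eq, Equiv.symm_apply_eq]
    · exact fun h' => h.xy (σ.injective h')
    · exact fun h' => h.yz (σ.injective h')

theorem RSs.mv {c : Prop} {p q : V × Gr V} (h : RSs c p q) (σ : Equiv.Perm V) :
    RSs c (SD.mv σ p) (SD.mv σ q) :=
  ReflTransGen.lift (SD.mv σ) (fun _ _ h => h.mv σ) _ _ h

/-- **Monotonicity**: a subgraph of a graph that simplifies to `M` simplifies to `M` (up to the name
of the root), if it still contains a path for every arc of `M`. -/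
theorem mono {c : Prop} {A : Finset V} {L : V → Prop} {q : V × Gr V} (hq : q.1 ∉ A)
    {p : V × Gr V} (h : RSs c p q) (hp : CR p.2 p.1 A) (hL : ∀ x y, (x, y) ∈ p.2 → ¬ L x)
    (Y : Gr V) (ρY : V) (hYX : Y ⊆ p.2) (hY : CR Y ρY A)
    (h1 : ∀ a b, (a, b) ∈ q.2 → a ≠ q.1 → IP Y (WS q.2 q.1) a b)
    (h2 : ∀ b, (q.1, b) ∈ q.2 → IP Y (WS q.2 q.1) ρY b) :
    ∃ σ : Equiv.Perm V, (∀ x, WS q.2 q.1 x → σ x = x) ∧ (∀ x, L x → σ x = x) ∧
      RSs c (ρY, Y) (mv σ q) := by
  induction h using ReflTransGen.head_induction_on generalizing Y ρY with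
  | refl =>
    obtain ⟨r, M⟩ := q
    simp only at *
    have e1 : ∀ a b, (a, b) ∈ M → a ≠ r → (a, b) ∈ Y := by
      intro a b hab ha
      rcases (h1 a b hab ha).cases with h3 | ⟨v, hv, hW, _⟩
      · exact h3
      · exfalso
        have h4 := hYX hv
        refine hW ⟨⟨a, Or.inr h4⟩, ?_⟩
        rintro rfl
        exact hp.rootin _ h4
    obtain ⟨b0, _, hb0⟩ := hp.root_out hq r
    have e2 : ρY = r := by
      by_contra hne
      have hv : Vt M ρY := by
        rcases (h2 b0 hb0).cases with h3 | ⟨v, hv, _⟩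
        · exact ⟨_, Or.inl (hYX h3)⟩
        · exact ⟨_, Or.inl (hYX hv)⟩
      obtain ⟨a, ha⟩ := hp.has_in hv hne
      by_cases har : a = r
      · subst har
        obtain ⟨u, _, h4⟩ := h2 ρY ha
        exact hY.rootin _ h4
      · exact hY.rootin _ (e1 _ _ ha har)
    subst e2
    have e3 : Y = M := by
      refine Finset.Subset.antisymm hYX ?_
      rintro ⟨a, b⟩ hab
      by_cases ha : a = ρY
      · subst ha
        rcases (h2 b hab).cases with h3 | ⟨v, hv, hW, _⟩
        · exact h3
        · exfalso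
          have h4 := hYX hv
          refine hW ⟨⟨a, Or.inr h4⟩, ?_⟩
          rintro rfl
          exact hp.rootin _ h4
      · exact e1 a b hab ha
    subst e3
    refine ⟨1, fun _ _ => rfl, fun _ _ => rfl, ?_⟩
    rw [mv_one]
  | head hstep hrest ih =>
    rename_i p p1
    have hp1 := hp.step hstep
    have hqc : CR q.2 q.1 A := hp1.steps hrest
    have hWb : ∀ {a b : V}, (a, b) ∈ q.2 → WS q.2 q.1 b := by
      intro a b hab
      refine ⟨⟨a, Or.inr hab⟩, ?_⟩
      rintro rfl
      exact hqc.rootin _ hab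
    have hρYA : ρY ∉ A := by
      intro hmem
      obtain ⟨b0, _, hb0⟩ := hqc.root_out hq q.1
      rcases (h2 b0 hb0).cases with h3 | ⟨v, hv, _⟩
      · exact hY.leaf _ hmem _ h3
      · exact hY.leaf _ hmem _ hv
    cases hstep with
    | sup hv h =>
      rename_i ρ X a v b
      simp only at *
      have hav := hp.acyc.ne h.av
      have hvW : ¬ WS q.2 q.1 v := fun h' =>
        not_vt_sup hp.acyc h (RSs.vt (hp.supp hv h) hrest h'.1)
      have hL1 : ∀ x y, (x, y) ∈ SD.sup X a v b → ¬ L x := by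
        intro x y hxy
        rcases (mem_sup h _ _).1 hxy with ⟨rfl, rfl⟩ | ⟨h3, _, _⟩
        · exact hL _ _ h.av
        · exact hL _ _ h3
      by_cases hvY : Vt Y v
      · have hvρY : v ≠ ρY := by
          rintro rfl
          obtain ⟨y, hy1, hy2⟩ := hY.root_out hρYA b
          exact hy1 ((h.hout y).1 (hYX hy2))
        have hvA : v ∉ A := fun hm => hp.leaf _ hm _ h.vb
        obtain ⟨x, hx⟩ := hY.has_in hvY hvρY
        obtain rfl := (h.hin x).1 (hYX hx)
        obtain ⟨y, hy⟩ := hY.has_out hvY hvA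
        obtain rfl := (h.hout y).1 (hYX hy)
        have hT : Thin Y x v y := by
          refine ⟨fun w => ⟨fun hw => (h.hin w).1 (hYX hw), ?_⟩,
            fun w => ⟨fun hw => (h.hout w).1 (hYX hw), ?_⟩⟩
          · rintro rfl; exact hx
          · rintro rfl; exact hy
        obtain ⟨σ, s1, s2, s3⟩ := ih (hp.supp hv h) hL1 (SD.sup Y x v y) ρY (by
            rintro ⟨u, w⟩ huw
            rcases (mem_sup hT _ _).1 huw with h3 | ⟨h3, h4, h5⟩
            · exact (mem_sup h _ _).2 (Or.inl h3)
            · exact (mem_sup h _ _).2 (Or.inr ⟨hYX h3, h4, h5⟩)) (hY.supp hvρY hT)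
          (by
            intro a' b' hab ha
            rw [ip_sup_iff hT hvW _ _ hav]
            · exact h1 a' b' hab ha
            · rintro rfl
              exact hvW ⟨⟨_, Or.inl hab⟩, ha⟩
            · rintro rfl
              exact hvW (hWb hab))
          (by
            intro b' hb
            rw [ip_sup_iff hT hvW hvρY.symm _ hav]
            · exact h2 b' hb
            · rintro rfl
              exact hvW (hWb hb))
        exact ⟨σ, s1, s2, ReflTransGen.head (RS.sup hvρY hT) s3⟩
      · refine ih (hp.supp hv h) hL1 Y ρY ?_ hY h1 h2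
        rintro ⟨u, w⟩ huw
        refine (mem_sup h _ _).2 (Or.inr ⟨hYX huw, ?_, ?_⟩)
        · rintro rfl; exact hvY ⟨_, Or.inl huw⟩
        · rintro rfl; exact hvY ⟨_, Or.inr huw⟩
    | root hc h =>
      rename_i ρ X x y z
      simp only at *
      have hxW : ¬ WS q.2 q.1 x := by
        rintro ⟨h3, h4⟩
        rcases RSs.root_or (hp.cutt h) hrest with h5 | h5
        · exact h4 h5
        · exact h5 h3
      have hρW : ¬ WS q.2 q.1 ρ := fun h' =>
        not_vt_cut hp.rootin (RSs.vt (hp.cutt h) hrest h'.1)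
      have hL1 : ∀ x y, (x, y) ∈ cut X ρ → ¬ L x := fun x y hxy => hL x y (mem_cut.1 hxy).1
      have hρx : ρ ≠ x := hp.acyc.ne h.ρx
      have hρy : ρ ≠ y := hp.acyc.ne h.ρy
      have hxz : x ≠ z := hp.acyc.ne h.exz
      by_cases hρ : ρY = ρ
      · subst hρ
        have a1 : (ρY, y) ∈ Y := by
          obtain ⟨w, hw1, hw2⟩ := hY.root_out hρYA x
          rcases (h.hr w).1 (hYX hw2) with rfl | rfl
          · exact absurd rfl hw1
          · exact hw2
        have a2 : (ρY, x) ∈ Y := by
          obtain ⟨w, hw1, hw2⟩ := hY.root_out hρYA y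
          rcases (h.hr w).1 (hYX hw2) with rfl | rfl
          · exact hw2
          · exact absurd rfl hw1
        have hxA : x ∉ A := fun hm => hp.leaf _ hm _ h.exy
        by_cases hxy : (x, y) ∈ Y
        · have a3 : (x, z) ∈ Y := by
            obtain ⟨a, ha, h3⟩ := hY.dom y hρy.symm
            rcases ReflTransGen.cases_head h3.2 with h4 | ⟨w, hw, hwa⟩
            · exact absurd (h4 ▸ ha) hρYA
            · rcases (h.hr w).1 (hYX hw.1) with rfl | rfl
              · rcases ReflTransGen.cases_head hwa with h4 | ⟨w', hw', _⟩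
                · exact absurd (h4 ▸ ha) hxA
                · rcases (h.hx w').1 (hYX hw'.1) with rfl | rfl
                  · exact absurd rfl hw'.2
                  · exact hw'.1
              · exact absurd rfl hw.2
          have hT : Tri Y ρY x y z := by
            refine ⟨fun w => ⟨fun hw => (h.hr w).1 (hYX hw), ?_⟩,
              fun w => ⟨fun hw => (h.hx w).1 (hYX hw), ?_⟩, h.xy, h.yz⟩
            · rintro (rfl | rfl) <;> assumption
            · rintro (rfl | rfl) <;> assumption
          obtain ⟨σ, s1, s2, s3⟩ := ih (hp.cutt h) hL1 (cut Y ρY) x (by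
              rintro ⟨u, w⟩ huw
              obtain ⟨h3, h4⟩ := mem_cut.1 huw
              exact mem_cut.2 ⟨hYX h3, h4⟩) (hY.cutt hT)
            (by
              intro a' b' hab ha
              rw [ip_cut hY.rootin]
              · exact h1 a' b' hab ha
              · rintro rfl
                exact hρW ⟨⟨_, Or.inl hab⟩, ha⟩)
            (by
              intro b' hb
              rcases (h2 b' hb).cases with h3 | ⟨v, hv, hvW, h3⟩
              · rcases (h.hr b').1 (hYX h3) with rfl | rfl
                · exact absurd (hWb hb) hxW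
                · exact IP.edge (mem_cut.2 ⟨hxy, hρx.symm⟩)
              · rcases (h.hr v).1 (hYX hv) with rfl | rfl
                · rwa [ip_cut hY.rootin hρx.symm]
                · refine IP.cons (mem_cut.2 ⟨hxy, hρx.symm⟩) hvW ?_
                  rwa [ip_cut hY.rootin hρy.symm])
          exact ⟨σ, s1, s2, ReflTransGen.head (RS.root hc hT) s3⟩
        · have a3 : (x, z) ∈ Y := by
            obtain ⟨w, hw⟩ := hY.has_out ⟨_, Or.inr a2⟩ hxA
            rcases (h.hx w).1 (hYX hw) with rfl | rfl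
            · exact absurd hw hxy
            · exact hw
          have hT : Thin Y ρY x z := by
            refine ⟨fun w => ⟨fun hw => ?_, ?_⟩, fun w => ⟨fun hw => ?_, ?_⟩⟩
            · have h3 := hYX hw
              rcases h.reach (hp.reach _ _ h3) with h4 | h4
              · exact h4
              · exact absurd h4 (hp.acyc _ _ h3)
            · rintro rfl; exact a2
            · rcases (h.hx w).1 (hYX hw) with rfl | rfl
              · exact absurd hw hxy
              · rfl
            · rintro rfl; exact a3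
          have hzρ : z ≠ ρY := by
            rintro rfl
            exact hp.rootin _ h.exz
          set σ0 : Equiv.Perm V := Equiv.swap ρY x with hσ0
          have hσρ : σ0 ρY = x := Equiv.swap_apply_left _ _
          have hσx : σ0 x = ρY := Equiv.swap_apply_right _ _
          have hσn : ∀ w, w ≠ ρY → w ≠ x → σ0 w = w := fun w h3 h4 =>
            Equiv.swap_apply_of_ne_of_ne h3 h4
          have hσW : ∀ w, WS q.2 q.1 w → σ0 w = w := by
            intro w hw
            refine hσn w ?_ ?_
            · rintro rfl; exact hρW hw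
            · rintro rfl; exact hxW hw
          have hσA : ∀ a ∈ A, σ0 a = a := by
            intro a ha
            refine hσn a ?_ ?_
            · rintro rfl; exact hρYA ha
            · rintro rfl; exact hxA ha
          have hσs : σ0.symm = σ0 := by rw [hσ0, Equiv.symm_swap]
          have hsub : mvE σ0 (SD.sup Y ρY x z) ⊆ cut X ρY := by
            rintro ⟨u, w⟩ huw
            rw [mem_mvE, hσs, mem_sup hT] at huw
            rcases huw with ⟨h3, h4⟩ | ⟨h3, h4, h5⟩
            · have e1 : u = x := by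
                rw [← hσx] at h3
                exact σ0.injective h3
              have e2 : w = z := by
                rw [← hσn z hzρ hxz.symm] at h4
                exact σ0.injective h4
              subst e1 e2
              exact mem_cut.2 ⟨h.exz, hρx.symm⟩
            · have hu : u ≠ ρY := by
                rintro rfl; exact h4 hσρ
              have hw : w ≠ ρY := by
                rintro rfl; exact h5 hσρ
              by_cases hux : u = x
              · subst hux
                rw [hσx] at h3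
                rcases (h.hr _).1 (hYX h3) with h6 | h6
                · exact absurd h6 h5
                · rw [← hσn y hρy.symm h.xy.symm] at h6
                  obtain rfl := σ0.injective h6
                  exact mem_cut.2 ⟨h.exy, hu⟩
              · rw [hσn u hu hux] at h3
                by_cases hwx : w = x
                · subst hwx
                  rw [hσx] at h3
                  exact absurd h3 (hY.rootin _)
                · rw [hσn w hw hwx] at h3
                  exact mem_cut.2 ⟨hYX h3, hu⟩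
          have hCR := (hY.supp hρx.symm hT).mvE hσA
          rw [hσρ] at hCR
          have hWσ : ∀ w, WS q.2 q.1 (σ0 w) → WS q.2 q.1 w := by
            intro w hw
            have := hσW _ hw
            have h6 := σ0.injective this
            rwa [h6] at hw
          obtain ⟨τ, s1, s2, s3⟩ := ih (hp.cutt h) hL1 _ x hsub hCR
            (by
              intro a' b' hab ha
              have hWa : WS q.2 q.1 a' := ⟨⟨_, Or.inl hab⟩, ha⟩
              have h3 : IP (SD.sup Y ρY x z) (WS q.2 q.1) a' b' := by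
                rw [ip_sup_iff hT hxW _ _ hρx]
                · exact h1 a' b' hab ha
                · rintro rfl
                  exact hxW hWa
                · rintro rfl
                  exact hxW (hWb hab)
              have h4 := ip_mvE (σ := σ0) hWσ h3
              rwa [hσW _ hWa, hσW _ (hWb hab)] at h4)
            (by
              intro b' hb
              have h3 : IP (SD.sup Y ρY x z) (WS q.2 q.1) ρY b' := by
                rw [ip_sup_iff hT hxW hρx _ hρx]
                · exact h2 b' hb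
                · rintro rfl
                  exact hxW (hWb hb)
              have h4 := ip_mvE (σ := σ0) hWσ h3
              rwa [hσρ, hσW _ (hWb hb)] at h4)
          refine ⟨σ0 * τ, ?_, ?_, ?_⟩
          · intro w hw
            rw [Equiv.Perm.mul_apply, s1 w hw, hσW w hw]
          · intro w hw
            rw [Equiv.Perm.mul_apply, s2 w hw]
            refine hσn w ?_ ?_
            · rintro rfl; exact hL _ _ h.ρx hw
            · rintro rfl; exact hL _ _ h.exy hw
          · have h5 := RSs.mv s3 σ0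
            rw [mv_mv] at h5
            have h6 : mv σ0 (x, mvE σ0 (SD.sup Y ρY x z)) = (ρY, SD.sup Y ρY x z) := by
              unfold mv
              rw [mvE_mvE, hσ0, Equiv.swap_mul_self, mvE_one, ← hσ0, hσx]
            rw [h6] at h5
            exact ReflTransGen.head (RS.sup hρx.symm hT) h5
      · refine ih (hp.cutt h) hL1 Y ρY ?_ hY h1 h2
        rintro ⟨u, w⟩ huw
        refine mem_cut.2 ⟨hYX huw, ?_⟩
        rintro rfl
        rcases ReflTransGen.cases_tail (hY.reach _ _ huw) with h3 | ⟨t, _, ht⟩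
        · exact hρ h3.symm
        · exact hp.rootin _ (hYX ht)

end Pool.Agent.NH85.SD
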