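import Pool.Agent.NH85.SD.Bridge2

/-!
# Small witnesses of compatibility
-/

namespace Pool.Agent.NH85.SDN

open Relation SD

/-! ### Relabelling -/

theorem exists_perm (S : Finset ℕ) : ∃ π : Equiv.Perm ℕ, ∀ x ∈ S, π x < S.card := by
  induction S using Finset.induction_on with
  | empty => exact ⟨1, by simp⟩
  | insert a S ha ih =>
    obtain ⟨π, hπ⟩ := ih
    refine ⟨Equiv.swap (π a) S.card * π, fun x hx => ?_⟩
    rw [Finset.card_insert_of_notMem ha, Equiv.Perm.mul_apply]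
    rcases Finset.mem_insert.1 hx with rfl | hx
    · rw [Equiv.swap_apply_left]
      omega
    · have h1 := hπ x hx
      rw [Equiv.swap_apply_of_ne_of_ne]
      · omega
      · intro h
        rw [π.injective h] at hx
        exact ha hx
      · omega

theorem lsa_mv {σ : Equiv.Perm Vx} {E : Dg} {ρ s : Vx} {A : Finset Vx} (hA : ∀ a ∈ A, σ a = a)
    (h : LSA E ρ A s) : LSA (mvE σ E) (σ ρ) A (σ s) := by
  have key : ∀ {v x a : Vx}, a ∈ A → AvR (mvE σ E) (σ v) (σ x) a → AvR E v x a := by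
    intro v x a ha h1
    have h2 := avR_mvE (σ := σ⁻¹) h1
    have hi : ∀ y, σ⁻¹ (σ y) = y := fun y => σ.symm_apply_apply y
    rw [mvE_mvE, inv_mul_cancel, mvE_one, hi, hi] at h2
    have h3 : σ⁻¹ a = a := by
      rw [Equiv.Perm.inv_eq_iff_eq]
      exact (hA a ha).symm
    rwa [h3] at h2
  refine ⟨fun a ha h1 => h.1 a ha (key ha h1), fun v hv => ?_⟩
  obtain ⟨v, rfl⟩ := σ.surjective v
  refine reach_mvE (h.2 v fun a ha h1 => hv a ha ?_)
  have h2 := avR_mvE (σ := σ) h1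
  rwa [hA a ha] at h2

theorem pu_mv {σ : Equiv.Perm Vx} {E : Dg} {s : Vx} {A : Finset Vx} (hA : ∀ a ∈ A, σ a = a) :
    PU (mvE σ E) (σ s) A = mvE σ (PU E s A) := by
  ext ⟨x, y⟩
  obtain ⟨x, rfl⟩ := σ.surjective x
  obtain ⟨y, rfl⟩ := σ.surjective y
  rw [mem_mvE', mem_PU, mem_PU, mem_mvE', reach_mvE_iff]
  constructor
  · rintro ⟨h1, h2, a, ha, h3⟩
    refine ⟨h1, h2, a, ha, ?_⟩
    rw [← hA a ha, reach_mvE_iff] at h3
    exact h3
  · rintro ⟨h1, h2, a, ha, h3⟩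
    refine ⟨h1, h2, a, ha, ?_⟩
    rw [← hA a ha, reach_mvE_iff]
    exact h3

/-- The bound for the number of arcs. -/
def bnd (l : List MG) : ℕ :=
  11 * (l.map (fun N => 2 + N.1.length + 2 * N.2.length)).sum +
    6 * (l.length * ((l.map (fun N => 2 + N.1.length + 2 * N.2.length)).sum + l.length))

/-- A network with the required restrictions. -/
def Good (c : Prop) (l : List MG) (E : Dg) (ρ : Vx) : Prop :=
  ∀ N ∈ l, ∃ s q, LSA E ρ (im (leaves N)) s ∧ RSs c (s, PU E s (im (leaves N))) q ∧ KN c N q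

theorem network_reach {X : Finset ℕ} {E : Dg} {ρ : Vx} (h : IsNetwork X E ρ) {A : Finset ℕ}
    (hA : A ⊆ X) : ∀ a ∈ im A, Reach E ρ a := by
  intro a ha
  have hp := network_prenet h
  obtain ⟨i, hi, rfl⟩ := mem_im.1 ha
  obtain ⟨w, hw | hw⟩ := (h.leaves i).2 (hA hi)
  · exact absurd ⟨i, rfl⟩ (hp.leafout _ _ hw)
  · exact ReflTransGen.tail (hp.amb.reach _ _ hw) hw

theorem good_of_compatible {c : Prop} {l : List MG} {X : Finset ℕ} {R : Dg} {ρ : Vx}
    (hR : IsNetwork X R ρ)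
    (h : ∀ N ∈ l, leaves N ⊆ X ∧ ∃ G r, IsRestriction c R ρ (leaves N) G r ∧ IsTopology N G r) :
    Good c l R ρ ∧ ∀ N ∈ l, (leaves N).Nonempty := by
  have hp := network_prenet hR
  have hne : ∀ N ∈ l, (leaves N).Nonempty := by
    intro N hN
    obtain ⟨_, G, r, ⟨⟨s, E₀, ⟨_, h3, _⟩, _⟩, _, _⟩, _⟩ := h N hN
    by_contra hcon
    rw [Finset.not_nonempty_iff_eq_empty] at hcon
    have h4 : ∀ i : ℕ, (Sum.inl i : Vx) = s := by
      intro i
      have h5 : Path R (Sum.inl i) s := h3 _ (by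
        intro a ha
        rw [hcon] at ha
        simp at ha)
      rcases ReflTransGen.cases_head h5 with h6 | ⟨z, hz, _⟩
      · exact h6
      · exact absurd ⟨i, rfl⟩ (hp.leafout _ _ hz)
    have h5 := (h4 0).trans (h4 1).symm
    simp at h5
  refine ⟨fun N hN => ?_, hne⟩
  obtain ⟨h1, G, r, ⟨⟨s, E₀, h2, h3⟩, h4, h5⟩, h6⟩ := h N hN
  have h7 := (trimmed_iff hp.acyc (hne N hN) (network_reach hR h1)).1 h2
  obtain ⟨h8, rfl⟩ := h7
  exact ⟨s, (r, G), h8, steps_iff.1 h3, h4, h5, h6⟩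

theorem compatible_of_good {c : Prop} {n : ℕ} {l : List MG} (hl : l ≠ []) {X : Finset ℕ}
    {R : Dg} {ρ : Vx} (hX : X ⊆ Finset.Icc 1 n) (hR : IsNetwork X R ρ)
    (hc : c → ¬ RootTriangle R ρ) (h : Good c l R ρ)
    (h' : ∀ N ∈ l, leaves N ⊆ X ∧ (leaves N).Nonempty) : Compatible c (n, l) := by
  have hp := network_prenet hR
  refine ⟨hl, X, R, ρ, hX, hR, hc, fun N hN => ⟨(h' N hN).1, ?_⟩⟩
  obtain ⟨s, ⟨r, G⟩, h1, h2, h3, h4, h5⟩ := h N hN
  have h6 := (trimmed_iff hp.acyc (h' N hN).2 (network_reach hR (h' N hN).1)).2 ⟨h1, rfl⟩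
  exact ⟨G, r, ⟨⟨s, _, h6, steps_iff.2 h2⟩, h3, h4⟩, h5⟩

/-- **Small witnesses.** -/
theorem small_witness {c : Prop} {n : ℕ} {l : List MG} (h : Compatible c (n, l)) :
    ∃ (X : Finset ℕ) (E : Dg) (ρ : Vx), X ⊆ Finset.Icc 1 n ∧ IsNetwork X E ρ ∧
      (c → ¬ RootTriangle E ρ) ∧ Good c l E ρ ∧ (∀ N ∈ l, leaves N ⊆ X ∧ (leaves N).Nonempty) ∧
      (∀ i ∈ X, ∃ N ∈ l, i ∈ leaves N) ∧ E.card ≤ bnd l ∧
      (∀ j, IsVertex E (Sum.inr j) → j < 2 * bnd l) := by
  classical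
  obtain ⟨hl, X, R, ρ, hX, hR, _, h⟩ := h
  obtain ⟨hG, hne⟩ := good_of_compatible hR h
  have hpR := network_prenet hR
  let N : Fin l.length → MG := fun i => l.get i
  have hN : ∀ i, N i ∈ l := fun i => List.get_mem l i
  have : Nonempty (Fin l.length) := ⟨⟨0, List.length_pos_of_ne_nil hl⟩⟩
  have hF : Fam c Lf (fun i => im (leaves (N i))) (fun i => KN c (N i))
      (fun i => 2 + (N i).1.length + 2 * (N i).2.length) := fam fun i => hne _ (hN i)
  have hS : Sat c (fun i => im (leaves (N i))) (fun i => KN c (N i)) R ρ := fun i =>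
    ⟨network_reach hR (h _ (hN i)).1, hG _ (hN i)⟩
  obtain ⟨E, ρ', hp, hs, hρ, hdeg, hlf, htri, hcard⟩ := small_model hF hpR hS
  have hsum : ∑ i, (2 + (N i).1.length + 2 * (N i).2.length) =
      (l.map (fun N => 2 + N.1.length + 2 * N.2.length)).sum := by
    rw [← List.sum_ofFn]
    congr 1
    conv_rhs => rw [← List.ofFn_get l]
    rw [List.map_ofFn]
    rfl
  have hcard' : E.card ≤ bnd l := by
    rw [hsum, Fintype.card_fin] at hcard
    exact hcard
  let X' : Finset ℕ := (Finset.Icc 1 n).filter (fun i => ∃ N ∈ l, i ∈ leaves N)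
  have hX' : ∀ N ∈ l, leaves N ⊆ X' := by
    intro N hN i hi
    exact Finset.mem_filter.2 ⟨hX ((h N hN).1 hi), N, hN, hi⟩
  have hget : ∀ M ∈ l, ∃ i, N i = M := fun M hM => List.get_of_mem hM
  have hE : IsNetwork X' E ρ' := by
    refine ⟨hp.acyc, lf_iff.1 hp.rootL, ⟨?_, hρ⟩, ?_, ?_, ?_⟩
    · unfold indeg
      rw [Finset.card_eq_zero, Finset.filter_eq_empty_iff]
      rintro ⟨x, y⟩ hxy rfl
      exact hp.rootin x hxy
    · intro i
      constructor
      · intro hi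
        obtain ⟨k, hk⟩ := hlf (Sum.inl i) ⟨i, rfl⟩ hi
        exact hX' _ (hN k) (inl_mem_im.1 hk)
      · intro hi
        obtain ⟨_, M, hM, hi⟩ := Finset.mem_filter.1 hi
        obtain ⟨k, rfl⟩ := hget M hM
        have h1 := (hs k).1 _ (inl_mem_im.2 hi)
        rcases ReflTransGen.cases_tail h1 with h2 | ⟨w, _, hw⟩
        · exact absurd ⟨i, h2.symm⟩ hp.rootL
        · exact ⟨w, Or.inr hw⟩
    · intro i hi
      obtain ⟨_, M, hM, hi⟩ := Finset.mem_filter.1 hi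
      obtain ⟨k, rfl⟩ := hget M hM
      have h1 := (hs k).1 _ (inl_mem_im.2 hi)
      have h3 := hp.leafin (Sum.inl i) ⟨i, rfl⟩
      refine ⟨?_, ?_⟩
      · rcases ReflTransGen.cases_tail h1 with h2 | ⟨w, _, hw⟩
        · exact absurd ⟨i, h2.symm⟩ hp.rootL
        · have h4 : 1 ≤ SD.indeg E (Sum.inl i) := indeg_pos hw
          rw [sd_indeg]
          omega
      · unfold outdeg
        rw [Finset.card_eq_zero, Finset.filter_eq_empty_iff]
        rintro ⟨x, y⟩ hxy hx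
        exact hp.leafout x y hxy ⟨i, hx⟩
    · intro j hj hne
      exact hdeg _ (lf_iff.2 ⟨j, rfl⟩) hne hj
  have hGE : Good c l E ρ' := by
    intro M hM
    obtain ⟨k, rfl⟩ := hget M hM
    exact (hs k).2
  -- relabelling
  let S : Finset ℕ := ((E.image Prod.fst ∪ E.image Prod.snd).toList.filterMap
    Sum.getRight?).toFinset
  have hS1 : ∀ j, IsVertex E (Sum.inr j) → j ∈ S := by
    intro j hj
    simp only [S, List.mem_toFinset, List.mem_filterMap, Finset.mem_toList, Finset.mem_union,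
      Finset.mem_image]
    refine ⟨Sum.inr j, ?_, by simp⟩
    obtain ⟨w, hw | hw⟩ := hj
    · exact Or.inl ⟨_, hw, rfl⟩
    · exact Or.inr ⟨_, hw, rfl⟩
  have hS2 : S.card ≤ 2 * bnd l := by
    refine (List.toFinset_card_le _).trans ((List.length_filterMap_le _ _).trans ?_)
    rw [Finset.length_toList]
    refine (Finset.card_union_le _ _).trans ?_
    have h1 := Finset.card_image_le (s := E) (f := Prod.fst)
    have h2 := Finset.card_image_le (s := E) (f := Prod.snd)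
    omega
  obtain ⟨π, hπ⟩ := exists_perm S
  let σ : Equiv.Perm Vx := Equiv.sumCongr (Equiv.refl ℕ) π
  have hσ : ∀ x, Lf x → σ x = x := by
    rintro x ⟨i, rfl⟩
    rfl
  have hσA : ∀ A : Finset ℕ, ∀ a ∈ im A, σ a = a := by
    intro A a ha
    obtain ⟨i, _, rfl⟩ := mem_im.1 ha
    rfl
  refine ⟨X', mvE σ E, σ ρ', Finset.filter_subset _ _, network_mv hσ hE,
    fun hc => tri_mv ?_, ?_, ?_, ?_, ?_, ?_⟩
  · rintro ⟨x, y, h1, h2, h3⟩
    exact htri hc x y h1 h2 h3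
  · intro M hM
    obtain ⟨s, q, h1, h2, h3⟩ := hGE M hM
    refine ⟨σ s, mv σ q, lsa_mv (hσA _) h1, ?_, ?_⟩
    · rw [pu_mv (hσA _)]
      exact h2.mv σ
    · exact ⟨network_mv hσ h3.1, fun hc => tri_mv (h3.2.1 hc), topology_mv hσ h3.2.2⟩
  · exact fun M hM => ⟨hX' M hM, hne M hM⟩
  · intro i hi
    exact (Finset.mem_filter.1 hi).2
  · exact (Finset.card_image_le).trans hcard'
  · intro j hj
    obtain ⟨v, hv⟩ := σ.surjective (Sum.inr j)
    rw [← hv, vertex_mv] at hj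
    cases v with
    | inl i => simp [σ] at hv
    | inr k =>
      have h1 := hπ k (hS1 k hj)
      simp only [Equiv.sumCongr_apply, Sum.map_inr, Sum.inr.injEq, σ] at hv
      omega

end Pool.Agent.NH85.SDN
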