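import Pool.Agent.NH85.SD.Chk3

/-!
# The checker runs in polynomial time
-/

namespace Pool.Agent.NH85.SDN

open Relation SD Pool.Agent.NPC

variable {α β γ δ σ : Type} [TEnc α] [TEnc β] [TEnc γ] [TEnc δ] [TEnc σ]

theorem foldl_lin {l : α → List β} {s : α → σ} {F : α → σ → β → σ} (hl : Poly l) (hs : Poly s)
    (hF : Poly (fun p : α × σ × β => F p.1 p.2.1 p.2.2)) (C : ℕ)
    (h : ∀ a s b, sz (F a s b) ≤ sz s + C * sz b) : Poly (fun a => (l a).foldl (F a) (s a)) := by
  obtain ⟨r, hr⟩ := hl.sz_le
  obtain ⟨r', hr'⟩ := hs.sz_le
  refine Poly.foldl hl hs hF (r' + Polynomial.C C * r) ?_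
  intro a k _
  have key : ∀ (L : List β) (s : σ), sz (L.foldl (F a) s) ≤ sz s + C * sz L := by
    intro L
    induction L with
    | nil => intro s; simp
    | cons b L ih =>
      intro s
      rw [List.foldl_cons]
      have h1 := ih (F a s b)
      have h2 := h a s b
      rw [sz_list_cons]
      nlinarith
  have h1 := key ((l a).take k) (s a)
  have h2 := Poly.sz_take_le (l a) k
  have h3 := hr a
  have h4 := hr' a
  simp only [Polynomial.eval_add, Polynomial.eval_mul, Polynomial.eval_C]
  have h5 : C * sz ((l a).take k) ≤ C * r.eval (sz a) := Nat.mul_le_mul_left _ (h2.trans h3)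
  omega

theorem rch_poly {es : α → Ar} {av : α → Option Vx} {x : α → Vx} (h1 : Poly es) (h2 : Poly av)
    (h3 : Poly x) : Poly (fun a => rch (es a) (av a) (x a)) := by
  unfold rch
  refine foldl_lin (F := fun a S e => rstep (av a) S e) (s := fun a => [x a]) h1 (by fun_prop) ?_ 1 ?_
  · unfold rstep
    fun_prop
  · intro a S e
    unfold rstep
    obtain ⟨u, v⟩ := e
    split_ifs
    · simp only [sz_list_cons, sz_pair]
      omega
    · omega

attribute [fun_prop] rch_poly
attribute [local irreducible] rch

theorem chk_poly {es : α → Ar} (h1 : Poly es) : Poly (fun a => chk (es a)) := by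
  unfold chk
  refine Poly.snd (foldl_lin (F := fun _ st f => cstep st f) (s := fun _ => (([], true) : Ar × Bool))
    h1 (by fun_prop) ?_ 4 ?_)
  · unfold cstep
    fun_prop
  · rintro a ⟨S, b⟩ e
    unfold cstep
    simp only [sz_list_cons, sz_pair]
    have h4 := sz_bool_le (b && (!decide (e.1 = e.2) && (!decide (e ∈ S) &&
      S.all (fun e' => !decide (e.2 = e'.1)))))
    have h5 := sz_pos e
    have h6 := sz_pos b
    omega

attribute [fun_prop] chk_poly
attribute [local irreducible] chk

theorem supL_poly {l : α → Ar} {a v b : α → Vx} (hl : Poly l) (ha : Poly a) (hv : Poly v)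
    (hb : Poly b) : Poly (fun x => supL (l x) (a x) (v x) (b x)) := by
  unfold supL
  fun_prop

attribute [fun_prop] supL_poly

theorem thinL_poly {l : α → Ar} {a v b : α → Vx} (hl : Poly l) (ha : Poly a) (hv : Poly v)
    (hb : Poly b) : Poly (fun x => thinL (l x) (a x) (v x) (b x)) := by
  unfold thinL
  fun_prop

attribute [fun_prop] thinL_poly

theorem triL_poly {l : α → Ar} {r a v b : α → Vx} (hl : Poly l) (hr : Poly r) (ha : Poly a)
    (hv : Poly v) (hb : Poly b) : Poly (fun x => triL (l x) (r x) (a x) (v x) (b x)) := by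
  unfold triL
  fun_prop

attribute [fun_prop] triL_poly

theorem sz_filter_le (l : List α) (p : α → Bool) : sz (l.filter p) ≤ sz l := by
  induction l with
  | nil => simp
  | cons a l ih =>
    rw [List.filter_cons]
    split_ifs
    · simp only [sz_list_cons]
      omega
    · simp only [sz_list_cons]
      omega

theorem sz_supL_le (l : Ar) (a v b : Vx) : sz (supL l a v b) ≤ sz l + sz a + sz b + 2 := by
  have h := sz_filter_le l (fun e => !decide (e.1 = v) && !decide (e.2 = v))
  unfold supL
  split_ifs
  · omega
  · simp only [sz_list_cons, sz_pair]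
    omega

theorem sz_mstep_le (c : Bool) (st : Option (Vx × Ar)) (m : Mv) :
    sz (mstep c st m) ≤ sz st + 2 * sz m := by
  obtain ⟨b, x, y, z⟩ := m
  cases st with
  | none => simp [mstep]
  | some p =>
    obtain ⟨ρ, l⟩ := p
    simp only [mstep, Option.elim_some]
    have h1 := sz_pos b
    have h2 := sz_pos ρ
    have h3 := sz_pos l
    cases b with
    | true =>
      simp only [cond_true]
      cases (c && triL l ρ x y z) with
      | false => simp only [cond_false, sz_none]; simp only [sz_some, sz_pair]; omega
      | true =>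
        have h := sz_filter_le l (fun e => !decide (e.1 = ρ))
        simp only [cond_true, sz_some, sz_pair]
        omega
    | false =>
      simp only [cond_false]
      cases (!decide (y = ρ) && thinL l x y z) with
      | false => simp only [cond_false, sz_none]; simp only [sz_some, sz_pair]; omega
      | true =>
        have h := sz_supL_le l x y z
        simp only [cond_true, sz_some, sz_pair]
        omega

theorem moves_poly (c : Bool) {ms : α → List Mv} {st : α → Option (Vx × Ar)} (h1 : Poly ms)
    (h2 : Poly st) : Poly (fun a => (ms a).foldl (mstep c) (st a)) := by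
  refine foldl_lin (F := fun _ st m => mstep c st m) h1 h2 ?_ 2 ?_
  · unfold mstep
    fun_prop
  · exact fun _ st m => sz_mstep_le c st m

attribute [fun_prop] moves_poly

theorem len1_poly {l : α → List β} (hl : Poly l) : Poly (fun a => len1 (l a)) := by
  unfold len1
  fun_prop

theorem len2_poly {l : α → List β} (hl : Poly l) : Poly (fun a => len2 (l a)) := by
  unfold len2
  fun_prop

attribute [fun_prop] len1_poly len2_poly
attribute [local irreducible] len1 len2

theorem insL_poly {l : α → Ar} {v : α → Vx} (hl : Poly l) (hv : Poly v) :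
    Poly (fun a => insL (l a) (v a)) := by
  unfold insL
  fun_prop

theorem outsL_poly {l : α → Ar} {v : α → Vx} (hl : Poly l) (hv : Poly v) :
    Poly (fun a => outsL (l a) (v a)) := by
  unfold outsL
  fun_prop

theorem isLb_poly {v : α → Vx} (hv : Poly v) : Poly (fun a => isLb (v a)) := by
  unfold isLb
  fun_prop

theorem verts_poly {l : α → Ar} (hl : Poly l) : Poly (fun a => verts (l a)) := by
  unfold verts
  fun_prop

attribute [fun_prop] insL_poly outsL_poly isLb_poly verts_poly
attribute [local irreducible] insL outsL isLb verts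

theorem netOK_poly {l : α → Ar} {r : α → Vx} (hl : Poly l) (hr : Poly r) :
    Poly (fun a => netOK (l a) (r a)) := by
  unfold netOK
  fun_prop

theorem noTri_poly {l : α → Ar} {r : α → Vx} (hl : Poly l) (hr : Poly r) :
    Poly (fun a => noTri (l a) (r a)) := by
  unfold noTri
  fun_prop

theorem dirB_poly {l : α → Ar} {r x y : α → Vx} (hl : Poly l) (hr : Poly r) (hx : Poly x)
    (hy : Poly y) : Poly (fun a => dirB (l a) (r a) (x a) (y a)) := by
  unfold dirB
  fun_prop

theorem undB_poly {l : α → Ar} {r x y : α → Vx} (hl : Poly l) (hr : Poly r) (hx : Poly x)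
    (hy : Poly y) : Poly (fun a => undB (l a) (r a) (x a) (y a)) := by
  unfold undB
  fun_prop

attribute [fun_prop] netOK_poly noTri_poly dirB_poly undB_poly
attribute [local irreducible] netOK noTri dirB undB

theorem topOK_poly {N : α → MG} {l : α → Ar} {r : α → Vx} {S : α → Ar} (hN : Poly N)
    (hl : Poly l) (hr : Poly r) (hS : Poly S) :
    Poly (fun a => topOK (N a) (l a) (r a) (S a)) := by
  unfold topOK
  fun_prop

theorem leafL_poly {N : α → MG} (hN : Poly N) : Poly (fun a => leafL (N a)) := by
  unfold leafL
  fun_prop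

attribute [fun_prop] topOK_poly leafL_poly
attribute [local irreducible] topOK leafL

theorem puL_poly {es : α → Ar} {s : α → Vx} {A : α → List Vx} (h1 : Poly es) (h2 : Poly s)
    (h3 : Poly A) : Poly (fun a => puL (es a) (s a) (A a)) := by
  unfold puL
  fun_prop

theorem lsaOK_poly {es : α → Ar} {r s : α → Vx} {A : α → List Vx} (h1 : Poly es) (hr : Poly r)
    (h2 : Poly s) (h3 : Poly A) : Poly (fun a => lsaOK (es a) (r a) (A a) (s a)) := by
  unfold lsaOK
  fun_prop

theorem finOK_poly (c : Bool) {N : α → MG} {S : α → Ar} {q : α → Vx × Ar} (h1 : Poly N)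
    (h2 : Poly S) (h3 : Poly q) : Poly (fun a => finOK c (N a) (S a) (q a)) := by
  unfold finOK
  fun_prop

attribute [fun_prop] puL_poly lsaOK_poly finOK_poly
attribute [local irreducible] puL lsaOK finOK

theorem okN_poly (c : Bool) {es : α → Ar} {r : α → Vx} {N : α → MG} {d : α → Dt} (h1 : Poly es)
    (h2 : Poly r) (h3 : Poly N) (h4 : Poly d) :
    Poly (fun a => okN c (es a) (r a) (N a) (d a)) := by
  unfold okN
  fun_prop

attribute [fun_prop] okN_poly
attribute [local irreducible] okN

theorem RR_poly (c : Bool) : Poly (RR c) := by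
  unfold RR
  fun_prop

end Pool.Agent.NH85.SDN
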