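import Pool.Agent.NH85.SD.Sup

/-!
# Networks in which vertices of degree two are allowed
-/

namespace Pool.Agent.NH85.SD

set_option linter.unusedSectionVars false

open Relation

variable {V : Type} [DecidableEq V]

/-- The number of arcs entering `v`. -/
def indeg (E : Gr V) (v : V) : ℕ := (E.filter (fun e => e.2 = v)).card

/-- The number of arcs leaving `v`. -/
def outdeg (E : Gr V) (v : V) : ℕ := (E.filter (fun e => e.1 = v)).card

theorem indeg_mono {E E' : Gr V} (h : E ⊆ E') (v : V) : indeg E v ≤ indeg E' v :=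
  Finset.card_le_card (Finset.filter_subset_filter _ h)

theorem outdeg_mono {E E' : Gr V} (h : E ⊆ E') (v : V) : outdeg E v ≤ outdeg E' v :=
  Finset.card_le_card (Finset.filter_subset_filter _ h)

theorem indeg_pos {E : Gr V} {x v : V} (h : (x, v) ∈ E) : 1 ≤ indeg E v :=
  Finset.card_pos.2 ⟨(x, v), Finset.mem_filter.2 ⟨h, rfl⟩⟩

theorem outdeg_pos {E : Gr V} {x v : V} (h : (v, x) ∈ E) : 1 ≤ outdeg E v :=
  Finset.card_pos.2 ⟨(v, x), Finset.mem_filter.2 ⟨h, rfl⟩⟩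

theorem two_le_indeg {E : Gr V} {x y v : V} (h : (x, v) ∈ E) (h' : (y, v) ∈ E) (hne : x ≠ y) :
    2 ≤ indeg E v := by
  have : ({(x, v), (y, v)} : Gr V) ⊆ E.filter (fun e => e.2 = v) := by
    intro e he
    simp only [Finset.mem_insert, Finset.mem_singleton] at he
    rcases he with rfl | rfl
    · exact Finset.mem_filter.2 ⟨h, rfl⟩
    · exact Finset.mem_filter.2 ⟨h', rfl⟩
  have h2 := Finset.card_le_card this
  rwa [Finset.card_pair (fun h => hne (Prod.mk.inj h).1)] at h2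

theorem two_le_outdeg {E : Gr V} {x y v : V} (h : (v, x) ∈ E) (h' : (v, y) ∈ E) (hne : x ≠ y) :
    2 ≤ outdeg E v := by
  have : ({(v, x), (v, y)} : Gr V) ⊆ E.filter (fun e => e.1 = v) := by
    intro e he
    simp only [Finset.mem_insert, Finset.mem_singleton] at he
    rcases he with rfl | rfl
    · exact Finset.mem_filter.2 ⟨h, rfl⟩
    · exact Finset.mem_filter.2 ⟨h', rfl⟩
  have h2 := Finset.card_le_card this
  rwa [Finset.card_pair (fun h => hne (Prod.mk.inj h).2)] at h2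

theorem eq_of_indeg_le_one {E : Gr V} {x y v : V} (h1 : indeg E v ≤ 1) (h : (x, v) ∈ E)
    (h' : (y, v) ∈ E) : x = y := by
  by_contra hne
  have := two_le_indeg h h' hne
  omega

theorem eq_of_outdeg_le_one {E : Gr V} {x y v : V} (h1 : outdeg E v ≤ 1) (h : (v, x) ∈ E)
    (h' : (v, y) ∈ E) : x = y := by
  by_contra hne
  have := two_le_outdeg h h' hne
  omega

theorem eq_of_outdeg_le_two {E : Gr V} {x y c v : V} (h1 : outdeg E v ≤ 2) (hx : (v, x) ∈ E)
    (hy : (v, y) ∈ E) (hc : (v, c) ∈ E) (hxc : x ≠ c) (hyc : y ≠ c) : x = y := by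
  by_contra hne
  have : ({(v, x), (v, y), (v, c)} : Gr V) ⊆ E.filter (fun e => e.1 = v) := by
    intro e he
    simp only [Finset.mem_insert, Finset.mem_singleton] at he
    rcases he with rfl | rfl | rfl <;> exact Finset.mem_filter.2 ⟨by assumption, rfl⟩
  have h2 := Finset.card_le_card this
  rw [Finset.card_eq_three.2 ⟨_, _, _, fun h => hne (Prod.mk.inj h).2,
    fun h => hxc (Prod.mk.inj h).2, fun h => hyc (Prod.mk.inj h).2, rfl⟩] at h2
  unfold outdeg at h1
  omega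

theorem eq_of_indeg_le_two {E : Gr V} {x y c v : V} (h1 : indeg E v ≤ 2) (hx : (x, v) ∈ E)
    (hy : (y, v) ∈ E) (hc : (c, v) ∈ E) (hxc : x ≠ c) (hyc : y ≠ c) : x = y := by
  by_contra hne
  have : ({(x, v), (y, v), (c, v)} : Gr V) ⊆ E.filter (fun e => e.2 = v) := by
    intro e he
    simp only [Finset.mem_insert, Finset.mem_singleton] at he
    rcases he with rfl | rfl | rfl <;> exact Finset.mem_filter.2 ⟨by assumption, rfl⟩
  have h2 := Finset.card_le_card this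
  rw [Finset.card_eq_three.2 ⟨_, _, _, fun h => hne (Prod.mk.inj h).1,
    fun h => hxc (Prod.mk.inj h).1, fun h => hyc (Prod.mk.inj h).1, rfl⟩] at h2
  unfold indeg at h1
  omega

/-- A rooted network in which vertices of degree two are allowed; the vertices with `L` are the
leaves. -/
structure PreNet (L : V → Prop) (E : Gr V) (ρ : V) : Prop where
  acyc : Acyc E
  rootin : ∀ x, (x, ρ) ∉ E
  rootL : ¬ L ρ
  rootout : ∃ y, (ρ, y) ∈ E
  rootdeg : outdeg E ρ ≤ 2
  leafout : ∀ x y, (x, y) ∈ E → ¬ L x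
  leafin : ∀ v, L v → indeg E v ≤ 1
  innerin : ∀ x y, (x, y) ∈ E → x ≠ ρ → ∃ w, (w, x) ∈ E
  innerout : ∀ x y, (x, y) ∈ E → ¬ L y → ∃ w, (y, w) ∈ E
  deg : ∀ v, ¬ L v → v ≠ ρ → indeg E v + outdeg E v ≤ 3

open Classical in
/-- A number that increases along arcs. -/
noncomputable def rk (E : Gr V) (x : V) : ℕ := (E.filter (fun e => Reach E e.2 x)).card

theorem rk_lt {E : Gr V} (hE : Acyc E) {x y : V} (h : (x, y) ∈ E) : rk E x < rk E y := by
  classical
  unfold rk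
  refine Finset.card_lt_card ⟨fun e he => ?_, fun hss => ?_⟩
  · rw [Finset.mem_filter] at he ⊢
    exact ⟨he.1, ReflTransGen.tail he.2 h⟩
  · have h1 := hss (Finset.mem_filter.2 ⟨h, ReflTransGen.refl⟩)
    exact hE x y h (Finset.mem_filter.1 h1).2

theorem PreNet.amb {L : V → Prop} {E : Gr V} {ρ : V} (h : PreNet L E ρ) : Amb E ρ := by
  refine ⟨h.acyc, h.rootin, ?_⟩
  have key : ∀ n x y, rk E x ≤ n → (x, y) ∈ E → Reach E ρ x := by
    intro n
    induction n with
    | zero =>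
      intro x y hn hxy
      by_cases hx : x = ρ
      · rw [hx]; exact ReflTransGen.refl
      · obtain ⟨w, hw⟩ := h.innerin x y hxy hx
        have := rk_lt h.acyc hw
        omega
    | succ n ih =>
      intro x y hn hxy
      by_cases hx : x = ρ
      · rw [hx]; exact ReflTransGen.refl
      · obtain ⟨w, hw⟩ := h.innerin x y hxy hx
        have := rk_lt h.acyc hw
        exact ReflTransGen.tail (ih w x (by omega) hw) hw
  exact fun x y hxy => key _ x y le_rfl hxy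

theorem indeg_sup_le {E : Gr V} (hE : Acyc E) {a v b : V} (h : Thin E a v b) (w : V) :
    indeg (sup E a v b) w ≤ indeg E w := by
  have hav := hE.ne h.av
  refine Finset.card_le_card_of_injOn (fun e => if e = (a, b) then (v, b) else e) ?_ ?_
  · rintro ⟨x, y⟩ he
    simp only [Finset.coe_filter, Set.mem_ofPred_eq] at he ⊢
    obtain ⟨h1, rfl⟩ := he
    by_cases hxy : (x, y) = (a, b)
    · rw [if_pos hxy]
      simp only [Prod.mk.injEq] at hxy
      obtain ⟨rfl, rfl⟩ := hxy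
      exact ⟨h.vb, rfl⟩
    · rw [if_neg hxy]
      rcases (mem_sup h _ _).1 h1 with ⟨rfl, rfl⟩ | ⟨h2, _, _⟩
      · exact absurd rfl hxy
      · exact ⟨h2, rfl⟩
  · rintro ⟨x, y⟩ he ⟨x', y'⟩ he' heq
    simp only [Finset.coe_filter, Set.mem_ofPred_eq] at he he'
    simp only at heq
    split_ifs at heq with h1 h2 h2
    · rw [h1, h2]
    · exfalso
      rw [← heq] at he'
      exact not_vt_sup hE h ⟨b, Or.inl he'.1⟩
    · exfalso
      rw [heq] at he
      exact not_vt_sup hE h ⟨b, Or.inl he.1⟩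
    · exact heq

theorem outdeg_sup_le {E : Gr V} (hE : Acyc E) {a v b : V} (h : Thin E a v b) (w : V) :
    outdeg (sup E a v b) w ≤ outdeg E w := by
  refine Finset.card_le_card_of_injOn (fun e => if e = (a, b) then (a, v) else e) ?_ ?_
  · rintro ⟨x, y⟩ he
    simp only [Finset.coe_filter, Set.mem_ofPred_eq] at he ⊢
    obtain ⟨h1, rfl⟩ := he
    by_cases hxy : (x, y) = (a, b)
    · rw [if_pos hxy]
      simp only [Prod.mk.injEq] at hxy
      obtain ⟨rfl, rfl⟩ := hxy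
      exact ⟨h.av, rfl⟩
    · rw [if_neg hxy]
      rcases (mem_sup h _ _).1 h1 with ⟨rfl, rfl⟩ | ⟨h2, _, _⟩
      · exact absurd rfl hxy
      · exact ⟨h2, rfl⟩
  · rintro ⟨x, y⟩ he ⟨x', y'⟩ he' heq
    simp only [Finset.coe_filter, Set.mem_ofPred_eq] at he he'
    simp only at heq
    split_ifs at heq with h1 h2 h2
    · rw [h1, h2]
    · exfalso
      rw [← heq] at he'
      exact not_vt_sup hE h ⟨a, Or.inr he'.1⟩
    · exfalso
      rw [heq] at he
      exact not_vt_sup hE h ⟨a, Or.inr he.1⟩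
    · exact heq

theorem PreNet.supp {L : V → Prop} {E : Gr V} {ρ : V} (hE : PreNet L E ρ) {a v b : V}
    (hv : v ≠ ρ) (h : Thin E a v b) : PreNet L (sup E a v b) ρ := by
  have hab : (a, b) ∈ sup E a v b := (mem_sup h _ _).2 (Or.inl ⟨rfl, rfl⟩)
  have hav := hE.acyc.ne h.av
  refine ⟨acyc_sup hE.acyc h, ?_, hE.rootL, ?_, (outdeg_sup_le hE.acyc h ρ).trans hE.rootdeg,
    ?_, fun w hw => (indeg_sup_le hE.acyc h w).trans (hE.leafin w hw), ?_, ?_, fun w h1 h2 =>
      (Nat.add_le_add (indeg_sup_le hE.acyc h w) (outdeg_sup_le hE.acyc h w)).trans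
        (hE.deg w h1 h2)⟩
  · intro x hx
    rcases (mem_sup h _ _).1 hx with ⟨rfl, h2⟩ | ⟨h1, _, _⟩
    · rw [← h2] at h
      exact hE.rootin v h.vb
    · exact hE.rootin x h1
  · obtain ⟨y, hy⟩ := hE.rootout
    by_cases hyv : y = v
    · subst hyv
      obtain rfl := (h.hin ρ).1 hy
      exact ⟨b, hab⟩
    · exact ⟨y, (mem_sup h _ _).2 (Or.inr ⟨hy, hv.symm, hyv⟩)⟩
  · intro x y hxy
    rcases (mem_sup h _ _).1 hxy with ⟨rfl, rfl⟩ | ⟨h1, _, _⟩
    · exact hE.leafout _ _ h.av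
    · exact hE.leafout _ _ h1
  · intro x y hxy hx
    have hxE : ∃ y, (x, y) ∈ E ∧ x ≠ v := by
      rcases (mem_sup h _ _).1 hxy with ⟨rfl, rfl⟩ | ⟨h1, h2, _⟩
      · exact ⟨v, h.av, hav⟩
      · exact ⟨y, h1, h2⟩
    obtain ⟨y', hy', hxv⟩ := hxE
    obtain ⟨w, hw⟩ := hE.innerin x y' hy' hx
    by_cases hwv : w = v
    · subst hwv
      obtain rfl := (h.hout x).1 hw
      exact ⟨a, hab⟩
    · exact ⟨w, (mem_sup h _ _).2 (Or.inr ⟨hw, hwv, hxv⟩)⟩
  · intro x y hxy hy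
    have hyE : ∃ x, (x, y) ∈ E ∧ y ≠ v := by
      rcases (mem_sup h _ _).1 hxy with ⟨rfl, rfl⟩ | ⟨h1, _, h2⟩
      · exact ⟨v, h.vb, (hE.acyc.ne h.vb).symm⟩
      · exact ⟨x, h1, h2⟩
    obtain ⟨x', hx', hyv⟩ := hyE
    obtain ⟨w, hw⟩ := hE.innerout x' y hx' hy
    by_cases hwv : w = v
    · subst hwv
      obtain rfl := (h.hin y).1 hw
      exact ⟨b, hab⟩
    · exact ⟨w, (mem_sup h _ _).2 (Or.inr ⟨hw, hyv, hwv⟩)⟩

theorem PreNet.cutt {L : V → Prop} {E : Gr V} {ρ d : V} (hE : PreNet L E ρ)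
    (hd : ∀ y, (ρ, y) ∈ E ↔ y = d) (hL : ¬ L d) : PreNet L (cut E ρ) d := by
  have hρd : (ρ, d) ∈ E := (hd d).2 rfl
  have hne : ρ ≠ d := hE.acyc.ne hρd
  refine ⟨hE.acyc.mono (cut_subset _ _), ?_, hL, ?_, ?_, fun x y hxy =>
    hE.leafout x y (mem_cut.1 hxy).1, fun w hw =>
      (indeg_mono (cut_subset _ _) w).trans (hE.leafin w hw), ?_, ?_, ?_⟩
  · intro x hx
    obtain ⟨h1, h2⟩ := mem_cut.1 hx
    rcases ReflTransGen.cases_head (hE.amb.reach x d h1) with h3 | ⟨y, hy, h3⟩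
    · exact h2 h3.symm
    · obtain rfl := (hd y).1 hy
      exact hE.acyc x y h1 h3
  · obtain ⟨w, hw⟩ := hE.innerout ρ d hρd hL
    exact ⟨w, mem_cut.2 ⟨hw, hne.symm⟩⟩
  · have h1 := hE.deg d hL hne.symm
    have h2 := indeg_pos hρd
    have h3 := outdeg_mono (cut_subset E ρ) d
    omega
  · intro x y hxy hx
    obtain ⟨h1, h2⟩ := mem_cut.1 hxy
    obtain ⟨w, hw⟩ := hE.innerin x y h1 h2
    refine ⟨w, mem_cut.2 ⟨hw, ?_⟩⟩
    rintro rfl
    exact hx ((hd x).1 hw)
  · intro x y hxy hy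
    obtain ⟨h1, h2⟩ := mem_cut.1 hxy
    obtain ⟨w, hw⟩ := hE.innerout x y h1 hy
    refine ⟨w, mem_cut.2 ⟨hw, ?_⟩⟩
    rintro rfl
    exact hE.rootin _ h1
  · intro w hw _
    by_cases hwρ : w = ρ
    · subst hwρ
      have h1 : indeg (cut E w) w = 0 := by
        unfold indeg
        rw [Finset.card_eq_zero, Finset.filter_eq_empty_iff]
        rintro ⟨x, y⟩ hxy rfl
        exact hE.rootin x (mem_cut.1 hxy).1
      have h2 : outdeg (cut E w) w = 0 := by
        unfold outdeg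
        rw [Finset.card_eq_zero, Finset.filter_eq_empty_iff]
        rintro ⟨x, y⟩ hxy rfl
        exact (mem_cut.1 hxy).2 rfl
      omega
    · have h1 := hE.deg w hw hwρ
      have h2 := outdeg_mono (cut_subset E ρ) w
      have h3 := indeg_mono (cut_subset E ρ) w
      omega

theorem PreNet.sub {L : V → Prop} {E E' : Gr V} {ρ : V} (hE : PreNet L E ρ) (hsub : E' ⊆ E)
    (h1 : ∃ y, (ρ, y) ∈ E') (h2 : ∀ x y, (x, y) ∈ E' → x ≠ ρ → ∃ w, (w, x) ∈ E')
    (h3 : ∀ x y, (x, y) ∈ E' → ¬ L y → ∃ w, (y, w) ∈ E') : PreNet L E' ρ :=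
  ⟨hE.acyc.mono hsub, fun x hx => hE.rootin x (hsub hx), hE.rootL, h1,
    (outdeg_mono hsub ρ).trans hE.rootdeg, fun x y hxy => hE.leafout x y (hsub hxy),
    fun v hv => (indeg_mono hsub v).trans (hE.leafin v hv), h2, h3, fun v hv hv' =>
      (Nat.add_le_add (indeg_mono hsub v) (outdeg_mono hsub v)).trans (hE.deg v hv hv')⟩

end Pool.Agent.NH85.SD
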