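import Mathlib
import Pool.Agent.NPC.Defs

/-!
# Compatibility of phylogenetic semi-directed networks: definitions
-/

namespace Pool.Agent.NH85.SDN

open Relation

/-- The names of the vertices: `Sum.inl i` is the leaf labelled `i`, and the vertices that are not
leaves are named `Sum.inr j`. -/
abbrev Vx : Type := ℕ ⊕ ℕ

/-- A finite directed graph without parallel arcs, given by its set of arcs. -/
abbrev Dg : Type := Finset (Vx × Vx)

/-- There is a directed path from `x` to `y`. -/
def Path (E : Dg) (x y : Vx) : Prop := ReflTransGen (fun a b => (a, b) ∈ E) x y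

/-- There is a directed path from `x` to `y` that does not contain `v`. -/
def PathAvoiding (E : Dg) (v x y : Vx) : Prop :=
  x ≠ v ∧ ReflTransGen (fun a b => (a, b) ∈ E ∧ b ≠ v) x y

/-- The number of arcs entering `v`. -/
def indeg (E : Dg) (v : Vx) : ℕ := (E.filter (fun e => e.2 = v)).card

/-- The number of arcs leaving `v`. -/
def outdeg (E : Dg) (v : Vx) : ℕ := (E.filter (fun e => e.1 = v)).card

/-- `v` is a vertex of `E`. -/
def IsVertex (E : Dg) (v : Vx) : Prop := ∃ w, (v, w) ∈ E ∨ (w, v) ∈ E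

/-- `E` is a (rooted) phylogenetic network with leaf set `X` and root `ρ`. -/
structure IsNetwork (X : Finset ℕ) (E : Dg) (ρ : Vx) : Prop where
  acyclic : ∀ x y, (x, y) ∈ E → ¬ Path E y x
  root_name : ∃ j, ρ = Sum.inr j
  root_deg : indeg E ρ = 0 ∧ outdeg E ρ = 2
  leaves : ∀ i, IsVertex E (Sum.inl i) ↔ i ∈ X
  leaf_deg : ∀ i ∈ X, indeg E (Sum.inl i) = 1 ∧ outdeg E (Sum.inl i) = 0
  inner_deg : ∀ j, IsVertex E (Sum.inr j) → Sum.inr j ≠ ρ →
    (indeg E (Sum.inr j) = 1 ∧ outdeg E (Sum.inr j) = 2) ∨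
    (indeg E (Sum.inr j) = 2 ∧ outdeg E (Sum.inr j) = 1)

/-- The two children of the root are joined by an arc. -/
def RootTriangle (E : Dg) (ρ : Vx) : Prop := ∃ x y, (ρ, x) ∈ E ∧ (ρ, y) ∈ E ∧ (x, y) ∈ E

/-! ### Restriction to a set of leaves -/

/-- The vertex `v` lies on all directed paths from the root `ρ` to leaves in `A`. -/
def OnAll (E : Dg) (ρ : Vx) (A : Finset ℕ) (v : Vx) : Prop :=
  ∀ a ∈ A, ¬ PathAvoiding E v ρ (Sum.inl a)

/-- Steps (i) and (ii) of the restriction: `E₀` consists of the arcs of the directed paths from the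
root `ρ` to leaves in `A` without the arcs of vertices above a vertex that lies on all these paths.
The new root `s` is the lowest vertex that lies on all these paths. -/
def Trimmed (E : Dg) (ρ : Vx) (A : Finset ℕ) (s : Vx) (E₀ : Dg) : Prop :=
  OnAll E ρ A s ∧ (∀ v, OnAll E ρ A v → Path E v s) ∧
  ∀ x y, (x, y) ∈ E₀ ↔ ((x, y) ∈ E ∧ Path E ρ x ∧ ∃ a ∈ A, Path E y (Sum.inl a)) ∧
    ∀ v, OnAll E ρ A v → ¬ (x ≠ v ∧ Path E x v)

/-- One simplification step of a rooted graph (given by its root and its set of arcs).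

* `suppress`: step (iii), a vertex `v` of in-degree one and out-degree one other than the root is
  suppressed.  As arcs form a set, parallel arcs are deleted automatically, which is step (iv).
* `root`: this step is used only if `simple` holds, that is, if parallel edges of the
  semi-directed topology are deleted, too.  If the children `x` and `y` of the root `ρ` are joined
  by the arc `(x, y)`, then suppressing the root gives two parallel arcs `(x, y)`.  One of them is
  deleted; for the rooted graph this means that `ρ` is deleted and `x` becomes the root. -/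
inductive Step (simple : Prop) : Vx × Dg → Vx × Dg → Prop
  | suppress {ρ : Vx} {E : Dg} {a v b : Vx} (hv : v ≠ ρ) (h1 : indeg E v = 1)
      (h2 : outdeg E v = 1) (ha : (a, v) ∈ E) (hb : (v, b) ∈ E) :
      Step simple (ρ, E) (ρ, insert (a, b) ((E.erase (a, v)).erase (v, b)))
  | root {ρ : Vx} {E : Dg} {x y z : Vx} (hc : simple) (h1 : ∀ w, (ρ, w) ∈ E ↔ w = x ∨ w = y)
      (h2 : ∀ w, (x, w) ∈ E ↔ w = y ∨ w = z) (hxy : x ≠ y) (hyz : y ≠ z) :
      Step simple (ρ, E) (x, E.filter (fun e => e.1 ≠ ρ))

/-- The network `G` with root `r` is the restriction of `E` (with root `ρ`) to the set `A` of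
leaves. If `simple` holds, then the simplification goes on until the semi-directed topology has no
parallel edges. -/
def IsRestriction (simple : Prop) (E : Dg) (ρ : Vx) (A : Finset ℕ) (G : Dg) (r : Vx) : Prop :=
  (∃ s E₀, Trimmed E ρ A s E₀ ∧ ReflTransGen (Step simple) (s, E₀) (r, G)) ∧
  IsNetwork A G r ∧ (simple → ¬ RootTriangle G r)

/-! ### Semi-directed topology -/

/-- `(x, y)` is a directed edge of the semi-directed topology of the network `E` with root `ρ`. -/
def DirEdge (E : Dg) (ρ x y : Vx) : Prop :=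
  indeg E y = 2 ∧ (((x, y) ∈ E ∧ x ≠ ρ) ∨ ((ρ, x) ∈ E ∧ (ρ, y) ∈ E ∧ x ≠ y))

/-- `{x, y}` is an undirected edge of the semi-directed topology of the network `E` with root
`ρ`. -/
def UndEdge (E : Dg) (ρ x y : Vx) : Prop :=
  ((x, y) ∈ E ∧ x ≠ ρ ∧ indeg E y ≠ 2) ∨ ((y, x) ∈ E ∧ y ≠ ρ ∧ indeg E x ≠ 2) ∨
  ((ρ, x) ∈ E ∧ (ρ, y) ∈ E ∧ x ≠ y ∧ indeg E x ≠ 2 ∧ indeg E y ≠ 2)

/-- A leaf-labelled mixed graph: the list of its directed edges and the list of its undirected
edges (each given by the pair of its end points, in any order). -/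
abbrev MG : Type := List (Vx × Vx) × List (Vx × Vx)

/-- The labels of the leaves of a mixed graph. -/
def leaves (N : MG) : Finset ℕ :=
  (((N.1 ++ N.2).flatMap (fun e => [e.1, e.2])).filterMap Sum.getLeft?).toFinset

/-- The mixed graph `N` is isomorphic to the semi-directed topology of `E` (with root `ρ`), by an
isomorphism that preserves the labels of leaves. -/
def IsTopology (N : MG) (E : Dg) (ρ : Vx) : Prop :=
  ∃ f : Vx → Vx, (∀ i, f (Sum.inl i) = Sum.inl i) ∧
    (∀ x y, IsVertex E x → IsVertex E y → x ≠ ρ → y ≠ ρ → f x = f y → x = y) ∧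
    (∀ u v, (u, v) ∈ N.1 ↔ ∃ x y, DirEdge E ρ x y ∧ f x = u ∧ f y = v) ∧
    (∀ u v, ((u, v) ∈ N.2 ∨ (v, u) ∈ N.2) ↔ ∃ x y, UndEdge E ρ x y ∧ f x = u ∧ f y = v)

/-- The finite nonempty set of mixed graphs given by the list `p.2` is compatible: some
phylogenetic network with leaf set `X ⊆ {1, …, p.1}` has restrictions with the given
semi-directed topologies. If `simple` holds, then semi-directed topologies are not allowed to have
parallel edges. -/
def Compatible (simple : Prop) (p : ℕ × List MG) : Prop :=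
  p.2 ≠ [] ∧ ∃ (X : Finset ℕ) (R : Dg) (ρ : Vx), X ⊆ Finset.Icc 1 p.1 ∧ IsNetwork X R ρ ∧
    (simple → ¬ RootTriangle R ρ) ∧
    ∀ N ∈ p.2, leaves N ⊆ X ∧ ∃ G r, IsRestriction simple R ρ (leaves N) G r ∧ IsTopology N G r

end Pool.Agent.NH85.SDN
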