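import Pool.Agent.NH85.SD.Lab

/-!
# Restriction to a set of leaves, and subnetworks
-/

namespace Pool.Agent.NH85.SD

set_option linter.unusedSectionVars false

open Relation

variable {V : Type} [DecidableEq V]

/-- `v` lies on all directed paths from `ρ` to `A`. -/
def Dom (E : Gr V) (ρ : V) (A : Finset V) (v : V) : Prop := ∀ a ∈ A, ¬ AvR E v ρ a

/-- `s` is the lowest vertex that lies on all directed paths from `ρ` to `A`. -/
def LSA (E : Gr V) (ρ : V) (A : Finset V) (s : V) : Prop :=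
  Dom E ρ A s ∧ ∀ v, Dom E ρ A v → Reach E v s

open Classical in
/-- The union of the directed paths from `s` to `A`. -/
noncomputable def PU (E : Gr V) (s : V) (A : Finset V) : Gr V :=
  E.filter (fun e => Reach E s e.1 ∧ ∃ a ∈ A, Reach E e.2 a)

theorem mem_PU {E : Gr V} {s : V} {A : Finset V} {x y : V} :
    (x, y) ∈ PU E s A ↔ (x, y) ∈ E ∧ Reach E s x ∧ ∃ a ∈ A, Reach E y a := by
  simp [PU]

theorem PU_subset (E : Gr V) (s : V) (A : Finset V) : PU E s A ⊆ E := by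
  rintro ⟨x, y⟩ h
  exact (mem_PU.1 h).1

theorem dom_comparable {E : Gr V} {ρ : V} {A : Finset V} {v w a : V} (ha : a ∈ A)
    (hr : Reach E ρ a) (hv : Dom E ρ A v) (hw : Dom E ρ A w) : Reach E v w ∨ Reach E w v := by
  obtain ⟨h1, h2⟩ := through_of_not_avR hr (hw a ha)
  by_cases h : AvR E v ρ w
  · right
    exact (through_of_not_avR h2 fun h' => hv a ha (h.trans h')).1
  · left
    exact (through_of_not_avR h1 h).2

theorem exists_LSA {E : Gr V} {ρ : V} {A : Finset V} (_hE : Acyc E) (hA : A.Nonempty)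
    (hr : ∀ a ∈ A, Reach E ρ a) : ∃ s, LSA E ρ A s := by
  classical
  obtain ⟨a, ha⟩ := hA
  let S : Finset V := (insert ρ (E.image Prod.snd)).filter (fun v => Dom E ρ A v)
  have hmem : ∀ v, Dom E ρ A v → v ∈ S := by
    intro v hv
    refine Finset.mem_filter.2 ⟨?_, hv⟩
    have h1 := (through_of_not_avR (hr a ha) (hv a ha)).1
    rcases ReflTransGen.cases_tail h1 with h2 | ⟨w, _, hw⟩
    · rw [h2]; exact Finset.mem_insert_self _ _
    · exact Finset.mem_insert_of_mem (Finset.mem_image.2 ⟨_, hw, rfl⟩)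
  have hρ : ρ ∈ S := hmem ρ fun a _ h => h.1 rfl
  obtain ⟨s, hs, hmin⟩ := Finset.exists_min_image S
    (fun v => (S.filter (fun w => Reach E v w)).card) ⟨ρ, hρ⟩
  have hsD : Dom E ρ A s := (Finset.mem_filter.1 hs).2
  refine ⟨s, hsD, fun v hv => ?_⟩
  rcases dom_comparable ha (hr a ha) hv hsD with h | h
  · exact h
  · by_contra hn
    have h1 := hmin v (hmem v hv)
    have h2 : S.filter (fun w => Reach E v w) ⊂ S.filter (fun w => Reach E s w) := by
      refine ⟨fun w hw => ?_, fun hss => ?_⟩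
      · rw [Finset.mem_filter] at hw ⊢
        exact ⟨hw.1, ReflTransGen.trans h hw.2⟩
      · have h3 := hss (Finset.mem_filter.2 ⟨hs, ReflTransGen.refl⟩)
        exact hn (Finset.mem_filter.1 h3).2
    exact absurd (Finset.card_lt_card h2) (not_lt.2 h1)

theorem rp_PU {E E'' : Gr V} {s : V} {A : Finset V} {P : V → Prop} (hsub : E'' ⊆ E) {x y : V}
    (h : RP E'' P x y) (hx : Reach E s x) (hy : ∃ a ∈ A, Reach E y a) :
    RP (PU E s A) P x y := by
  induction h using ReflTransGen.head_induction_on with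
  | refl => exact ReflTransGen.refl
  | head hxz hzy ih =>
    rename_i x z
    have h1 : Reach E s z := ReflTransGen.tail hx (hsub hxz.1)
    have h2 : Reach E z y := (RP.reach hzy).mono hsub
    obtain ⟨a, ha, h3⟩ := hy
    exact ReflTransGen.head ⟨mem_PU.2 ⟨hsub hxz.1, hx, a, ha, ReflTransGen.trans h2 h3⟩, hxz.2⟩
      (ih h1)

theorem ip_PU {E E'' : Gr V} {s : V} {A : Finset V} {W : V → Prop} (hsub : E'' ⊆ E) {x y : V}
    (h : IP E'' W x y) (hx : Reach E s x) (hy : ∃ a ∈ A, Reach E y a) :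
    IP (PU E s A) W x y := by
  obtain ⟨u, h1, h2⟩ := h
  obtain ⟨a, ha, h3⟩ := hy
  have hxu : Reach E x u := h1.reach.mono hsub
  exact ⟨u, rp_PU hsub h1 hx ⟨a, ha, ReflTransGen.head (hsub h2) h3⟩,
    mem_PU.2 ⟨hsub h2, ReflTransGen.trans hx hxu, a, ha, h3⟩⟩

theorem LSA.reach_s {E : Gr V} {ρ : V} {A : Finset V} {s a : V} (hs : LSA E ρ A s)
    (ha : a ∈ A) (hr : Reach E ρ a) : Reach E ρ s ∧ Reach E s a :=
  through_of_not_avR hr (hs.1 a ha)

theorem cr_PU {E : Gr V} {ρ : V} {A : Finset V} {s : V} (hE : Acyc E) (hs : LSA E ρ A s)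
    (hA : A.Nonempty) (hr : ∀ a ∈ A, Reach E ρ a) (hleaf : ∀ a ∈ A, ∀ y, (a, y) ∉ E) :
    CR (PU E s A) s A := by
  refine ⟨hE.mono (PU_subset _ _ _), ?_, ?_, ?_, ?_, hA, ?_, ?_⟩
  · intro x hx
    obtain ⟨h1, h2, _⟩ := mem_PU.1 hx
    exact hE x s h1 h2
  · intro x y hxy
    obtain ⟨h1, h2, a, ha, h3⟩ := mem_PU.1 hxy
    exact (rp_PU (fun _ h => h) h2.toRP ReflTransGen.refl ⟨a, ha, ReflTransGen.head h1 h3⟩).reach
  · intro x y hxy
    obtain ⟨h1, h2, a, ha, h3⟩ := mem_PU.1 hxy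
    exact ⟨a, ha, (rp_PU (fun _ h => h) h3.toRP (ReflTransGen.tail h2 h1)
      ⟨a, ha, ReflTransGen.refl⟩).reach⟩
  · intro a ha y hy
    exact hleaf a ha y (mem_PU.1 hy).1
  · intro a ha
    exact (rp_PU (fun _ h => h) (hs.reach_s ha (hr a ha)).2.toRP ReflTransGen.refl
      ⟨a, ha, ReflTransGen.refl⟩).reach
  · intro v hv
    have key : ∃ a ∈ A, AvR E v s a := by
      by_cases hD : Dom E ρ A v
      · obtain ⟨a, ha⟩ := hA
        refine ⟨a, ha, avR_of_not_reach (hs.reach_s ha (hr a ha)).2 fun h => ?_⟩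
        exact hv (hE.antisymm (hs.2 v hD) h)
      · unfold Dom at hD
        push Not at hD
        obtain ⟨a, ha, h1⟩ := hD
        refine ⟨a, ha, hv.symm, ?_⟩
        rcases h1.2.through s with ⟨_, h2⟩ | ⟨h2, h3⟩
        · exact h2
        · exact absurd ⟨h2, h3.mono (fun _ _ h => h) fun _ h => h.2⟩ (hs.1 a ha)
    obtain ⟨a, ha, h1⟩ := key
    exact ⟨a, ha, h1.1, rp_PU (fun _ h => h) h1.2 ReflTransGen.refl ⟨a, ha, ReflTransGen.refl⟩⟩

/-! ### Paths and labels -/

theorem rp_lab {X : Gr V} {ρ : V} {q : V × Gr V} {lam : V → Option (V × V)} (hl : Lab X ρ q lam)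
    {X' : Gr V} (hX : X' ⊆ X) {x u : V} (h : RP X' (fun w => ¬ WS q.2 q.1 w) x u)
    (hx : ¬ WS q.2 q.1 x) :
    lam x = lam u ∧ RP X' (fun w => lam w = lam u ∧ ¬ WS q.2 q.1 w) x u := by
  induction h using ReflTransGen.head_induction_on with
  | refl => exact ⟨rfl, ReflTransGen.refl⟩
  | head hxz hzy ih =>
    rename_i x z
    obtain ⟨h1, h2⟩ := ih hxz.2
    exact ⟨(hl.ii x z (hX hxz.1) hx hxz.2).trans h1, ReflTransGen.head ⟨hxz.1, h1, hxz.2⟩ h2⟩

/-- A path without inner vertices in `W` avoids all vertices whose label is not the label of the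
path. -/
theorem ip_avoid_lab {X : Gr V} {ρ : V} {q : V × Gr V} {lam : V → Option (V × V)}
    (hl : Lab X ρ q lam) {X' : Gr V} (hX : X' ⊆ X) {x y v : V} (h : IP X' (WS q.2 q.1) x y)
    (hx : WS q.2 q.1 x) (hy : WS q.2 q.1 y) (hxv : x ≠ v) (hyv : y ≠ v)
    (hv : lam v ≠ some (x, y)) : AvR X' v x y := by
  obtain ⟨u, h1, h2⟩ := h
  refine ⟨hxv, ?_⟩
  rcases ReflTransGen.cases_head h1 with rfl | ⟨v1, hv1, h3⟩
  · exact ReflTransGen.single ⟨h2, hyv⟩
  · obtain ⟨b, hb⟩ := hl.wi x v1 (hX hv1.1) hx hv1.2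
    obtain ⟨h4, h5⟩ := rp_lab hl hX h3 hv1.2
    have hu : ¬ WS q.2 q.1 u := by
      rcases ReflTransGen.cases_tail h1 with h6 | ⟨_, _, h6⟩
      · rcases ReflTransGen.cases_tail h3 with h7 | ⟨_, _, h7⟩
        · rw [h7]; exact hv1.2
        · exact h7.2
      · exact h6.2
    have h6 : lam u = some (x, y) := by
      rcases hl.iw u y (hX h2) hu hy with ⟨a, ha⟩ | ⟨ha, _⟩
      · rw [← h4, hb] at ha
        rw [← h4, hb, ha]
        simp only [Option.some.injEq, Prod.mk.injEq] at ha ⊢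
        exact ⟨ha.1.symm, trivial⟩
      · rw [← h4, hb] at ha
        exact absurd ha (by simp)
    have h7 : RP X' (fun w => w ≠ v) v1 u := h5.mono (fun _ _ h => h) fun w hw hwv => by
      rw [← hwv, hw.1, h6] at hv
      exact hv rfl
    refine ReflTransGen.head ⟨hv1.1, ?_⟩ (ReflTransGen.tail h7 ⟨h2, hyv⟩)
    rintro rfl
    rw [h4, h6] at hv
    exact hv rfl

theorem ip_avoid_lab0 {X : Gr V} {ρ : V} {q : V × Gr V} {lam : V → Option (V × V)}
    (hl : Lab X ρ q lam) {X' : Gr V} (hX : X' ⊆ X) {y v : V} (h : IP X' (WS q.2 q.1) ρ y)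
    (hyv : y ≠ v) (hv : lam v ≠ none) : AvR X' v ρ y := by
  obtain ⟨u, h1, h2⟩ := h
  obtain ⟨h4, h5⟩ := rp_lab hl hX h1 hl.root.2
  have hρv : ρ ≠ v := by
    rintro rfl
    exact hv hl.root.1
  refine ⟨hρv, ReflTransGen.tail ?_ ⟨h2, hyv⟩⟩
  refine h5.mono (fun _ _ h => h) fun w hw hwv => ?_
  rw [← hwv, hw.1, ← h4, hl.root.1] at hv
  exact hv rfl

theorem ip_avoid {X' : Gr V} {W : V → Prop} {x y v : V} (h : IP X' W x y) (hv : W v)
    (hxv : x ≠ v) (hyv : y ≠ v) : AvR X' v x y := by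
  obtain ⟨u, h1, h2⟩ := h
  refine ⟨hxv, ReflTransGen.tail (h1.mono (fun _ _ h => h) ?_) ⟨h2, hyv⟩⟩
  rintro w hw rfl
  exact hw hv

/-! ### Subnetworks -/

/-- A rooted graph all whose arcs are reachable from the root. -/
structure Amb (E : Gr V) (ρ : V) : Prop where
  acyc : Acyc E
  rootin : ∀ x, (x, ρ) ∉ E
  reach : ∀ x y, (x, y) ∈ E → Reach E ρ x

theorem subnet {c : Prop} {E E' : Gr V} {ρ s : V} {A : Finset V} {q : V × Gr V} {L : V → Prop}
    (hE : Acyc E) (hE' : Amb E' ρ) (hsub : E' ⊆ E) (hA : A.Nonempty)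
    (hr : ∀ a ∈ A, Reach E ρ a) (hleaf : ∀ a ∈ A, ∀ y, (a, y) ∉ E)
    (hL : ∀ x y, (x, y) ∈ E → ¬ L x) (hs : LSA E ρ A s) (hRS : RSs c (s, PU E s A) q)
    (hq : q.1 ∉ A)
    (h1 : ∀ a b, (a, b) ∈ q.2 → a ≠ q.1 → IP (PU E s A ∩ E') (WS q.2 q.1) a b)
    (h2 : ∀ b, (q.1, b) ∈ q.2 → IP (PU E s A ∩ E') (WS q.2 q.1) s b) :
    (∀ a ∈ A, Reach E' ρ a) ∧
    ∃ (s' : V) (σ : Equiv.Perm V), LSA E' ρ A s' ∧ (∀ x, WS q.2 q.1 x → σ x = x) ∧
      (∀ x, L x → σ x = x) ∧ RSs c (s', PU E' s' A) (mv σ q) := by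
  have hX : CR (PU E s A) s A := cr_PU hE hs hA hr hleaf
  have hM : CR q.2 q.1 A := hX.steps hRS
  obtain ⟨lam, hl⟩ := exists_lab hRS hX
  simp only at hl
  set W := WS q.2 q.1 with hW
  have i1 : PU E s A ∩ E' ⊆ E' := Finset.inter_subset_right
  have i2 : PU E s A ∩ E' ⊆ PU E s A := Finset.inter_subset_left
  have hWb : ∀ {a b : V}, (a, b) ∈ q.2 → W b := fun h => ws_right hM h
  have hWa : ∀ {a b : V}, (a, b) ∈ q.2 → a ≠ q.1 → W a := fun h h' => ⟨⟨_, Or.inl h⟩, h'⟩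
  obtain ⟨b0, _, hb0⟩ := hM.root_out hq q.1
  -- lifting of paths
  have liftR : ∀ {x y : V}, Reach q.2 x y → x ≠ q.1 → Reach E' x y := by
    intro x y h
    induction h using ReflTransGen.head_induction_on with
    | refl => exact fun _ => ReflTransGen.refl
    | head hxz hzz ih =>
      rename_i x z
      intro hx
      exact ReflTransGen.trans ((h1 x z hxz hx).mono i1).reach (ih (hWb hxz).2)
  have hsA : ∀ a ∈ A, Reach E' s a := by
    intro a ha
    rcases ReflTransGen.cases_head (hM.reachA a ha) with h3 | ⟨b, hb, hba⟩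
    · exact absurd (h3 ▸ ha) hq
    · exact ReflTransGen.trans ((h2 b hb).mono i1).reach (liftR hba (hWb hb).2)
  have hρs : Reach E' ρ s := by
    rcases (h2 b0 hb0).cases with h3 | ⟨v, hv, _⟩
    · exact hE'.reach _ _ (i1 h3)
    · exact hE'.reach _ _ (i1 hv)
  have hr' : ∀ a ∈ A, Reach E' ρ a := fun a ha => ReflTransGen.trans hρs (hsA a ha)
  obtain ⟨s', hs'⟩ := exists_LSA hE'.acyc hA hr'
  have hDs : Dom E' ρ A s := fun a ha h => hs.1 a ha (h.mono hsub)
  have hss' : Reach E' s s' := hs'.2 s hDs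
  have e0 : s' ≠ s → AvR E' s' ρ s := by
    intro h
    refine avR_of_not_reach' hρs fun h3 => h (hE'.acyc.antisymm h3 hss')
  have hsW : ¬ W s := hl.root.2
  -- `s'` is not in `W`
  have e1 : ¬ W s' := by
    intro hWs
    have hne : s' ≠ s := by rintro rfl; exact hsW hWs
    obtain ⟨a, ha, h3⟩ := hM.dom s' hWs.2
    rcases ReflTransGen.cases_head h3.2 with h4 | ⟨b, hb, hba⟩
    · exact hq (h4 ▸ ha)
    · have h5 : AvR E' s' s b := (ip_avoid (h2 b hb.1) hWs hne.symm hb.2).mono i1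
      have lift : ∀ {x y : V}, RP q.2 (fun w => w ≠ s') x y → x ≠ s' → x ≠ q.1 →
          AvR E' s' x y := by
        intro x y h
        induction h using ReflTransGen.head_induction_on with
        | refl => exact fun h _ => ⟨h, ReflTransGen.refl⟩
        | head hxz hzz ih =>
          rename_i x z
          intro hx hx'
          exact ((ip_avoid (h1 x z hxz.1 hx') hWs hx hxz.2).mono i1).trans
            (ih hxz.2 (hWb hxz.1).2)
      exact hs'.1 a ha (((e0 hne).trans h5).trans (lift hba hb.2 (hWb hb.1).2))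
  -- the label of `s'`
  have e2 : lam s' = none := by
    by_contra hne
    obtain ⟨⟨a, b⟩, hab⟩ := Option.ne_none_iff_exists'.1 hne
    obtain ⟨h3, h4⟩ := hl.some _ _ _ hab
    have hss : s' ≠ s := by
      rintro rfl
      exact hne hl.root.1
    have hbr : b ≠ q.1 := (hWb h3).2
    obtain ⟨a', ha', h5⟩ := hM.dom b hbr
    rcases ReflTransGen.cases_head h5.2 with h6 | ⟨b1, hb1, h7⟩
    · exact hq (h6 ▸ ha')
    · have hne' : ∀ {x : V}, W x → x ≠ s' := by rintro x hx rfl; exact e1 hx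
      have h8 : AvR E' s' s b1 :=
        (ip_avoid_lab0 hl i2 (h2 b1 hb1.1) (hne' (hWb hb1.1)) hne).mono i1
      have lift : ∀ {x y : V}, RP q.2 (fun w => w ≠ b) x y → W x → AvR E' s' x y := by
        intro x y h
        induction h using ReflTransGen.head_induction_on with
        | refl => exact fun h => ⟨hne' h, ReflTransGen.refl⟩
        | head hxz hzz ih =>
          rename_i x z
          intro hx
          have h9 : AvR (PU E s A ∩ E') s' x z := by
            refine ip_avoid_lab hl i2 (h1 x z hxz.1 hx.2) hx (hWb hxz.1) (hne' hx)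
              (hne' (hWb hxz.1)) ?_
            rw [hab]
            simp only [ne_eq, Option.some.injEq, Prod.mk.injEq, not_and]
            exact fun _ h => hxz.2 h.symm
          exact (h9.mono i1).trans (ih (hWb hxz.1))
      exact hs'.1 a' ha' (((e0 hss).trans h8).trans (lift h7 (hWb hb1.1)))
  have hne' : ∀ {x : V}, W x → x ≠ s' := by rintro x hx rfl; exact e1 hx
  have liftN : ∀ {x y : V}, Reach q.2 x y → W x → AvR E' s' x y := by
    intro x y h
    induction h using ReflTransGen.head_induction_on with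
    | refl => exact fun h => ⟨hne' h, ReflTransGen.refl⟩
    | head hxz hzz ih =>
      rename_i x z
      intro hx
      have h9 : AvR (PU E s A ∩ E') s' x z := by
        refine ip_avoid_lab hl i2 (h1 x z hxz hx.2) hx (hWb hxz) (hne' hx)
          (hne' (hWb hxz)) ?_
        rw [e2]
        simp
      exact (h9.mono i1).trans (ih (hWb hxz))
  have co : ∀ {b : V}, W b → ∃ a ∈ A, Reach E' b a := by
    intro b hb
    obtain ⟨a, ha, h3⟩ := hM.co_vt hb.1
    exact ⟨a, ha, liftR h3 hb.2⟩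
  have f : ∀ b, (q.1, b) ∈ q.2 → IP (PU E' s' A) W s' b := by
    intro b hb
    obtain ⟨u, h3, h4⟩ := h2 b hb
    obtain ⟨a, ha, h5⟩ := hM.co_vt (hWb hb).1
    have h6 : RP (PU E s A ∩ E') (fun w => ¬ W w) s' u := by
      rcases h3.through s' with ⟨_, h7⟩ | ⟨h7, h8⟩
      · exact h7
      · exfalso
        have h9 : AvR E' s' s b := ⟨h7, ReflTransGen.tail
          (h8.mono (fun _ _ h => i1 h) fun _ h => h.2) ⟨i1 h4, hne' (hWb hb)⟩⟩
        exact hs'.1 a ha (((e0 h7.symm).trans h9).trans (liftN h5 (hWb hb)))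
    exact ip_PU i1 ⟨u, h6, h4⟩ ReflTransGen.refl (co (hWb hb))
  have g : ∀ a b, (a, b) ∈ q.2 → a ≠ q.1 → IP (PU E' s' A) W a b := by
    intro a b hab ha
    refine ip_PU i1 (h1 a b hab ha) ?_ (co (hWb hab))
    rcases ReflTransGen.cases_head (hM.reach a b hab) with h3 | ⟨b1, hb1, h4⟩
    · exact absurd h3.symm ha
    · exact ReflTransGen.trans ((f b1 hb1).mono (PU_subset _ _ _)).reach
        (liftR h4 (hWb hb1).2)
  have hX'X : PU E' s' A ⊆ PU E s A := by
    rintro ⟨x, y⟩ hxy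
    obtain ⟨h3, h4, a, ha, h5⟩ := mem_PU.1 hxy
    have h6 : Reach E' s x := ReflTransGen.trans hss' h4
    exact mem_PU.2 ⟨hsub h3, h6.mono hsub, a, ha, Reach.mono hsub h5⟩
  have hX' : CR (PU E' s' A) s' A :=
    cr_PU hE'.acyc hs' hA hr' fun a ha y hy => hleaf a ha y (hsub hy)
  obtain ⟨σ, s1, s2, s3⟩ := mono hq hRS hX
    (fun x y hxy => hL x y (PU_subset _ _ _ hxy)) (PU E' s' A) s' hX'X hX' g f
  exact ⟨hr', s', σ, hs', s1, s2, s3⟩

end Pool.Agent.NH85.SD
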