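import Pool.Agent.NH85.SD.Sub

/-!
# Suppression of vertices of the whole network
-/

namespace Pool.Agent.NH85.SD

set_option linter.unusedSectionVars false

open Relation

variable {V : Type} [DecidableEq V]

theorem Thin.ext {E : Gr V} {a v b a' b' : V} (h : Thin E a v b) (h' : Thin E a' v b') :
    a = a' ∧ b = b' := ⟨(h'.hin a).1 h.av, (h'.hout b).1 h.vb⟩

/-- Suppression of two different vertices. -/
theorem sup_comm' {E : Gr V} (hE : Acyc E) {a v b c w d : V} (h : Thin E a v b)
    (h' : Thin E c w d) (hvw : v ≠ w) :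
    ∃ a1 b1 c1 d1, Thin (sup E c w d) a1 v b1 ∧ Thin (sup E a v b) c1 w d1 ∧
      sup (sup E c w d) a1 v b1 = sup (sup E a v b) c1 w d1 := by
  have hav := hE.ne h.av
  have hvb := hE.ne h.vb
  have hcw := hE.ne h'.av
  have hwd := hE.ne h'.vb
  by_cases hbw : b = w
  · subst hbw
    obtain rfl : v = c := (h'.hin v).1 h.vb
    have hab : a ≠ b := by
      rintro rfl
      exact hE a v h.av (Reach.of_edge h.vb)
    have hvd : v ≠ d := by
      rintro rfl
      exact hE v b h.vb (Reach.of_edge h'.vb)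
    have t1 : Thin (sup E v b d) a v d := by
      refine ⟨fun x => ?_, fun y => ?_⟩
      · rw [mem_sup h', h.hin]
        constructor
        · rintro (⟨_, h2⟩ | ⟨h1, _⟩)
          · exact absurd h2 hvd
          · exact h1
        · rintro rfl
          exact Or.inr ⟨rfl, hab, hvb⟩
      · rw [mem_sup h', h.hout]
        constructor
        · rintro (⟨_, h2⟩ | ⟨h1, _, h3⟩)
          · exact h2
          · exact absurd h1 h3
        · rintro rfl
          exact Or.inl ⟨rfl, rfl⟩
    have t2 : Thin (sup E a v b) a b d := by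
      refine ⟨fun x => ?_, fun y => ?_⟩
      · rw [mem_sup h, h'.hin]
        constructor
        · rintro (⟨h1, _⟩ | ⟨h1, h2, _⟩)
          · exact h1
          · exact absurd h1 h2
        · rintro rfl
          exact Or.inl ⟨rfl, rfl⟩
      · rw [mem_sup h, h'.hout]
        constructor
        · rintro (⟨h1, _⟩ | ⟨h1, _, _⟩)
          · exact absurd h1.symm hab
          · exact h1
        · rintro rfl
          exact Or.inr ⟨rfl, hvb.symm, hvd.symm⟩
    refine ⟨a, d, a, d, t1, t2, ?_⟩
    ext ⟨x, y⟩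
    rw [mem_sup t1, mem_sup t2, mem_sup h, mem_sup h']
    constructor
    · rintro (h1 | ⟨⟨h1, h2⟩ | ⟨h1, h2, h3⟩, h4, h5⟩)
      · exact Or.inl h1
      · exact absurd h1 h4
      · exact Or.inr ⟨Or.inr ⟨h1, h4, h5⟩, h2, h3⟩
    · rintro (h1 | ⟨⟨h1, h2⟩ | ⟨h1, h2, h3⟩, h4, h5⟩)
      · exact Or.inl h1
      · exact absurd h2 h5
      · exact Or.inr ⟨Or.inr ⟨h1, h4, h5⟩, h2, h3⟩
  · by_cases haw : a = w
    · subst haw
      obtain rfl : v = d := (h'.hout v).1 h.av
      have hcb : c ≠ b := by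
        rintro rfl
        exact hE v c h.vb (Reach.of_edge h'.av |>.tail h.av)
      have hcv : c ≠ v := by
        rintro rfl
        exact hE _ _ h.av (Reach.of_edge h'.av)
      have t1 : Thin (sup E c a v) c v b := by
        refine ⟨fun x => ?_, fun y => ?_⟩
        · rw [mem_sup h', h.hin]
          constructor
          · rintro (⟨h2, _⟩ | ⟨h1, h2, _⟩)
            · exact h2
            · exact absurd h1 h2
          · rintro rfl
            exact Or.inl ⟨rfl, rfl⟩
        · rw [mem_sup h', h.hout]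
          constructor
          · rintro (⟨h2, _⟩ | ⟨h1, _, h3⟩)
            · exact absurd h2.symm hcv
            · exact h1
          · rintro rfl
            exact Or.inr ⟨rfl, hvw, hbw⟩
      have t2 : Thin (sup E a v b) c a b := by
        refine ⟨fun x => ?_, fun y => ?_⟩
        · rw [mem_sup h, h'.hin]
          constructor
          · rintro (⟨_, h1⟩ | ⟨h1, h2, _⟩)
            · exact absurd h1.symm hbw
            · exact h1
          · rintro rfl
            exact Or.inr ⟨rfl, hcv, hvw.symm⟩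
        · rw [mem_sup h, h'.hout]
          constructor
          · rintro (⟨_, h1⟩ | ⟨h1, _, h2⟩)
            · exact h1
            · exact absurd h1 h2
          · rintro rfl
            exact Or.inl ⟨rfl, rfl⟩
      refine ⟨c, b, c, b, t1, t2, ?_⟩
      ext ⟨x, y⟩
      rw [mem_sup t1, mem_sup t2, mem_sup h, mem_sup h']
      constructor
      · rintro (h1 | ⟨⟨h1, h2⟩ | ⟨h1, h2, h3⟩, h4, h5⟩)
        · exact Or.inl h1
        · exact absurd h2 h5
        · exact Or.inr ⟨Or.inr ⟨h1, h4, h5⟩, h2, h3⟩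
      · rintro (h1 | ⟨⟨h1, h2⟩ | ⟨h1, h2, h3⟩, h4, h5⟩)
        · exact Or.inl h1
        · exact absurd h1 h4
        · exact Or.inr ⟨Or.inr ⟨h1, h4, h5⟩, h2, h3⟩
    · have hcv : c ≠ v := by
        rintro rfl
        exact hbw ((h.hout w).1 h'.av).symm
      have hdv : d ≠ v := by
        rintro rfl
        exact haw ((h.hin w).1 h'.vb).symm
      have t1 : Thin (sup E c w d) a v b := by
        refine ⟨fun x => ?_, fun y => ?_⟩
        · rw [mem_sup h', h.hin]
          constructor
          · rintro (⟨_, h2⟩ | ⟨h1, _, _⟩)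
            · exact absurd h2.symm hdv
            · exact h1
          · rintro rfl
            exact Or.inr ⟨rfl, haw, hvw⟩
        · rw [mem_sup h', h.hout]
          constructor
          · rintro (⟨h2, _⟩ | ⟨h1, _, h3⟩)
            · exact absurd h2.symm hcv
            · exact h1
          · rintro rfl
            exact Or.inr ⟨rfl, hvw, hbw⟩
      have t2 : Thin (sup E a v b) c w d := by
        refine ⟨fun x => ?_, fun y => ?_⟩
        · rw [mem_sup h, h'.hin]
          constructor
          · rintro (⟨_, h2⟩ | ⟨h1, _, _⟩)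
            · exact absurd h2.symm hbw
            · exact h1
          · rintro rfl
            exact Or.inr ⟨rfl, hcv, hvw.symm⟩
        · rw [mem_sup h, h'.hout]
          constructor
          · rintro (⟨h2, _⟩ | ⟨h1, _, h3⟩)
            · exact absurd h2.symm haw
            · exact h1
          · rintro rfl
            exact Or.inr ⟨rfl, hvw.symm, hdv⟩
      refine ⟨a, b, c, d, t1, t2, ?_⟩
      ext ⟨x, y⟩
      rw [mem_sup t1, mem_sup t2, mem_sup h, mem_sup h']
      constructor
      · rintro (⟨rfl, rfl⟩ | ⟨⟨rfl, rfl⟩ | ⟨h1, h2, h3⟩, h4, h5⟩)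
        · exact Or.inr ⟨Or.inl ⟨rfl, rfl⟩, haw, hbw⟩
        · exact Or.inl ⟨rfl, rfl⟩
        · exact Or.inr ⟨Or.inr ⟨h1, h4, h5⟩, h2, h3⟩
      · rintro (⟨rfl, rfl⟩ | ⟨⟨rfl, rfl⟩ | ⟨h1, h2, h3⟩, h4, h5⟩)
        · exact Or.inr ⟨Or.inl ⟨rfl, rfl⟩, hcv, hdv⟩
        · exact Or.inl ⟨rfl, rfl⟩
        · exact Or.inr ⟨Or.inr ⟨h1, h4, h5⟩, h2, h3⟩

/-- Confluence: a vertex of degree two may be suppressed first. -/
theorem confl {c : Prop} {A : Finset V} {q p : V × Gr V} (h : RSs c p q) (hp : CR p.2 p.1 A)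
    (hq : ∀ a v b, v ≠ q.1 → ¬ Thin q.2 a v b) {a v b : V} (hv : v ≠ p.1)
    (ht : Thin p.2 a v b) : RSs c (p.1, sup p.2 a v b) q := by
  induction h using ReflTransGen.head_induction_on generalizing a v b with
  | refl => exact absurd ht (hq a v b hv)
  | head hstep hrest ih =>
    cases hstep with
    | sup hw h' =>
      rename_i ρ E c w d
      simp only at *
      by_cases hvw : v = w
      · subst hvw
        obtain ⟨rfl, rfl⟩ := ht.ext h'
        exact hrest
      · obtain ⟨a1, b1, c1, d1, t1, t2, heq⟩ := sup_comm' hp.acyc ht h' hvw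
        have := ih (hp.supp hw h') hv t1
        rw [heq] at this
        exact ReflTransGen.head (RS.sup hw t2) this
    | root hc h' =>
      rename_i ρ E x y z
      simp only at *
      have hρx := hp.acyc.ne h'.ρx
      have hvx : v ≠ x := by
        rintro rfl
        exact h'.yz (((ht.hout y).1 h'.exy).trans ((ht.hout z).1 h'.exz).symm)
      have hvy : v ≠ y := by
        rintro rfl
        exact hρx (((ht.hin ρ).1 h'.ρy).trans ((ht.hin x).1 h'.exy).symm)
      have haρ : a ≠ ρ := by
        rintro rfl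
        rcases (h'.hr v).1 ht.av with h1 | h1
        · exact hvx h1
        · exact hvy h1
      have t1 : Thin (cut E ρ) a v b := by
        refine ⟨fun w => ?_, fun w => ?_⟩
        · rw [mem_cut, ht.hin]
          exact ⟨fun h => h.1, fun h => ⟨h, by rw [h]; exact haρ⟩⟩
        · rw [mem_cut, ht.hout]
          exact ⟨fun h => h.1, fun h => ⟨h, hv⟩⟩
      have h1 := ih (hp.cutt h') hvx t1
      have h2 : cut (SD.sup E a v b) ρ = SD.sup (cut E ρ) a v b := by
        ext ⟨u, w⟩
        rw [mem_cut, mem_sup ht, mem_sup t1, mem_cut]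
        constructor
        · rintro ⟨h3 | ⟨h3, h4, h5⟩, h6⟩
          · exact Or.inl h3
          · exact Or.inr ⟨⟨h3, h6⟩, h4, h5⟩
        · rintro (⟨rfl, rfl⟩ | ⟨⟨h3, h4⟩, h5, h6⟩)
          · exact ⟨Or.inl ⟨rfl, rfl⟩, haρ⟩
          · exact ⟨Or.inr ⟨h3, h5, h6⟩, h4⟩
      rw [← h2] at h1
      have hρr : ∀ w, (ρ, w) ∈ SD.sup E a v b ↔ w = x ∨ w = y := by
        intro w
        rw [mem_sup ht, h'.hr]
        constructor
        · rintro (⟨h3, _⟩ | ⟨h3, _, _⟩)
          · exact absurd h3.symm haρ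
          · exact h3
        · rintro h3
          refine Or.inr ⟨h3, hv.symm, ?_⟩
          rcases h3 with rfl | rfl
          · exact hvx.symm
          · exact hvy.symm
      by_cases hzv : z = v
      · subst hzv
        obtain rfl : x = a := (ht.hin x).1 h'.exz
        have hyb : y ≠ b := by
          rintro rfl
          obtain ⟨a', ha', h3⟩ := hp.dom y (hp.acyc.ne h'.ρy).symm
          rcases ReflTransGen.cases_head h3.2 with h4 | ⟨w1, hw1, h4⟩
          · exact hp.leaf a' ha' x (h4 ▸ h'.ρx)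
          · rcases (h'.hr w1).1 hw1.1 with rfl | rfl
            · rcases ReflTransGen.cases_head h4 with h5 | ⟨w2, hw2, h5⟩
              · exact hp.leaf a' ha' y (h5 ▸ h'.exy)
              · rcases (h'.hx w2).1 hw2.1 with rfl | rfl
                · exact hw2.2 rfl
                · rcases ReflTransGen.cases_head h5 with h6 | ⟨w3, hw3, _⟩
                  · exact hp.leaf a' ha' y (h6 ▸ ht.vb)
                  · exact hw3.2 ((ht.hout w3).1 hw3.1)
            · exact hw1.2 rfl
        refine ReflTransGen.head (RS.root (y := y) (z := b) hc ⟨hρr, fun w => ?_, h'.xy, hyb⟩) h1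
        rw [mem_sup ht, h'.hx]
        constructor
        · rintro (⟨_, h3⟩ | ⟨h3 | h3, _, h4⟩)
          · exact Or.inr h3
          · exact Or.inl h3
          · exact absurd h3 h4
        · rintro (rfl | rfl)
          · exact Or.inr ⟨Or.inl rfl, hvx.symm, hvy.symm⟩
          · exact Or.inl ⟨rfl, rfl⟩
      · refine ReflTransGen.head (RS.root (y := y) (z := z) hc ⟨hρr, fun w => ?_, h'.xy, h'.yz⟩) h1
        rw [mem_sup ht, h'.hx]
        constructor
        · rintro (⟨h3, _⟩ | ⟨h3, _, h4⟩)
          · subst h3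
            rcases (h'.hx v).1 ht.av with h4 | h4
            · exact absurd h4 hvy
            · exact absurd h4.symm hzv
          · exact h3
        · rintro h3
          refine Or.inr ⟨h3, hvx.symm, ?_⟩
          rcases h3 with rfl | rfl
          · exact hvy.symm
          · exact hzv

/-- Suppression of a vertex of the whole network does not change the restrictions. -/
theorem lsa_sup {c : Prop} {A : Finset V} {E : Gr V} {ρ s a v b : V} {q : V × Gr V}
    (hE : Acyc E) (hA : A.Nonempty)
    (hr : ∀ x ∈ A, Reach E ρ x) (hleaf : ∀ x ∈ A, ∀ y, (x, y) ∉ E) (hv : v ≠ ρ)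
    (ht : Thin E a v b) (hs : LSA E ρ A s) (hRS : RSs c (s, PU E s A) q)
    (hq : ∀ a v b, v ≠ q.1 → ¬ Thin q.2 a v b) :
    LSA (sup E a v b) ρ A s ∧ RSs c (s, PU (sup E a v b) s A) q := by
  have hav := hE.ne ht.av
  have hvb := hE.ne ht.vb
  have hvA : ∀ x ∈ A, x ≠ v := by
    rintro x hx rfl
    exact hleaf x hx b ht.vb
  have hsv : s ≠ v := by
    rintro rfl
    have hD : Dom E ρ A b := by
      intro x hx h1
      rcases h1.2.through s with ⟨_, h2⟩ | ⟨h2, h3⟩
      · rcases ReflTransGen.cases_head h2 with h4 | ⟨w, hw, _⟩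
        · exact hvA x hx h4.symm
        · exact hw.2 ((ht.hout w).1 hw.1)
      · exact hs.1 x hx ⟨h2, h3.mono (fun _ _ h => h) fun _ h => h.2⟩
    exact hE s b ht.vb (hs.2 b hD)
  have hX : CR (PU E s A) s A := cr_PU hE hs hA hr hleaf
  refine ⟨⟨fun x hx h => ?_, fun w hw => ?_⟩, ?_⟩
  · rw [avR_sup_iff ht hsv hv.symm (hvA x hx)] at h
    exact hs.1 x hx h
  · have hwv : w ≠ v := by
      rintro rfl
      obtain ⟨x, hx⟩ := hA
      exact hw x hx (avR_of_not_vt (not_vt_sup hE ht) hv.symm
        ((reach_sup_iff ht hv.symm (hvA x hx)).2 (hr x hx)))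
    rw [reach_sup_iff ht hwv hsv]
    refine hs.2 w fun x hx h => hw x hx ?_
    rwa [avR_sup_iff ht hwv hv.symm (hvA x hx)]
  · have hre : ∀ {x y : V}, (x, y) ∈ sup E a v b → ((Reach (sup E a v b) s x ∧
        ∃ a' ∈ A, Reach (sup E a v b) y a') ↔ (Reach E s x ∧ ∃ a' ∈ A, Reach E y a')) := by
      intro x y hxy
      have h1 : x ≠ v := by
        rintro rfl
        exact not_vt_sup hE ht ⟨y, Or.inl hxy⟩
      have h2 : y ≠ v := by
        rintro rfl
        exact not_vt_sup hE ht ⟨x, Or.inr hxy⟩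
      rw [reach_sup_iff ht hsv h1]
      refine and_congr_right fun _ => exists_congr fun a' => and_congr_right fun ha' => ?_
      rw [reach_sup_iff ht h2 (hvA a' ha')]
    by_cases hin : (a, v) ∈ PU E s A
    · obtain ⟨_, h1, a', ha', h2⟩ := mem_PU.1 hin
      have h3 : Reach E b a' := by
        rcases ReflTransGen.cases_head h2 with h4 | ⟨w, hw, h4⟩
        · exact absurd h4.symm (hvA a' ha')
        · rwa [← (ht.hout w).1 hw]
      have hvb' : (v, b) ∈ PU E s A := mem_PU.2 ⟨ht.vb, ReflTransGen.tail h1 ht.av, a', ha', h3⟩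
      have ht' : Thin (PU E s A) a v b := by
        refine ⟨fun x => ⟨fun hx => (ht.hin x).1 (PU_subset _ _ _ hx), ?_⟩,
          fun x => ⟨fun hx => (ht.hout x).1 (PU_subset _ _ _ hx), ?_⟩⟩
        · rintro rfl; exact hin
        · rintro rfl; exact hvb'
      have heq : PU (sup E a v b) s A = sup (PU E s A) a v b := by
        ext ⟨x, y⟩
        rw [mem_sup ht']
        constructor
        · intro h
          obtain ⟨h4, h5⟩ := mem_PU.1 h
          have h6 := (hre h4).1 h5
          rcases (mem_sup ht _ _).1 h4 with h7 | ⟨h7, h8, h9⟩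
          · exact Or.inl h7
          · exact Or.inr ⟨mem_PU.2 ⟨h7, h6⟩, h8, h9⟩
        · rintro (⟨rfl, rfl⟩ | ⟨h4, h5, h6⟩)
          · have h4 : (x, y) ∈ sup E x v y := (mem_sup ht _ _).2 (Or.inl ⟨rfl, rfl⟩)
            exact mem_PU.2 ⟨h4, (hre h4).2 ⟨h1, a', ha', h3⟩⟩
          · obtain ⟨h7, h8⟩ := mem_PU.1 h4
            have h4 : (x, y) ∈ sup E a v b := (mem_sup ht _ _).2 (Or.inr ⟨h7, h5, h6⟩)
            exact mem_PU.2 ⟨h4, (hre h4).2 h8⟩
      rw [heq]
      exact confl hRS hX hq hsv.symm ht'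
    · have heq : PU (sup E a v b) s A = PU E s A := by
        ext ⟨x, y⟩
        constructor
        · intro h
          obtain ⟨h4, h5⟩ := mem_PU.1 h
          have h6 := (hre h4).1 h5
          rcases (mem_sup ht _ _).1 h4 with ⟨rfl, rfl⟩ | ⟨h7, h8, h9⟩
          · obtain ⟨h7, a', ha', h8⟩ := h6
            exact absurd (mem_PU.2 ⟨ht.av, h7, a', ha', ReflTransGen.head ht.vb h8⟩) hin
          · exact mem_PU.2 ⟨h7, h6⟩
        · intro h
          obtain ⟨h7, h8, a', ha', h9⟩ := mem_PU.1 h
          have h5 : x ≠ v := by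
            rintro rfl
            obtain rfl := (ht.hout y).1 h7
            rcases ReflTransGen.cases_tail h8 with h10 | ⟨w, hw, h10⟩
            · exact hsv h10.symm
            · obtain rfl := (ht.hin w).1 h10
              exact hin (mem_PU.2 ⟨h10, hw, a', ha', ReflTransGen.head h7 h9⟩)
          have h6 : y ≠ v := by
            rintro rfl
            obtain rfl := (ht.hin x).1 h7
            exact hin h
          have h4 : (x, y) ∈ sup E a v b := (mem_sup ht _ _).2 (Or.inr ⟨h7, h5, h6⟩)
          exact mem_PU.2 ⟨h4, (hre h4).2 ⟨h8, a', ha', h9⟩⟩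
      rw [heq]
      exact hRS

/-- Deletion of a root with a single child does not change the restrictions. -/
theorem lsa_root {A : Finset V} {E : Gr V} {ρ s d : V}
    (hE : Acyc E) (hin : ∀ x, (x, ρ) ∉ E) (hA : A.Nonempty)
    (hr : ∀ x ∈ A, Reach E ρ x) (hleaf : ∀ x ∈ A, ∀ y, (x, y) ∉ E)
    (hd : ∀ y, (ρ, y) ∈ E ↔ y = d) (hs : LSA E ρ A s) :
    LSA (cut E ρ) d A s ∧ PU (cut E ρ) s A = PU E s A := by
  have hρd : (ρ, d) ∈ E := (hd d).2 rfl
  have hne : d ≠ ρ := (hE.ne hρd).symm
  have hρA : ∀ x ∈ A, x ≠ ρ := by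
    rintro x hx rfl
    exact hleaf x hx d hρd
  have hD : Dom E ρ A d := by
    intro x hx h1
    rcases ReflTransGen.cases_head h1.2 with h2 | ⟨w, hw, _⟩
    · exact hρA x hx h2.symm
    · exact hw.2 ((hd w).1 hw.1)
  have hsρ : s ≠ ρ := by
    rintro rfl
    exact hE s d hρd (hs.2 d hD)
  refine ⟨⟨fun x hx h => ?_, fun w hw => ?_⟩, ?_⟩
  · refine hs.1 x hx ⟨hsρ.symm, ReflTransGen.head ⟨hρd, h.1⟩ ?_⟩
    exact (rp_cut_iff hin hne).1 h.2
  · have hwρ : w ≠ ρ := by
      rintro rfl
      obtain ⟨x, hx⟩ := hA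
      refine hw x hx (avR_of_not_vt (not_vt_cut hin) hne ?_)
      rw [reach_cut_iff hin hne]
      rcases ReflTransGen.cases_head (hr x hx) with h2 | ⟨u, hu, h3⟩
      · exact absurd h2.symm (hρA x hx)
      · rwa [← (hd u).1 hu]
    rw [reach_cut_iff hin hwρ]
    refine hs.2 w fun x hx h => hw x hx ?_
    rcases ReflTransGen.cases_head h.2 with h2 | ⟨u, hu, h3⟩
    · exact absurd h2.symm (hρA x hx)
    · obtain rfl := (hd u).1 hu.1
      exact ⟨hu.2, (rp_cut_iff hin hne).2 h3⟩
  · ext ⟨x, y⟩
    rw [mem_PU, mem_PU, mem_cut, reach_cut_iff hin hsρ]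
    constructor
    · rintro ⟨⟨h1, h2⟩, h3, a, ha, h4⟩
      exact ⟨h1, h3, a, ha, h4.mono (cut_subset _ _)⟩
    · rintro ⟨h1, h3, a, ha, h4⟩
      refine ⟨⟨h1, ?_⟩, h3, a, ha, (reach_cut_iff hin ?_).2 h4⟩
      · rintro rfl
        rcases ReflTransGen.cases_tail h3 with h5 | ⟨w, _, hw⟩
        · exact hsρ h5.symm
        · exact hin _ hw
      · rintro rfl
        exact hin _ h1

end Pool.Agent.NH85.SD
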